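import Pool.Agent.Helper68.ES.St6
import Pool.Agent.Helper79.RG.M_CO2
import Pool.Agent.Helper90.EP.M_FZ

/-! # Project ES: modules FMS, FZS (copies of the modules FM (helper42) and FZ (helper90) of project EP) -/

set_option autoImplicit false

open MeasureTheory Set Filter Topology
open scoped ENNReal RealInnerProductSpace

namespace Pool.Agent.Helper68.ES.FMSm

open Pool.Agent.Helper68.LM (Pl BB Bd Av HL ft fm DQ)
open Pool.Agent.Helper68.ES Pool.Agent.Helper68.EP Pool.Agent.Helper20.RG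
open Pool.Agent.Helper20.RL (RQ Rich BM Fml)
open Pool.Agent.Helper61.Lacunary (ConditionG LpBounded)

theorem hFMS (_hPT : Pool.Agent.Helper20.RG.StPT) (hFAS : StFAS) : StFMS := by
  intro φ τ A p c hG hA hGap hp1 hp2 hp3
  obtain ⟨C, hC, hkey⟩ := hFAS φ τ A p c hG hA hGap hp1 hp2 hp3
  haveI : IsFiniteMeasure (arc c φ) := by
    unfold arc
    infer_instance
  exact Pool.Agent.Helper79.RG.co2_gen (arc c φ) p C (by linarith) hC hkey

theorem hFZS (_hPT : Pool.Agent.Helper20.RG.StPT) (hCOV : Pool.Agent.Helper20.RG.StCOV)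
    (hCPP : StCPP) (hFM : StFMS) (hRES : Pool.Agent.Helper20.RG.StRES)
    (hFIN : Pool.Agent.Helper20.RG.StFIN) : StFZS := by
  intro Ω p hO hC hB h0 hp hp2 hp3 hG
  have hne : Ω.Nonempty := ⟨0, h0⟩
  obtain ⟨n, P, u, v, ℓ, φ, τ, hPiece, hcov⟩ := hCOV Ω hO hC hB hne
  refine hFIN Ω p n P u v ℓ φ τ hB hp hPiece hcov ?_
  intro i hi
  have hpi := hPiece i hi
  refine hRES Ω (P i) (u i) (v i) (ℓ i) (φ i) (τ i) p hpi hp.le ?_
  intro c
  obtain ⟨A, hA, hgap⟩ := hCPP Ω p hO hC hB hne (by linarith) hG (P i) (u i) (v i) (ℓ i) (φ i)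
    (τ i) hpi
  have hgr : Graph (fun t => φ i (ℓ i * t) / ℓ i) (fun t => τ i (ℓ i * t)) :=
    Pool.Agent.Helper90.EP.graph_scale_FZ hpi.graph hpi.pos
  exact hFM _ _ A p c hgr hA hgap hp hp2 hp3

end Pool.Agent.Helper68.ES.FMSm
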