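import Pool.Agent.Helper68.ES.St6

/-! # Module LOS of project ES: the output of part L at `p² + p = 3` (from helper47's module LOA of project EP) -/

set_option autoImplicit false

open MeasureTheory Set Filter Topology
open scoped ENNReal RealInnerProductSpace

namespace Pool.Agent.Helper68.ES.LOSm

open Pool.Agent.Helper61.EPL
open Pool.Agent.Helper68.LM (Pl BB Bd Av HL ft fm DQ)
open Pool.Agent.Helper20.RG
open Pool.Agent.Helper20.RL (RQ Rich BM Fml Hit)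
open Pool.Agent.Helper68.EP Pool.Agent.Helper68.ES
open Pool.Agent.Helper61.EP (trS Ex2 Yc Zc Ec am cutf)

/-- a set covered by five sets and a null set -/
private theorem sum5_LOS (w : ℤ → ℝ≥0∞) (S X A B D F : ℤ → Set Pl) (Z : Set Pl) (hZ : volume Z = 0)
    (hS : ∀ l, S l ⊆ Z ∪ (X l ∪ (A l ∪ (B l ∪ (D l ∪ F l))))) (I a b c d g : ℝ≥0∞)
    (ha : ∑' l, w l * volume (X l) ≤ a * I) (hb : ∑' l, w l * volume (A l) ≤ b * I)
    (hc : ∑' l, w l * volume (B l) ≤ c * I) (hd : ∑' l, w l * volume (D l) ≤ d * I)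
    (hg : ∑' l, w l * volume (F l) ≤ g * I) :
    ∑' l, w l * volume (S l) ≤ (a + (b + (c + (d + g)))) * I := by
  have h1 : ∀ l, w l * volume (S l) ≤
      w l * volume (X l) + (w l * volume (A l) + (w l * volume (B l) +
        (w l * volume (D l) + w l * volume (F l)))) := by
    intro l
    have h2 : volume (S l) ≤
        volume (X l) + (volume (A l) + (volume (B l) + (volume (D l) + volume (F l)))) := by
      refine (measure_mono (hS l)).trans ?_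
      refine (measure_union_le _ _).trans ?_
      rw [hZ, zero_add]
      refine (measure_union_le _ _).trans (add_le_add le_rfl ?_)
      refine (measure_union_le _ _).trans (add_le_add le_rfl ?_)
      refine (measure_union_le _ _).trans (add_le_add le_rfl ?_)
      exact measure_union_le _ _
    refine (mul_le_mul' le_rfl h2).trans (le_of_eq ?_)
    rw [mul_add, mul_add, mul_add, mul_add]
  refine (ENNReal.tsum_le_tsum h1).trans ?_
  rw [ENNReal.tsum_add, ENNReal.tsum_add, ENNReal.tsum_add, ENNReal.tsum_add, add_mul, add_mul, add_mul,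
    add_mul]
  exact add_le_add ha (add_le_add hb (add_le_add hc (add_le_add hd hg)))

theorem hLOS (hGPG : Pool.Agent.Helper68.EP.StGPG) (hSY : Pool.Agent.Helper68.EP.StSY)
    (hSYS : Pool.Agent.Helper20.RG.StSYS) (hOI : StOI) (hOII : StOII)
    (hLCX : StLCX) (hLGO : Pool.Agent.Helper61.EPL.StLGO)
    (hLX2 : Pool.Agent.Helper61.EPL.StLX2) (hLX3 : Pool.Agent.Helper61.EPL.StLX3)
    (hLDM : Pool.Agent.Helper61.EPL.StLDM) : StLOS := by
  intro φ τ A p c hG hA hGap hp1 hp2 hp3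
  have hp0 : 0 < p := by linarith
  have hGA := hGPG τ A p hA hp0 hGap
  set A₁ : ℝ := A ^ (1 / p) with hA₁
  have hA₁0 : 0 < A₁ := Real.rpow_pos_of_pos hA _
  obtain ⟨c0, hc0⟩ := hSY φ τ A p hG hA hGap hp1
  obtain ⟨e, he, hII⟩ := hOII p hp1 hp2 hp3
  obtain ⟨s₀, hs₀, hI⟩ := hOI p e hp1 hp2 hp3 he
  set s : ℝ := (max s₀ ((1 + p) / 2) + p) / 2 with hs
  have hm0 : max s₀ ((1 + p) / 2) < p := max_lt hs₀ (by linarith)
  have hm1 : s₀ ≤ max s₀ ((1 + p) / 2) := le_max_left _ _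
  have hm2 : (1 + p) / 2 ≤ max s₀ ((1 + p) / 2) := le_max_right _ _
  have hs1 : 1 < s := by rw [hs]; linarith
  have hsp : s < p := by rw [hs]; linarith
  have hs0s : s₀ < s := by rw [hs]; linarith
  have hs2s : (1 + p) / 2 ≤ s := by rw [hs]; linarith
  let P : Par :=
    { p := p, s := s, ε := (s - 1) / 64, A := A, c0 := c0, hs := hs1, hsp := hsp, hp := hp2,
      hε := by linarith, hεs := by linarith, hA := hA.le }
  have hSyP : Sy P (dat τ) := hc0 P rfl rfl rfl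
  obtain ⟨u₀', ε₃, Cf, C₁, hε₃, hCf, hC₁, hXC⟩ := hI φ τ A₁ c P hG rfl hGA hA₁0 hs0s
  obtain ⟨u₁, hCB⟩ := hLCX ε₃ hε₃
  have hRf : 1 ≤ ‖c‖ + |φ 0| + 3 := by
    have h1 := norm_nonneg c
    have h2 := abs_nonneg (φ 0)
    linarith
  obtain ⟨u₂, C₅, hC₅, hXII⟩ := hII P (‖c‖ + |φ 0| + 3) (1 / 160) rfl hs2s hRf (by norm_num)
  have hcen : ∀ u j : ℕ, 1 ≤ u → j < 2 ^ u → ‖ce c φ u j‖ ≤ ‖c‖ + |φ 0| + 3 := fun u j hu hj =>
    (hSYS φ τ A₁ p c hG hGA hA₁0 hp0 u hu).1.cen j hj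
  refine ⟨P, rfl, hSyP, fun u₀ => ?_⟩
  let U₀ : ℕ := max (max u₀ u₀') (max (max u₁ u₂) 1)
  have hU0 : u₀ ≤ U₀ := (le_max_left _ _).trans (le_max_left _ _)
  have hU0' : u₀' ≤ U₀ := (le_max_right _ _).trans (le_max_left _ _)
  have hU1 : u₁ ≤ U₀ := ((le_max_left _ _).trans (le_max_left _ _)).trans (le_max_right _ _)
  have hU3 : u₂ ≤ U₀ := ((le_max_right _ _).trans (le_max_left _ _)).trans (le_max_right _ _)
  have hU2 : 1 ≤ U₀ := (le_max_right _ _).trans (le_max_right _ _)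
  obtain ⟨C₂, hC₂, hGO⟩ := hLGO φ τ A₁ p s Cf c U₀ hG hGA hA₁0 hs1 hsp hCf hU2
  obtain ⟨C₃, hC₃, hX2⟩ := hLX2 φ τ A₁ p c hG hGA hA₁0 hp1 hp2
  obtain ⟨C₄, hC₄, hX3⟩ := hLX3 A p hA hp1 hp2
  refine ⟨U₀, C₂ + (C₃ + (C₄ + (C₁ + C₅))), 5, hU0, by linarith, by norm_num, fun f hf hf0 => ?_⟩
  obtain ⟨X, hX, hXg⟩ := hGO f hf hf0
  have hDM := hLDM φ τ A₁ p c hG hGA hA₁0 hp0 U₀ f hU2 hf hf0
  rw [ENNReal.ofReal_add (by linarith) (by linarith),
    ENNReal.ofReal_add (by linarith) (by linarith),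
    ENNReal.ofReal_add (by linarith) (by linarith),
    ENNReal.ofReal_add (by linarith) (by linarith)]
  refine sum5_LOS _ _ X _ _ _ _ _ (ae_iff.1 hDM) ?_ _ _ _ _ _ _ hX (hX2 U₀ f hU2 hf hf0)
    (hX3 φ τ c hG hGap U₀ f hU2 hf hf0) (hXC f hf hf0)
    (hXII φ τ (ce c φ) U₀ f hG hA hGap hSyP hcen hU3 hf hf0)
  rintro l x ⟨k, hk, hsum⟩
  by_contra hx
  simp only [mem_union, not_or] at hx
  obtain ⟨hx0, hx1, hx2, hx3, hx4, hx5⟩ := hx
  have hx0' := not_not.1 hx0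
  obtain ⟨hLoc, hSa⟩ := hXg l x hx1
  have e2 : ∑' i : ℕ, ‖Ec c φ τ (U₀ + i + 1) k (cutf f l (U₀ + i + 1)) x‖ₑ ≤
      ENNReal.ofReal ((2 : ℝ) ^ l / 4) := by
    by_contra hc
    exact hx2 ⟨k, not_le.1 hc⟩
  have e3 : liminf (fun U : ℕ => ‖∑ u ∈ Finset.Ioc U₀ U, Zc c φ τ u k (cutf f l u) x‖ₑ) atTop ≤
      ENNReal.ofReal ((2 : ℝ) ^ l / 4) := by
    by_contra hc
    exact hx3 ⟨k, not_le.1 hc⟩
  obtain ⟨V, hV⟩ := hx0' k l hk (hSa k) e2 e3
  have h4 : ∀ u : ℕ, U₀ ≤ u → Lw P c φ τ u k (Gf f (l + (u : ℤ))) x ≤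
      (2 : ℝ) ^ (-(ε₃ * u)) + 4 * cr P (dat τ) (ce c φ) e u k (Gf f (l + (u : ℤ))) x := by
    intro u hu
    by_contra hh
    exact hx4 ⟨u, hU0'.trans hu, hLoc u, k, not_le.1 hh⟩
  rcases hCB φ τ P c e U₀ V k l f x hG hU1 hf hf0 h4 hV with h5 | h5
  · exact hx5 ⟨k, V, h5⟩
  · exact absurd (hsum V) (not_lt.2 h5)

end Pool.Agent.Helper68.ES.LOSm
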