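import Pool.Agent.Helper68.ES.St5
import Pool.Agent.Helper76.EP.M_XB1

/-!
# Project ES (MP_cb927e_an), module PX1: crossing hits (from helper76's module XB1 of project EP)
-/

set_option autoImplicit false

open MeasureTheory Set Filter Topology
open scoped ENNReal RealInnerProductSpace

namespace Pool.Agent.Helper68.ES.PX1m

open Pool.Agent.Helper68.LM (Pl BB Bd Av HL ft fm DQ)
open Pool.Agent.Helper68.EP Pool.Agent.Helper20.RG Pool.Agent.Helper68.ES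
open Pool.Agent.Helper20.RL (RQ Rich BM Fml Hit)
open Pool.Agent.Helper76.EP (exists_piece exists_shift cell_bound)

theorem rich_iff {F : Set Pl} {s : ℝ} {a b : ℤ} {θ : ℝ} {y z : Pl} (hLGR : Pool.Agent.Helper20.RL.StLGR)
    (h : z ∈ RQ s a b y) : Rich F s a b θ z ↔ Rich F s a b θ y := by
  unfold Pool.Agent.Helper20.RL.Rich
  rw [hLGR.2.1 s a b y z h]

theorem hPX1 (hPT : Pool.Agent.Helper20.RG.StPT) (hLGR : Pool.Agent.Helper20.RL.StLGR)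
    (hEFB : Pool.Agent.Helper68.EP.StEFB) (hECR : Pool.Agent.Helper68.EP.StECR)
    (hXW : Pool.Agent.Helper68.EP.StXW) : Pool.Agent.Helper68.ES.StPX1 := by
  intro P Δ ct w u j j' q₁ q₂ k θ₁ θ₂ E₁ E₂ hS hw hu hj hj' hB₁ hB₂ hθ₁ hθ₂ hq2 huq hfar
  have hu1 : 1 ≤ u := hw.trans hu
  have hs₁ : |Δ.sl w j| ≤ 1 := hS.slope w j hw hj
  have hs₂ : |Δ.sl u j'| ≤ 1 := hS.slope u j' hu1 hj'
  set s₁ := Δ.sl w j with hs₁d
  set s₂ := Δ.sl u j' with hs₂d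
  have hDD : 0 < DD P u := by
    unfold DD
    positivity
  have hθ2 : 0 < θ₂ := by linarith
  have hba : k - 2 ^ q₂ ≤ k - (u : ℤ) := by
    have h4 : (u : ℤ) ≤ 2 ^ q₂ := by exact_mod_cast huq
    linarith
  have had : k - (w : ℤ) = (k - (u : ℤ)) + ((u - w : ℕ) : ℤ) := by
    omega
  set B₁ : ℤ := k - (Δ.fl w j : ℤ) with hB₁d
  set V : Set Pl := Rc Δ w j k θ₁ (Eg E₁ (DD P w) q₁ k) with hV
  set F₂ : Set Pl := Eg E₂ (DD P u) q₂ k with hF₂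
  have hag : ag q₂ = 2 ^ q₂ := by
    unfold ag
    rw [if_neg (by omega)]
  have hF₂s : F₂ ⊆ Fb E₂ (DD P u) (k - 2 ^ q₂) := by
    rw [hF₂]
    unfold Eg
    rw [hag]
    exact sdiff_subset
  have hden' : ∀ (y : Pl) (b' : ℤ), k - 2 ^ q₂ ≤ b' →
      volume (F₂ ∩ DQ b' y) ≤ ENNReal.ofReal (DD P u * (4 : ℝ) ^ b') := by
    intro y b' hb'
    exact (measure_mono (inter_subset_inter_left _ hF₂s)).trans
      (hEFB.2.2.2.2 E₂ (DD P u) (k - 2 ^ q₂) b' y hb')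
  have hF₂m : BM F₂ := by
    refine ⟨?_, ?_⟩
    · rw [hF₂]
      unfold Eg
      exact ((hEFB.1 E₂ (DD P u) _).2.1 hB₂.1).diff ((hEFB.1 E₂ (DD P u) _).2.1 hB₂.1)
    · exact ((hEFB.1 E₂ (DD P u) (k - 2 ^ q₂)).2.2 hB₂).2.subset hF₂s
  have hcr : (2 : ℝ) ^ (k - 2 ^ q₂) ≤ |s₁ - s₂| * (2 : ℝ) ^ (k - (u : ℤ)) := by
    have h1 : (2 : ℝ) ^ (k - 2 ^ q₂) = (2 : ℝ) ^ ((u : ℤ) - 2 ^ q₂) * (2 : ℝ) ^ (k - (u : ℤ)) := by
      rw [← zpow_add₀ (by norm_num)]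
      congr 1
      ring
    rw [h1]
    exact mul_le_mul_of_nonneg_right hfar.le (by positivity)
  -- the cells
  set C : ℤ × ℤ → Set Pl := fun ι => {y | y ∈ V ∧
    ⌊y 0 / (2 : ℝ) ^ (k - (w : ℤ))⌋ = ι.1 ∧ ⌊pr s₁ y / (2 : ℝ) ^ B₁⌋ = ι.2} with hC
  have hCell : ∀ (ι : ℤ × ℤ) (y₀ : Pl), y₀ ∈ C ι → C ι = RQ s₁ (k - (w : ℤ)) B₁ y₀ := by
    intro ι y₀ hy₀
    obtain ⟨h1, h3, h4⟩ := hy₀
    ext z
    constructor
    · rintro ⟨g1, g3, g4⟩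
      exact ⟨by rw [g3, h3], by rw [g4, h4]⟩
    · intro hz
      refine ⟨?_, by rw [hz.1, h3], by rw [hz.2, h4]⟩
      have h5 : Rich (Eg E₁ (DD P w) q₁ k) s₁ (k - (w : ℤ)) B₁ θ₁ y₀ := h1
      exact (rich_iff hLGR hz).2 h5
  have hCm : ∀ ι, MeasurableSet (C ι) := by
    intro ι
    rcases (C ι).eq_empty_or_nonempty with h | ⟨y₀, hy₀⟩
    · rw [h]
      exact MeasurableSet.empty
    · rw [hCell ι y₀ hy₀]
      exact (hLGR.1 _ _ _ _).1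
  have hCd : Pairwise (Function.onFun Disjoint C) := by
    intro ι ι' hne
    rw [Function.onFun, Set.disjoint_left]
    rintro y ⟨-, h3, h4⟩ ⟨-, g3, g4⟩
    apply hne
    have e2 : ι.1 = ι'.1 := by rw [← h3, ← g3]
    have e3 : ι.2 = ι'.2 := by rw [← h4, ← g4]
    exact Prod.ext e2 e3
  have hCu : (⋃ ι, C ι) = V := by
    ext y
    simp only [mem_iUnion]
    constructor
    · rintro ⟨ι, h, -⟩
      exact h
    · intro h
      exact ⟨(⌊y 0 / (2 : ℝ) ^ (k - (w : ℤ))⌋, ⌊pr s₁ y / (2 : ℝ) ^ B₁⌋), h, rfl, rfl⟩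
  -- the set of points for one cell
  set T : ℤ × ℤ → Set Pl := fun ι => {x | (∃ y₁ ∈ C ι,
      |(x - (2 : ℝ) ^ k • ct w j) 0 - y₁ 0| ≤ 3 * (2 : ℝ) ^ (k - (w : ℤ)) ∧
      |pr s₁ (x - (2 : ℝ) ^ k • ct w j) - pr s₁ y₁| ≤ 2 * (2 : ℝ) ^ B₁) ∧
      j' ∈ Hs Δ ct u k θ₂ F₂ x} with hT
  have hTb : ∀ ι, volume (T ι) ≤ ENNReal.ofReal (10 ^ 6 * DD P u / θ₂) * volume (C ι) := by
    intro ι
    rcases (T ι).eq_empty_or_nonempty with h | ⟨x₀, ⟨y₀, hy₀, -⟩, -⟩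
    · rw [h, measure_empty]
      exact zero_le
    · have hvol : volume (C ι) = ENNReal.ofReal ((2 : ℝ) ^ (k - (w : ℤ) + B₁)) := by
        rw [hCell ι y₀ hy₀]
        exact (hLGR.1 _ _ _ _).2.1
      have hmain := cell_bound hECR F₂ s₁ s₂ (k - (u : ℤ)) (k - 2 ^ q₂) B₁ (u - w)
        (DD P u) θ₂ ((2 : ℝ) ^ k • ct w j) ((2 : ℝ) ^ k • ct u j') y₀ hs₁ hs₂
        hF₂m hba hDD hθ2 (fun y => hden' y (k - 2 ^ q₂) le_rfl) (Or.inr hcr)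
      rw [← had] at hmain
      have hsub : T ι ⊆ {x : Pl | |(x - (2 : ℝ) ^ k • ct w j) 0 - y₀ 0| ≤ 4 * (2 : ℝ) ^ (k - (w : ℤ)) ∧
          |pr s₁ (x - (2 : ℝ) ^ k • ct w j) - pr s₁ y₀| ≤ 3 * (2 : ℝ) ^ B₁ ∧
          ∃ i ∈ Finset.Icc (-3 : ℤ) 3, x + ((((i : ℝ) * (2 : ℝ) ^ (k - (u : ℤ))) • E s₂) -
            (2 : ℝ) ^ k • ct u j') ∈ Rs F₂ s₂ (k - (u : ℤ)) (k - 2 ^ q₂) θ₂} := by
        rintro x ⟨⟨y₁, hy₁, n1, n2⟩, hH⟩
        obtain ⟨-, y₂, hy₂, m1, m2⟩ := hH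
        have hy₁' : y₁ ∈ RQ s₁ (k - (w : ℤ)) B₁ y₀ := by
          rw [← hCell ι y₀ hy₀]
          exact hy₁
        obtain ⟨d1, d2, -⟩ := hLGR.2.2.2.1 s₁ (k - (w : ℤ)) B₁ y₀ y₁ hs₁ hy₁'
        refine ⟨?_, ?_, ?_⟩
        · rw [abs_le] at n1 ⊢
          rw [abs_lt] at d1
          constructor <;> linarith [n1.1, n1.2, d1.1, d1.2]
        · rw [abs_le] at n2 ⊢
          rw [abs_lt] at d2
          constructor <;> linarith [n2.1, n2.2, d2.1, d2.2]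
        · rw [← hs₂d] at m2
          have hy₂' : Rich F₂ s₂ (k - (u : ℤ)) (k - (Δ.fl u j' : ℤ)) θ₂ y₂ := hy₂
          have r2 : k - (Δ.fl u j' : ℤ) < k - 2 ^ q₂ := by
            by_contra hc
            have h5 := hXW F₂ s₂ (k - (u : ℤ)) (k - 2 ^ q₂) (k - (Δ.fl u j' : ℤ)) (DD P u) θ₂ y₂ hs₂ hba
              (not_lt.1 hc) hDD.le hden' hy₂'
            linarith
          have ha0 : (0 : ℝ) < (2 : ℝ) ^ (k - (u : ℤ)) := by positivity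
          have hfl : |(x - (2 : ℝ) ^ k • ct u j') 0 / (2 : ℝ) ^ (k - (u : ℤ)) -
              y₂ 0 / (2 : ℝ) ^ (k - (u : ℤ))| ≤ 3 := by
            rw [← sub_div, abs_div, abs_of_pos ha0, div_le_iff₀ ha0]
            exact m1
          obtain ⟨i, hi, hie⟩ := exists_shift _ _ hfl
          refine ⟨i, hi, y₂, k - (Δ.fl u j' : ℤ), r2.le, hy₂', ?_, ?_⟩
          · rw [← hie]
            congr 1
            rw [eq_comm, div_add' _ _ _ ha0.ne']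
            congr 1
            have e0 : (E s₂) 0 = 1 := (hPT.1 1 s₂).1
            simp only [PiLp.add_apply, PiLp.sub_apply, PiLp.smul_apply, smul_eq_mul, e0]
            ring
          · have e0 : (E s₂) 0 = 1 := (hPT.1 1 s₂).1
            have e1 : (E s₂) 1 = s₂ := (hPT.1 1 s₂).2
            have e2 : pr s₂ (x + ((((i : ℝ) * (2 : ℝ) ^ (k - (u : ℤ))) • E s₂) - (2 : ℝ) ^ k • ct u j')) =
                pr s₂ (x - (2 : ℝ) ^ k • ct u j') := by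
              simp only [pr, PiLp.add_apply, PiLp.sub_apply, PiLp.smul_apply, smul_eq_mul, e0, e1]
              ring
            rw [e2]
            have hB0 : (0 : ℝ) < (2 : ℝ) ^ (k - (Δ.fl u j' : ℤ)) := by positivity
            linarith [m2]
      refine (measure_mono hsub).trans (hmain.trans ?_)
      rw [hvol, ← ENNReal.ofReal_mul (by positivity)]
      apply ENNReal.ofReal_le_ofReal
      have hK : (0 : ℝ) ≤ DD P u / θ₂ * (2 : ℝ) ^ (k - (w : ℤ) + B₁) := by positivity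
      calc 207900 * DD P u / θ₂ * (2 : ℝ) ^ (k - (w : ℤ) + B₁)
          = 207900 * (DD P u / θ₂ * (2 : ℝ) ^ (k - (w : ℤ) + B₁)) := by ring
        _ ≤ 10 ^ 6 * (DD P u / θ₂ * (2 : ℝ) ^ (k - (w : ℤ) + B₁)) := by
            apply mul_le_mul_of_nonneg_right (by norm_num) hK
        _ = 10 ^ 6 * DD P u / θ₂ * (2 : ℝ) ^ (k - (w : ℤ) + B₁) := by ring
  have hcov : {x | j ∈ Hs Δ ct w k θ₁ (Eg E₁ (DD P w) q₁ k) x ∧
      j' ∈ Hs Δ ct u k θ₂ (Eg E₂ (DD P u) q₂ k) x} ⊆ ⋃ ι, T ι := by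
    rintro x ⟨⟨-, y₁, hy₁, n1, n2⟩, h2⟩
    have hy₁' : y₁ ∈ V := hy₁
    rw [← hCu, mem_iUnion] at hy₁'
    obtain ⟨ι, hι⟩ := hy₁'
    exact mem_iUnion.2 ⟨ι, ⟨y₁, hι, n1, n2⟩, h2⟩
  calc _ ≤ volume (⋃ ι, T ι) := measure_mono hcov
    _ ≤ ∑' ι, volume (T ι) := measure_iUnion_le _
    _ ≤ ∑' ι, ENNReal.ofReal (10 ^ 6 * DD P u / θ₂) * volume (C ι) := ENNReal.tsum_le_tsum hTb
    _ = ENNReal.ofReal (10 ^ 6 * DD P u / θ₂) * ∑' ι, volume (C ι) := ENNReal.tsum_mul_left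
    _ = ENNReal.ofReal (10 ^ 6 * DD P u / θ₂) * volume V := by
        rw [← measure_iUnion hCd hCm, hCu]

end Pool.Agent.Helper68.ES.PX1m
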