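import Pool.Agent.Helper68.ES.St6
import Pool.Agent.Helper45.EP.M_LCB

/-!
# Project ES (MP_cb927e_an), module LCX: combinatorics at a point (from helper45's module LCB of project EP)
-/

set_option autoImplicit false

open MeasureTheory Set Filter Topology
open scoped ENNReal RealInnerProductSpace

namespace Pool.Agent.Helper68.ES.LCXm

open Pool.Agent.Helper61.EPL Pool.Agent.Helper20.RG Pool.Agent.Helper68.EP
open Pool.Agent.Helper20.RL (RQ Rich BM Fml Hit)
open Pool.Agent.Helper61.EP (trS Ex2 Yc Zc Ec am cutf)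
open Pool.Agent.Helper68.LM (Pl BB Bd Av HL ft fm DQ)
open Pool.Agent.Helper45.EPL (bb_ind bm_gf bm_diff)

theorem hn_nonneg (P : Par) (Δ : Dat) (ct : ℕ → ℕ → Pl) (u q i : ℕ) (k : ℤ) (E : Set Pl) (x : Pl) :
    0 ≤ Pool.Agent.Helper68.ES.hn P Δ ct u q i k E x := by
  unfold Pool.Agent.Helper68.ES.hn; positivity

theorem cr_nonneg (P : Par) (Δ : Dat) (ct : ℕ → ℕ → Pl) (e : ℝ) (u : ℕ) (k : ℤ) (E : Set Pl) (x : Pl) :
    0 ≤ Pool.Agent.Helper68.ES.cr P Δ ct e u k E x := by
  unfold Pool.Agent.Helper68.ES.cr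
  refine Finset.sum_nonneg fun q _ => Finset.sum_nonneg fun i _ => ?_
  split_ifs
  · exact mul_nonneg (by positivity) (hn_nonneg _ _ _ _ _ _ _ _ _)
  · exact le_rfl

theorem hLCX (hYB : Pool.Agent.Helper20.RG.StYB) (hEFB : Pool.Agent.Helper68.EP.StEFB) :
    Pool.Agent.Helper68.ES.StLCX := by
  intro ε₃ hε
  have h2 : (0 : ℝ) < 2 := by norm_num
  set q : ℝ := (2 : ℝ) ^ (-ε₃) with hq
  have hq0 : 0 < q := Real.rpow_pos_of_pos h2 _
  have hq1 : q < 1 := Real.rpow_lt_one_of_one_lt_of_neg (by norm_num) (by linarith)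
  obtain ⟨u₁, hu₁⟩ := exists_pow_lt_of_lt_one (show 0 < (1 - q) / 40 by
    have : 0 < 1 - q := by linarith
    positivity) hq1
  refine ⟨u₁, ?_⟩
  intro φ τ P c e U₀ V k l f x hG hU hBB hf0 hA hC
  have hqu : ∀ u : ℕ, (2 : ℝ) ^ (-(ε₃ * (u : ℝ))) = q ^ u := by
    intro u
    rw [hq, ← Real.rpow_natCast, ← Real.rpow_mul h2.le]; congr 1; ring
  -- one class
  have hone : ∀ u : ℕ, U₀ ≤ u →
      (∑ j ∈ Finset.range (2 ^ u), Yc c φ τ u k ((Gf f (l + (u : ℤ))).indicator 1) x j ≤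
        2 * q ^ u + 8 * Pool.Agent.Helper68.ES.cr P (dat τ) (ce c φ) e u k (Gf f (l + (u : ℤ))) x +
          2 * ∑ j ∈ Finset.range (2 ^ u),
          tt P (dat τ) (ce c φ) (P.g / 8) u j k (Gf f (l + (u : ℤ))) x) ∧
      0 ≤ ∑ j ∈ Finset.range (2 ^ u),
          tt P (dat τ) (ce c φ) (P.g / 8) u j k (Gf f (l + (u : ℤ))) x := by
    intro u hu
    have hE : BM (Gf f (l + (u : ℤ))) := bm_gf hBB _
    have hF : BM (Fo P u k (q0 P u) (Gf f (l + (u : ℤ)))) := (hEFB.1 _ _ _).2.2 hE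
    have hsub : Fo P u k (q0 P u) (Gf f (l + (u : ℤ))) ⊆ Gf f (l + (u : ℤ)) := (hEFB.1 _ _ _).1
    set E : Set Pl := Gf f (l + (u : ℤ)) with hEdef
    set F : Set Pl := Fo P u k (q0 P u) E with hFdef
    have hD : BM (E \ F) := bm_diff hE hF
    have hl : (0 : ℝ) < 1 / (2 : ℝ) ^ u := by positivity
    have hs : ∀ j : ℕ, |τ (tm u j)| ≤ 1 := fun j => hG.1 _
    have hsum : ∀ j : ℕ, Yc c φ τ u k (E.indicator 1) x j =
        Yc c φ τ u k (F.indicator 1) x j + Yc c φ τ u k ((E \ F).indicator 1) x j := by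
      intro j
      have h3 := (hYB (τ (tm u j)) (ce c φ u j) (mm τ u j) (1 / (2 : ℝ) ^ u) k (F.indicator 1)
        (hs j) hl (bb_ind hF)).2.2.2.2 1 ((E \ F).indicator 1) (bb_ind hD) x
      have h4 : (fun y => 1 * F.indicator (1 : Pl → ℝ) y + (E \ F).indicator (1 : Pl → ℝ) y) =
          E.indicator 1 := by
        funext y
        by_cases h5 : y ∈ F
        · rw [Set.indicator_of_mem h5, Set.indicator_of_mem (hsub h5),
            Set.indicator_of_notMem (by simp [h5])]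
          simp
        · by_cases h6 : y ∈ E
          · rw [Set.indicator_of_notMem h5, Set.indicator_of_mem h6,
              Set.indicator_of_mem (by exact ⟨h6, h5⟩)]
            simp
          · rw [Set.indicator_of_notMem h5, Set.indicator_of_notMem h6,
              Set.indicator_of_notMem (by simp [h6])]
            simp
      rw [h4, one_mul] at h3
      exact h3
    have hF0 : ∀ j : ℕ, 0 ≤ Yc c φ τ u k (F.indicator 1) x j := by
      intro j
      exact (hYB (τ (tm u j)) (ce c φ u j) (mm τ u j) (1 / (2 : ℝ) ^ u) k (F.indicator 1)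
        (hs j) hl (bb_ind hF)).2.2.1 (fun y => Set.indicator_nonneg (by intro _ _; simp) y) x
    have hD0 : ∀ j : ℕ, 0 ≤ Yc c φ τ u k ((E \ F).indicator 1) x j := by
      intro j
      exact (hYB (τ (tm u j)) (ce c φ u j) (mm τ u j) (1 / (2 : ℝ) ^ u) k ((E \ F).indicator 1)
        (hs j) hl (bb_ind hD)).2.2.1 (fun y => Set.indicator_nonneg (by intro _ _; simp) y) x
    have htt : ∀ j : ℕ, tt P (dat τ) (ce c φ) (P.g / 8) u j k E x =
        if (2 : ℝ) ^ (-(P.g / 8 * u)) / 2 ≤ Yc c φ τ u k (F.indicator 1) x j then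
          Yc c φ τ u k (F.indicator 1) x j else 0 := by
      intro j
      rfl
    have htt0 : ∀ j : ℕ, 0 ≤ tt P (dat τ) (ce c φ) (P.g / 8) u j k E x := by
      intro j
      rw [htt j]
      split_ifs
      · exact hF0 j
      · exact le_refl _
    have hpt : ∀ j : ℕ, Yc c φ τ u k (E.indicator 1) x j ≤
        (if Yc c φ τ u k (E.indicator 1) x j < (2 : ℝ) ^ (-(P.g / 8 * u)) then
          Yc c φ τ u k (E.indicator 1) x j else 0) +
        2 * tt P (dat τ) (ce c φ) (P.g / 8) u j k E x +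
        2 * Yc c φ τ u k ((E \ F).indicator 1) x j := by
      intro j
      have a1 := hF0 j
      have a2 := hD0 j
      have a3 := htt0 j
      have a4 := hsum j
      by_cases h7 : Yc c φ τ u k (E.indicator 1) x j < (2 : ℝ) ^ (-(P.g / 8 * u))
      · rw [if_pos h7]; linarith
      · rw [if_neg h7]
        by_cases h8 : Yc c φ τ u k (E.indicator 1) x j / 2 ≤ Yc c φ τ u k (F.indicator 1) x j
        · have h9 : tt P (dat τ) (ce c φ) (P.g / 8) u j k E x = Yc c φ τ u k (F.indicator 1) x j := by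
            rw [htt j, if_pos (by linarith)]
          rw [h9]; linarith
        · linarith
    constructor
    · have h10 := hA u hu
      rw [hqu u] at h10
      unfold Pool.Agent.Helper68.ES.Lw Pool.Agent.Helper61.EP.trS at h10
      have h12 := Finset.sum_le_sum (fun j (_ : j ∈ Finset.range (2 ^ u)) => hpt j)
      rw [Finset.sum_add_distrib, Finset.sum_add_distrib, ← Finset.mul_sum, ← Finset.mul_sum] at h12
      have h13 : 0 ≤ ∑ j ∈ Finset.range (2 ^ u),
          (if Yc c φ τ u k (E.indicator 1) x j < (2 : ℝ) ^ (-(P.g / 8 * u)) then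
            Yc c φ τ u k (E.indicator 1) x j else 0) := by
        refine Finset.sum_nonneg fun j _ => ?_
        split_ifs
        · rw [hsum j]; exact add_nonneg (hF0 j) (hD0 j)
        · exact le_rfl
      rw [← hEdef] at h10
      linarith
    · exact Finset.sum_nonneg (fun j _ => htt0 j)
  have h20 : ∑ u ∈ Finset.Ico U₀ V, ∑ j ∈ Finset.range (2 ^ u),
      Yc c φ τ u k ((Gf f (l + (u : ℤ))).indicator 1) x j ≤
      ∑ u ∈ Finset.Ico U₀ V, (2 * q ^ u +
        8 * Pool.Agent.Helper68.ES.cr P (dat τ) (ce c φ) e u k (Gf f (l + (u : ℤ))) x +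
        2 * ∑ j ∈ Finset.range (2 ^ u),
          tt P (dat τ) (ce c φ) (P.g / 8) u j k (Gf f (l + (u : ℤ))) x) :=
    Finset.sum_le_sum (fun u hu => (hone u (Finset.mem_Ico.1 hu).1).1)
  rw [Finset.sum_add_distrib, Finset.sum_add_distrib, ← Finset.mul_sum, ← Finset.mul_sum,
    ← Finset.mul_sum] at h20
  have h21 : ∑ u ∈ Finset.Ico U₀ V, q ^ u ≤ q ^ U₀ / (1 - q) :=
    geom_sum_Ico_le_of_lt_one hq0.le hq1
  have h22 : q ^ U₀ ≤ q ^ u₁ := pow_le_pow_of_le_one hq0.le hq1.le hU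
  have h23 : q ^ U₀ / (1 - q) ≤ 1 / 40 := by
    rw [div_le_iff₀ (by linarith)]; linarith
  have h24 : ∑ u ∈ Finset.Ico U₀ V, ∑ j ∈ Finset.range (2 ^ u),
      tt P (dat τ) (ce c φ) (P.g / 8) u j k (Gf f (l + (u : ℤ))) x ≤
      ∑ u ∈ Finset.Icc U₀ V, ∑ j ∈ Finset.range (2 ^ u),
      tt P (dat τ) (ce c φ) (P.g / 8) u j k (Gf f (l + (u : ℤ))) x := by
    apply Finset.sum_le_sum_of_subset_of_nonneg
    · exact Finset.Ico_subset_Icc_self
    · intro u hu _
      exact (hone u (Finset.mem_Icc.1 hu).1).2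
  by_contra hcon
  rw [not_or, not_le, not_le] at hcon
  obtain ⟨h30, h31⟩ := hcon
  linarith

end Pool.Agent.Helper68.ES.LCXm
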