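import Pool.Agent.Helper1.ES.M_TNU
import Pool.Agent.Helper15.ES.M_DRT
import Pool.Agent.Helper15.ES.M_PXH
import Pool.Agent.Helper15.ES.M_SPA
import Pool.Agent.Helper16.ES.M_DRM
import Pool.Agent.Helper16.ES.M_SUP
import Pool.Agent.Helper19.ES.M_ATL
import Pool.Agent.Helper2.ES.M_LVB
import Pool.Agent.Helper2.ES.M_MAI
import Pool.Agent.Helper2.ES.M_PLM
import Pool.Agent.Helper2.ES.M_TON
import Pool.Agent.Helper21.ES.M_DRI
import Pool.Agent.Helper21.ES.M_TRW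
import Pool.Agent.Helper29.ES.M_MKV
import Pool.Agent.Helper34.ES.M_CHX
import Pool.Agent.Helper37.ES.M_CMB
import Pool.Agent.Helper37.ES.M_DRB
import Pool.Agent.Helper37.ES.M_DRC
import Pool.Agent.Helper39.ES.M_PX2
import Pool.Agent.Helper40.ES.M_TWC
import Pool.Agent.Helper47.ES.M_TWE
import Pool.Agent.Helper48.ES.M_JCN
import Pool.Agent.Helper51.ES.M_GDC
import Pool.Agent.Helper51.ES.M_TWD
import Pool.Agent.Helper57.ES.M_TWB
import Pool.Agent.Helper6.ES.M_LVL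
import Pool.Agent.Helper6.ES.M_TWA
import Pool.Agent.Helper60.ES.M_AGE
import Pool.Agent.Helper60.ES.M_OUT
import Pool.Agent.Helper62.ES.M_PIG
import Pool.Agent.Helper67.ES.M_TAA
import Pool.Agent.Helper68.ES.M_FAS
import Pool.Agent.Helper68.ES.M_FMS
import Pool.Agent.Helper68.ES.M_LCX
import Pool.Agent.Helper68.ES.M_LOS
import Pool.Agent.Helper68.ES.M_PX1
import Pool.Agent.Helper7.ES.M_DRS
import Pool.Agent.Helper72.ES.M_PAI
import Pool.Agent.Helper78.ES.M_TWN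
import Pool.Agent.Helper79.ES.M_EGS
import Pool.Agent.Helper79.ES.M_FAT
import Pool.Agent.Helper8.ES.M_TYP
import Pool.Agent.Helper80.ES.M_JCL
import Pool.Agent.Helper81.ES.M_OII
import Pool.Agent.Helper82.ES.M_FUS
import Pool.Agent.Helper82.ES.M_KPF
import Pool.Agent.Helper82.ES.M_LVA
import Pool.Agent.Helper84.ES.M_INR
import Pool.Agent.Helper85.ES.Asm
import Pool.Agent.Helper90.ES.M_LOW
import Pool.Agent.Helper90.ES.M_SUR
import Pool.Agent.Helper94.ES.M_TRU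
import Pool.Agent.Helper96.ES.M_PX3
import Pool.Agent.Helper98.ES.M_LAY
import Pool.Agent.Helper99.ES.M_DYS
import Pool.Agent.Helper68.EP.Asm

/-!
# Project ES (MP_cb927e_an): assembly
-/

set_option autoImplicit false

namespace Pool.Agent.Helper68.ES

theorem pOI : Pool.Agent.Helper68.ES.StOI := Pool.Agent.Helper85.ES.pOI

theorem pDRI : Pool.Agent.Helper68.ES.StDRI :=
  Pool.Agent.Helper21.ES.hDRI Pool.Agent.Helper20.RG.pPT Pool.Agent.Helper20.RL.pLGR Pool.Agent.Helper20.RL.pLFM Pool.Agent.Helper20.RL.pLER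

theorem pDRB : Pool.Agent.Helper68.ES.StDRB :=
  Pool.Agent.Helper37.ES.hDRB Pool.Agent.Helper68.EP.pEQ Pool.Agent.Helper68.EP.pXW

theorem pDRM : Pool.Agent.Helper68.ES.StDRM :=
  Pool.Agent.Helper16.ES.hDRM Pool.Agent.Helper20.RG.pPT

theorem pDRS : Pool.Agent.Helper68.ES.StDRS :=
  Pool.Agent.Helper7.ES.hDRS Pool.Agent.Helper20.RG.pPT Pool.Agent.Helper20.RG.pRDS pDRI pDRB pDRM

theorem pDRT : Pool.Agent.Helper68.ES.StDRT :=
  Pool.Agent.Helper15.ES.hDRT pDRS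

theorem pDRC : Pool.Agent.Helper68.ES.StDRC :=
  Pool.Agent.Helper37.ES.hDRC pDRI pDRB pDRT

theorem pCHX : Pool.Agent.Helper68.ES.StCHX :=
  Pool.Agent.Helper34.ES.hCHX Pool.Agent.Helper20.RG.pPT Pool.Agent.Helper20.RL.pLGR Pool.Agent.Helper20.RL.pLFM Pool.Agent.Helper20.RL.pLGE Pool.Agent.Helper68.EP.pEFB

theorem pKPF : Pool.Agent.Helper68.ES.StKPF :=
  Pool.Agent.Helper82.ES.hKPF Pool.Agent.Helper68.EP.pEFB

theorem pSUP : Pool.Agent.Helper68.ES.StSUP :=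
  Pool.Agent.Helper16.ES.hSUP Pool.Agent.Helper68.EP.pEFB

theorem pSUR : Pool.Agent.Helper68.ES.StSUR :=
  Pool.Agent.Helper90.ES.hSUR Pool.Agent.Helper20.RG.pPT Pool.Agent.Helper20.RL.pLGR Pool.Agent.Helper68.EP.pEQ Pool.Agent.Helper68.EP.pEFB

theorem pAGE : Pool.Agent.Helper68.ES.StAGE :=
  Pool.Agent.Helper60.ES.hAGE Pool.Agent.Helper68.EP.pEFB pKPF pSUR

theorem pPLM : Pool.Agent.Helper68.ES.StPLM :=
  Pool.Agent.Helper2.ES.hPLM Pool.Agent.Helper20.RL.pLGR Pool.Agent.Helper20.RL.pLFM Pool.Agent.Helper68.EP.pEFB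

theorem pTAA : Pool.Agent.Helper68.ES.StTAA :=
  Pool.Agent.Helper67.ES.hTAA Pool.Agent.Helper68.EP.pEFB pKPF pSUP pAGE pPLM pDRC

theorem pTNU : Pool.Agent.Helper68.ES.StTNU :=
  Pool.Agent.Helper1.ES.hTNU 

theorem pTON : Pool.Agent.Helper68.ES.StTON :=
  Pool.Agent.Helper2.ES.hTON pSUP pTAA pTNU

theorem pTRU : Pool.Agent.Helper68.ES.StTRU :=
  Pool.Agent.Helper94.ES.hTRU pSUP pTON

theorem pLAY : Pool.Agent.Helper68.ES.StLAY :=
  Pool.Agent.Helper98.ES.hLAY Pool.Agent.Helper20.RL.pLGR Pool.Agent.Helper68.EP.pEQ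

theorem pSPA : Pool.Agent.Helper68.ES.StSPA :=
  Pool.Agent.Helper15.ES.hSPA Pool.Agent.Helper20.RL.pLGR Pool.Agent.Helper68.EP.pEQ Pool.Agent.Helper68.EP.pEFB pKPF pSUP pAGE pPLM pDRC pLAY

theorem pINR : Pool.Agent.Helper68.ES.StINR :=
  Pool.Agent.Helper84.ES.hINR pDRI pDRT pLAY

theorem pFAT : Pool.Agent.Helper68.ES.StFAT :=
  Pool.Agent.Helper79.ES.hFAT Pool.Agent.Helper20.RG.pPT Pool.Agent.Helper20.RL.pLGR Pool.Agent.Helper68.EP.pEQ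

theorem pOUT : Pool.Agent.Helper68.ES.StOUT :=
  Pool.Agent.Helper60.ES.hOUT Pool.Agent.Helper68.EP.pEQ Pool.Agent.Helper20.RL.pLGR

theorem pLOW : Pool.Agent.Helper68.ES.StLOW :=
  Pool.Agent.Helper90.ES.hLOW Pool.Agent.Helper20.RL.pLGR Pool.Agent.Helper68.EP.pEQ pDRB pFAT

theorem pTWA : Pool.Agent.Helper68.ES.StTWA :=
  Pool.Agent.Helper6.ES.hTWA pSPA

theorem pTWB : Pool.Agent.Helper68.ES.StTWB :=
  Pool.Agent.Helper57.ES.hTWB Pool.Agent.Helper68.EP.pEQ Pool.Agent.Helper68.EP.pEFB pKPF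

theorem pTWC : Pool.Agent.Helper68.ES.StTWC :=
  Pool.Agent.Helper40.ES.hTWC Pool.Agent.Helper68.EP.pEFB pSUP pINR pLAY

theorem pTWE : Pool.Agent.Helper68.ES.StTWE :=
  Pool.Agent.Helper47.ES.hTWE Pool.Agent.Helper20.RL.pLGR Pool.Agent.Helper68.EP.pEQ pLAY pDRB

theorem pTWD : Pool.Agent.Helper68.ES.StTWD :=
  Pool.Agent.Helper51.ES.hTWD Pool.Agent.Helper68.EP.pEQ Pool.Agent.Helper68.EP.pEFB pKPF pSUP pAGE pPLM pDRB pDRT pLAY pOUT pLOW pTWA pTWB pTWC pTWE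

theorem pTWN : Pool.Agent.Helper68.ES.StTWN :=
  Pool.Agent.Helper78.ES.hTWN 

theorem pPAI : Pool.Agent.Helper68.ES.StPAI :=
  Pool.Agent.Helper72.ES.hPAI pSUP pTWD pTWN

theorem pJCL : Pool.Agent.Helper68.ES.StJCL :=
  Pool.Agent.Helper80.ES.hJCL 

theorem pJCN : Pool.Agent.Helper68.ES.StJCN :=
  Pool.Agent.Helper48.ES.hJCN 

theorem pDYS : Pool.Agent.Helper68.ES.StDYS :=
  Pool.Agent.Helper99.ES.hDYS 

theorem pFUS : Pool.Agent.Helper68.ES.StFUS :=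
  Pool.Agent.Helper82.ES.hFUS Pool.Agent.Helper20.RG.pMM Pool.Agent.Helper68.EP.pGPG pDYS

theorem pLVA : Pool.Agent.Helper68.ES.StLVA :=
  Pool.Agent.Helper82.ES.hLVA 

theorem pLVB : Pool.Agent.Helper68.ES.StLVB :=
  Pool.Agent.Helper2.ES.hLVB 

theorem pLVL : Pool.Agent.Helper68.ES.StLVL :=
  Pool.Agent.Helper6.ES.hLVL pLVA pLVB

theorem pMAI : Pool.Agent.Helper68.ES.StMAI :=
  Pool.Agent.Helper2.ES.hMAI pCHX pTRU pSUP pPAI pLVL

theorem pMKV : Pool.Agent.Helper68.ES.StMKV :=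
  Pool.Agent.Helper29.ES.hMKV 

theorem pEGS : Pool.Agent.Helper68.ES.StEGS :=
  Pool.Agent.Helper79.ES.hEGS Pool.Agent.Helper68.EP.pEFB

theorem pPXH : Pool.Agent.Helper68.ES.StPXH :=
  Pool.Agent.Helper15.ES.hPXH Pool.Agent.Helper20.RL.pLGR Pool.Agent.Helper20.RL.pLFM Pool.Agent.Helper20.RL.pLGE

theorem pPX1 : Pool.Agent.Helper68.ES.StPX1 :=
  Pool.Agent.Helper68.ES.PX1m.hPX1 Pool.Agent.Helper20.RG.pPT Pool.Agent.Helper20.RL.pLGR Pool.Agent.Helper68.EP.pEFB Pool.Agent.Helper68.EP.pECR Pool.Agent.Helper68.EP.pXW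

theorem pPX2 : Pool.Agent.Helper68.ES.StPX2 :=
  Pool.Agent.Helper39.ES.hPX2 pMKV pEGS pPXH pPX1

theorem pPX3 : Pool.Agent.Helper68.ES.StPX3 :=
  Pool.Agent.Helper96.ES.hPX3 pPX2 Pool.Agent.Helper68.EP.pLSQ

theorem pTRW : Pool.Agent.Helper68.ES.StTRW :=
  Pool.Agent.Helper21.ES.hTRW pMKV pEGS pPXH Pool.Agent.Helper68.EP.pLSQ

theorem pCMB : Pool.Agent.Helper68.ES.StCMB :=
  Pool.Agent.Helper37.ES.hCMB 

theorem pATL : Pool.Agent.Helper68.ES.StATL :=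
  Pool.Agent.Helper19.ES.hATL pDYS

theorem pGDC : Pool.Agent.Helper68.ES.StGDC :=
  Pool.Agent.Helper51.ES.hGDC Pool.Agent.Helper68.EP.pEFB Pool.Agent.Helper68.EP.pXW pJCL pCMB pATL

theorem pPIG : Pool.Agent.Helper68.ES.StPIG :=
  Pool.Agent.Helper62.ES.hPIG 

theorem pTYP : Pool.Agent.Helper68.ES.StTYP :=
  Pool.Agent.Helper8.ES.hTYP pMKV pJCL pJCN pFUS pMAI pGDC Pool.Agent.Helper68.EP.pLSQ

theorem pOII : Pool.Agent.Helper68.ES.StOII :=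
  Pool.Agent.Helper81.ES.hOII pTRW pPX3 pTYP pPIG

theorem pLCX : Pool.Agent.Helper68.ES.StLCX :=
  Pool.Agent.Helper68.ES.LCXm.hLCX Pool.Agent.Helper20.RG.pYB Pool.Agent.Helper68.EP.pEFB

theorem pLOS : Pool.Agent.Helper68.ES.StLOS :=
  Pool.Agent.Helper68.ES.LOSm.hLOS Pool.Agent.Helper68.EP.pGPG Pool.Agent.Helper68.EP.pSY Pool.Agent.Helper20.RG.pSYS pOI pOII pLCX Pool.Agent.Helper68.EP.pLGO Pool.Agent.Helper68.EP.pLX2 Pool.Agent.Helper68.EP.pLX3 Pool.Agent.Helper68.EP.pLDM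

theorem pFAS : Pool.Agent.Helper68.ES.StFAS :=
  Pool.Agent.Helper68.ES.FASm.hFAS Pool.Agent.Helper20.RG.pYB Pool.Agent.Helper68.EP.pXHI pLOS

theorem pFMS : Pool.Agent.Helper68.ES.StFMS :=
  Pool.Agent.Helper68.ES.FMSm.hFMS Pool.Agent.Helper20.RG.pPT pFAS

theorem pFZS : Pool.Agent.Helper68.ES.StFZS :=
  Pool.Agent.Helper68.ES.FMSm.hFZS Pool.Agent.Helper20.RG.pPT Pool.Agent.Helper20.RG.pCOV Pool.Agent.Helper68.EP.pCPP pFMS Pool.Agent.Helper20.RG.pRES Pool.Agent.Helper20.RG.pFIN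

end Pool.Agent.Helper68.ES
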