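import Pool.Agent.Helper68.EP.St6
import Pool.Agent.Helper61.EP.StL

/-!
# Project ES (MP_cb927e_an): the endpoint `(G_p)` for `p = (√13-1)/2` (`p² + p = 3`)

Definitions for the interface between part I (non critical ages and values) and part II (critical ages and values).
Notation of the projects RG, RL and EP.
-/

set_option autoImplicit false

open MeasureTheory Set Filter Topology
open scoped ENNReal RealInnerProductSpace

namespace Pool.Agent.Helper68.ES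

open Pool.Agent.Helper68.LM (Pl BB Bd Av HL ft fm DQ)
open Pool.Agent.Helper20.RG
open Pool.Agent.Helper20.RL (RQ Rich BM Fml Hit)
open Pool.Agent.Helper68.EP
open Pool.Agent.Helper61.EP (trS Ex2 Yc Zc Ec am cutf)

/-- lower bound of the ages of level `q` -/
def ag (q : ℕ) : ℤ := if q = 0 then 0 else 2 ^ q

/-- the points of `E` whose age at the scale `k` (for the density `D`) is in `[2^q, 2^(q+1))`, in `[0,2)` for `q = 0` -/
def Eg (E : Set Pl) (D : ℝ) (q : ℕ) (k : ℤ) : Set Pl := Fb E D (k - ag q) \ Fb E D (k - 2 ^ (q + 1))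

/-- the threshold of level `i` -/
noncomputable def th (i : ℕ) : ℝ := (2 : ℝ) ^ (-(i : ℤ)) / 36

/-- the union of the cells of the chord `(u,j)` at scale `k` in which `F` has density at least `θ` -/
def Rc (Δ : Dat) (u j : ℕ) (k : ℤ) (θ : ℝ) (F : Set Pl) : Set Pl :=
  {y | Rich F (Δ.sl u j) (k - (u : ℤ)) (k - (Δ.fl u j : ℤ)) θ y}

/-- the chords of class `u` whose ridge at scale `k` passes near `x` -/
def Hs (Δ : Dat) (ct : ℕ → ℕ → Pl) (u : ℕ) (k : ℤ) (θ : ℝ) (F : Set Pl) (x : Pl) : Set ℕ :=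
  {j | j < 2 ^ u ∧ Hit (Δ.sl u j) (ct u j) (Δ.fl u j) u k (Rc Δ u j k θ F) x}

/-- the number of hits of class `u`, age level `q`, value level `i` at the point `x`, scale `k` -/
noncomputable def hn (P : Par) (Δ : Dat) (ct : ℕ → ℕ → Pl) (u q i : ℕ) (k : ℤ) (E : Set Pl) (x : Pl) : ℝ :=
  ((Hs Δ ct u k (th i) (Eg E (DD P u) q k) x).ncard : ℝ)

/-- the critical levels -/
def Crit (p e : ℝ) (u q i : ℕ) : Prop := |(q : ℝ) - (p - 1) * u| ≤ e * u ∧ |(i : ℝ) - u / p| ≤ e * u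

open Classical in
/-- the contribution of the critical levels of class `u` -/
noncomputable def cr (P : Par) (Δ : Dat) (ct : ℕ → ℕ → Pl) (e : ℝ) (u : ℕ) (k : ℤ) (E : Set Pl) (x : Pl) : ℝ :=
  ∑ q ∈ Finset.range (2 * u), ∑ i ∈ Finset.range (2 * u),
    if Crit P.p e u q i then (2 : ℝ) ^ (-(i : ℤ)) * hn P Δ ct u q i k E x else 0

/-- the low part of class `u`: the chords with small values, and the young points -/
noncomputable def Lw (P : Par) (c : Pl) (φ τ : ℝ → ℝ) (u : ℕ) (k : ℤ) (E : Set Pl) (x : Pl) : ℝ :=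
  trS (2 ^ u) ((2 : ℝ) ^ (-(P.g / 8 * u))) (fun j => Yc c φ τ u k (E.indicator 1) x j) +
    ∑ j ∈ Finset.range (2 ^ u), Yc c φ τ u k ((E \ Fo P u k (q0 P u) E).indicator 1) x j

/-- OI, the output of part I (helper20).  Given `e > 0` there is `s₀ < p` such that for all `P` with `s₀ < P.s`: outside of an exceptional set
`Lw ≤ 2^(-ε₃ u) + 4 cr` for all `u ≥ u₀` and all `k`. -/
def StOI : Prop :=
  ∀ p e : ℝ, 1 < p → p < 2 → p ^ 2 + p = 3 → 0 < e → ∃ s₀ : ℝ, s₀ < p ∧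
    ∀ (φ τ : ℝ → ℝ) (A₁ : ℝ) (c : Pl) (P : Par), Graph φ τ → P.p = p → Gap A₁ p τ → 0 < A₁ → s₀ < P.s →
    ∃ (u₀ : ℕ) (ε₃ Cf C : ℝ), 0 < ε₃ ∧ 1 ≤ Cf ∧ 1 ≤ C ∧
    ∀ f : Pl → ℝ, BB f → (∀ x, 0 ≤ f x) →
      ∑' l : ℤ, ENNReal.ofReal ((2 : ℝ) ^ (p * l)) * volume {x | ∃ u : ℕ, u₀ ≤ u ∧
        Loc Cf ((2 : ℝ) ^ (-(P.s * u)) / 4) ((Gf f (l + (u : ℤ))).indicator 1) x ∧ ∃ k : ℤ,
          (2 : ℝ) ^ (-(ε₃ * u)) + 4 * cr P (dat τ) (ce c φ) e u k (Gf f (l + (u : ℤ))) x <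
            Lw P c φ τ u k (Gf f (l + (u : ℤ))) x} ≤
      ENNReal.ofReal C * ∫⁻ x, ENNReal.ofReal (f x) ^ p

end Pool.Agent.Helper68.ES
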