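import Pool.Agent.Helper68.ES.Defs

/-!
# Project ES (MP_cb927e_an): definitions for part II (critical ages and values)
-/

set_option autoImplicit false

open MeasureTheory Set Filter Topology
open scoped ENNReal RealInnerProductSpace

namespace Pool.Agent.Helper68.ES

open Pool.Agent.Helper68.LM (Pl BB Bd Av HL ft fm DQ)
open Pool.Agent.Helper20.RG
open Pool.Agent.Helper20.RL (RQ Rich BM Fml Hit)
open Pool.Agent.Helper68.EP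

/-! ## Densities and ridges -/

/-- the density of `F` in the nine squares around any of its points is at most `D`, at all scales `≥ b` -/
def Dn (F : Set Pl) (D : ℝ) (b : ℤ) : Prop :=
  ∀ z ∈ F, ∀ b' : ℤ, b ≤ b' → volume (F ∩ DQ3 b' z) ≤ ENNReal.ofReal (D * (4 : ℝ) ^ b')

/-- the union of the rich cells of length `2^a` and width at most `2^b` -/
def Wd (F : Set Pl) (s : ℝ) (a b : ℤ) (θ : ℝ) : Set Pl :=
  {z | ∃ w : ℤ, w ≤ b ∧ Rich F s a w θ z}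

/-- the ridges of half length `ρ` around these cells -/
def Ri (F : Set Pl) (s : ℝ) (a b : ℤ) (θ ρ : ℝ) : Set Pl :=
  {y | ∃ (z : Pl) (w : ℤ), w ≤ b ∧ Rich F s a w θ z ∧ |y 0 - z 0| < ρ ∧
    |pr s y - pr s z| < 3 * (2 : ℝ) ^ w}

/-- the 25 dyadic squares of side `2^b` around `z` -/
def DQ5 (b : ℤ) (z : Pl) : Set Pl :=
  {y | |⌊y 0 / (2 : ℝ) ^ b⌋ - ⌊z 0 / (2 : ℝ) ^ b⌋| ≤ 2 ∧ |⌊y 1 / (2 : ℝ) ^ b⌋ - ⌊z 1 / (2 : ℝ) ^ b⌋| ≤ 2}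

/-! ## Classes and charges -/

/-- The directions `J` of a class `u` with age level `q`.  `near`: few directions near each other, `al` is small if the curve is
not flat there; `sep`: the bound which follows from `(G_p)`. -/
structure Cls (p A al : ℝ) (u q : ℕ) (J : Finset ℕ) (sl : ℕ → ℝ) : Prop where
  card : (J.card : ℝ) ≤ (2 : ℝ) ^ u
  slope : ∀ j ∈ J, |sl j| ≤ 1
  near : ∀ j ∈ J, ∀ κ : ℕ, 5 ≤ κ → κ < q →
    ({j' : ℕ | j' ∈ J ∧ |sl j' - sl j| ≤ (2 : ℝ) ^ (-((2 ^ (q - κ) : ℕ) : ℤ))}.ncard : ℝ) ≤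
      1 + (2 : ℝ) ^ u * (al * (2 : ℝ) ^ (2 * (κ : ℤ) - q)) ^ (1 / p)
  sep : ∀ j ∈ J, ∀ n : ℕ, 1 ≤ n →
    ({j' : ℕ | j' ∈ J ∧ |sl j' - sl j| ≤ (2 : ℝ) ^ (-(n : ℤ))}.ncard : ℝ) ≤
      1 + (2 : ℝ) ^ u * (A / n) ^ (1 / p)

/-- Charges `ω k j` of a class: `ω k j` lives on the points of age level `q` in the rich cells of direction `j`, and is constant on each
of these cells.  `hl`: the charges of the scales `k ≤ b` in a square of side `2^b` are at most `CH 4^b`. -/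
structure Chg (CH : ℝ) (E : Set Pl) (u q : ℕ) (J : Finset ℕ) (sl : ℕ → ℝ) (fl : ℕ → ℕ) (D θ m : ℝ)
    (ω : ℤ → ℕ → Pl → ℝ≥0∞) : Prop where
  meas : ∀ (k : ℤ) (j : ℕ), Measurable (ω k j)
  supp : ∀ (k : ℤ) (j : ℕ) (z : Pl), ω k j z ≠ 0 → j ∈ J ∧ z ∈ Eg E D q k ∧
    Rich (Eg E D q k) (sl j) (k - (u : ℤ)) (k - (fl j : ℤ)) θ z
  cell : ∀ (k : ℤ) (j : ℕ) (z z' : Pl), z ∈ Eg E D q k → z' ∈ Eg E D q k →
    z' ∈ RQ (sl j) (k - (u : ℤ)) (k - (fl j : ℤ)) z → ω k j z' = ω k j z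
  le : ∀ (k : ℤ) (j : ℕ) (z : Pl), ω k j z ≤ ENNReal.ofReal (35 / (m * θ))
  hl : ∀ (b : ℤ) (y : Pl), ∑' k : ℤ, (if k ≤ b then ∑ j ∈ J, ∫⁻ z in DQ b y, ω k j z else 0) ≤
    ENNReal.ofReal (CH * (4 : ℝ) ^ b)

/-- the total charge density, normalised by `2^(-pu)` -/
noncomputable def cg (p : ℝ) (u : ℕ) (J : Finset ℕ) (ω : ℤ → ℕ → Pl → ℝ≥0∞) (z : Pl) : ℝ≥0∞ :=
  ENNReal.ofReal ((2 : ℝ) ^ (-(p * u))) * ∑' k : ℤ, ∑ j ∈ J, ω k j z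

/-- the charge carried by the sets `R k j` -/
noncomputable def ch (p : ℝ) (u : ℕ) (J : Finset ℕ) (ω : ℤ → ℕ → Pl → ℝ≥0∞) (R : ℤ → ℕ → Set Pl) : ℝ≥0∞ :=
  ENNReal.ofReal ((2 : ℝ) ^ (-(p * u))) * ∑' k : ℤ, ∑ j ∈ J, ∫⁻ z in R k j, ω k j z

/-- the exit scale of `z` for `H` at the density `D'` and for `E` at the density `D` -/
noncomputable def kp (H E : Set Pl) (D' D : ℝ) (z : Pl) : ℤ :=
  sInf {b : ℤ | z ∈ Fb H D' b ∧ z ∈ Fb E D b}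

/-- `κ` is an exit scale on `H` -/
def Kap (H : Set Pl) (D' : ℝ) (κ : Pl → ℤ) : Prop :=
  (∀ b : ℤ, MeasurableSet {z | z ∈ H ∧ κ z ≤ b}) ∧
    ∀ z ∈ H, ∀ b : ℤ, κ z ≤ b → volume (H ∩ DQ3 b z) ≤ ENNReal.ofReal (D' * (4 : ℝ) ^ b)

/-- the points of the layer `l` -/
def Ly (H : Set Pl) (κ : Pl → ℤ) (g : ℕ) (l : ℤ) : Set Pl := {z | z ∈ H ∧ κ z / (g : ℤ) = l}

/-- the scale of the squares of the layer of `z` -/
def Rz (κ : Pl → ℤ) (g : ℕ) (z : Pl) : ℤ := (κ z / (g : ℤ) + 3) * g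

/-- A layered set: `H'` is the set of the points of `H` whose layer is dense (more than `d₀`) in the square of side `2^(Rz z)` around `z` -/
def Ns (H : Set Pl) (κ : Pl → ℤ) (g : ℕ) (d₀ : ℝ) : Set Pl :=
  {z | z ∈ H ∧ ENNReal.ofReal (d₀ * (4 : ℝ) ^ (Rz κ g z)) <
    volume (Ly H κ g (κ z / (g : ℤ)) ∩ DQ (Rz κ g z) z)}

/-- the points of `H` of layer at most `l` near the squares of the layer `l` of `H'` -/
def Gl (H H' : Set Pl) (κ : Pl → ℤ) (g : ℕ) (l : ℤ) : Set Pl :=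
  {z' | z' ∈ H ∧ κ z' / (g : ℤ) ≤ l ∧ ∃ z ∈ H', κ z / (g : ℤ) = l ∧ z' ∈ DQ5 ((l + 3) * g) z}

/-- the points of `H'` which lie in an inner rich cell of direction `s` -/
def In (H H' : Set Pl) (κ : Pl → ℤ) (g : ℕ) (κ₀ s : ℝ) : Set Pl :=
  {z | z ∈ H' ∧ ∃ w : ℤ, w ≤ (κ z / (g : ℤ) + 1) * g ∧
    Rich (Gl H H' κ g (κ z / (g : ℤ))) s (Rz κ g z) w κ₀ z}

/-- the fattened set -/
def Ft (F : Set Pl) (R : Pl → ℤ) : Set Pl := {x | ∃ z ∈ F, x ∈ DQ5 (R z) z}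

/-! ## Types -/

/-- the size of a type -/
def sz (R Y β : ℤ) : ℝ := |(R : ℝ)| + |(Y : ℝ)| + |(β : ℝ)|

/-- class `u` has age level `q` and value level `i` for the type `(R, Y, β)`, and `β`, `R`, `Y` are at most `e u` -/
structure Cfg (p e : ℝ) (R Y β : ℤ) (u q i : ℕ) : Prop where
  hq : (q : ℤ) = ⌊(p - 1) * u⌋ + R
  hi : (i : ℤ) = ⌊(u : ℝ) / p⌋ + Y
  adm : sz R Y β ≤ e * u

/-- the number of hits -/
noncomputable def mb (i : ℕ) (β : ℤ) : ℝ := (2 : ℝ) ^ ((i : ℤ) + β)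

/-- the number of classes which is needed for a type -/
noncomputable def nn (c δ : ℝ) (R Y β : ℤ) : ℝ := max 1 (c * (2 : ℝ) ^ (-(β : ℝ) - δ * sz R Y β))

/-- the directions of class `u` which are used -/
def Jc (p : ℝ) (Δ : Dat) (al : ℝ) (β : ℤ) (u q i : ℕ) : Set ℕ :=
  {j | j < 2 ^ u ∧ 2 ^ q ≤ Δ.fl u j ∧ mb i β / 2 ≤ (2 : ℝ) ^ u * Δ.ell (Δ.sl u j) (2 ^ (q - 2)) ∧
    ∀ κ : ℕ, 5 ≤ κ → κ < q → (2 : ℝ) ^ ((q : ℤ) - 2 * κ) * Δ.ell (Δ.sl u j) (2 ^ (q - κ)) ^ p ≤ al}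

end Pool.Agent.Helper68.ES
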