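import Pool.Agent.Helper68.ES.Defs2

/-!
# Project ES (MP_cb927e_an): interface statements, part 1 (the lossless dual ridge theorem)

Every statement is a `Prop` proved in a module of its own.  Complete proofs are in the docstrings.
-/

set_option autoImplicit false

open MeasureTheory Set Filter Topology
open scoped ENNReal RealInnerProductSpace

namespace Pool.Agent.Helper68.ES

open Pool.Agent.Helper68.LM (Pl BB Bd Av HL ft fm DQ)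
open Pool.Agent.Helper20.RG
open Pool.Agent.Helper20.RL (RQ Rich BM Fml Hit)
open Pool.Agent.Helper68.EP

/-- DRI (about 200 lines), ridges.  (1) `Ri` is a union of open sets (`y ↦ y 0`, `y ↦ pr s y` are continuous).  (2) `(y + lam E) 0 = y 0 + lam`, `pr s (y + lam E) = pr s y`.  (3) `z ∈ Wd`: take `y = z`.  (4) For `z ∈ Wd` the set of the `w ≤ b` with `Rich F s a w θ z` is nonempty and bounded above; let `B z` be its largest element.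
`Fml F s θ (Wd F s a b θ) (fun _ => a) B`: let `z' ∈ RQ s a (B z) z`; for `w ≥ B z` the cells `RQ s a w z'` and `RQ s a w z` coincide (LGR), so `z' ∈ Wd`, `B z' = B z`.  If `y ∈ Ri` with witnesses `z`, `w`, then `w ≤ B z`, so `|pr s y - pr s z| < 3·2^(B z)`, `|y 0 - z 0| < ρ ≤ 2·2^a`: LER with `V = Z = Wd`, `p = 2`, `q = 3`,
`θ' = θ`: `(2·2+1)(2·3+1) = 35`.  Last: LFM.  Hypotheses: hPT, hLGR, hLFM, hLER. -/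
def StDRI : Prop :=
  ∀ (F : Set Pl) (s : ℝ) (a b : ℤ) (θ : ℝ), BM F → 0 < θ →
    (∀ ρ : ℝ, IsOpen (Ri F s a b θ ρ)) ∧
    (∀ (ρ ρ' lam : ℝ) (y : Pl), y ∈ Ri F s a b θ ρ → |lam| ≤ ρ' → y + lam • E s ∈ Ri F s a b θ (ρ + ρ')) ∧
    (∀ (ρ : ℝ) (z : Pl), 0 < ρ → z ∈ Wd F s a b θ → z ∈ Ri F s a b θ ρ) ∧
    (∀ ρ : ℝ, ρ ≤ 2 * (2 : ℝ) ^ a →
      volume (Ri F s a b θ ρ) ≤ ENNReal.ofReal (35 / θ) * volume (F ∩ Wd F s a b θ)) ∧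
    MeasurableSet (Wd F s a b θ)

/-- DRB (about 120 lines), densities.  (1) Every dyadic square `DQ b' y` which meets `F` in a point `z` is contained in `DQ3 b' z` (EQ).  (2) Let `2^b' ≤ r < 2^(b'+1)`, `b ≤ b'`: `Sq x r` is contained in the union of at most `25` dyadic squares of side `2^b'` (an interval of length `2 r < 4·2^b'` meets at most five dyadic intervals of length `2^b'`), so
`vol(F ∩ Sq x r) ≤ 25 D 4^b' ≤ 25 D r²`.  (3) Rich cells are narrow: if `b ≤ w` and `b ≤ a` then XW gives `θ ≤ 4 D`.  Hypotheses: hEQ, hXW. -/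
def StDRB : Prop :=
  ∀ (F : Set Pl) (D : ℝ) (b : ℤ), 0 ≤ D → Dn F D b →
    (∀ (y : Pl) (b' : ℤ), b ≤ b' → volume (F ∩ DQ b' y) ≤ ENNReal.ofReal (D * (4 : ℝ) ^ b')) ∧
    (∀ (x : Pl) (r : ℝ), (2 : ℝ) ^ b ≤ r → volume (F ∩ Sq x r) ≤ ENNReal.ofReal (25 * D * r ^ 2)) ∧
    (∀ (s : ℝ) (a w : ℤ) (θ : ℝ) (y : Pl), |s| ≤ 1 → b ≤ a → 4 * D < θ → Rich F s a w θ y → w < b) ∧
    ∀ F' : Set Pl, F' ⊆ F → Dn F' D b

/-- DRM (about 150 lines), Markov with weights.  `M x = ∑_{j<N} vol(S j ∩ Sq x r)` is measurable and finite or not.  For every `x`: `∑_{a<n} 2^a m₀ 1[c 2^a m₀ r² < M x] ≤ 2 M x/(c r²)` (geometric sum; if `a*` is the largest such `a < n` then the sum is `< 2·2^(a*) m₀`).  Integrate over `K`: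
`∫_K M = ∑_j ∫_{x ∈ K} ∫_{y ∈ S j} 1[y ∈ Sq x r] = ∑_j ∫_{y ∈ S j} vol(K ∩ Sq y r) dy ≤ ∑_j vol(S j)·D₁ r²` (Tonelli; `y ∈ Sq x r ↔ x ∈ Sq y r`).  Hypotheses: hPT. -/
def StDRM : Prop :=
  ∀ (N n : ℕ) (K : Set Pl) (S : ℕ → Set Pl) (r D₁ c m₀ : ℝ), MeasurableSet K → (∀ j < N, MeasurableSet (S j)) →
    0 < r → 0 ≤ D₁ → 0 < c → 0 < m₀ → (∀ y : Pl, volume (K ∩ Sq y r) ≤ ENNReal.ofReal (D₁ * r ^ 2)) →
    ∑ a ∈ Finset.range n, ENNReal.ofReal (2 ^ a * m₀) *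
      volume {x | x ∈ K ∧ ENNReal.ofReal (c * (2 ^ a * m₀) * r ^ 2) <
        ∑ j ∈ Finset.range N, volume (S j ∩ Sq x r)} ≤
      ENNReal.ofReal (2 * D₁ / c) * ∑ j ∈ Finset.range N, volume (S j)

/-- DRS (about 300 lines), separated directions.  `C` large absolute, `Kc = 25·35·16`, `m₀ = C (1 + D/θ²)` with `m₀ ≥ 1000`.  `Et j = Ri K (s j) a b θ (2^a)`, `Er j = Ri K (s j) a b θ (2·2^a)`, `T = ∑_j vol(K ∩ Wd ..)`, so `vol(Er j) ≤ (35/θ) vol(K ∩ Wd ..)` (DRI), `Wd ⊆ Et j`, so `T ≤ S := ∑_j vol(K ∩ Et j) = ∫_K n < ∞`, `n x = #{j < N : x ∈ Et j}`.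
`n ≤ m₀ + 2 ∑_{a} m_a 1[m_a ≤ n]`, `m_a = 2^a m₀` (finitely many `a`, `m_a ≤ N`).  `p = a - 14 - 4g`, `L = 2^(a-7-3g)`, `L₂ = 2^(a-5)`, `α = 2^(-g)`, radii `r₁ = 2·2^p`, `r₂ = 5L/2`, both `≥ 2^b` (`b + 18g ≤ a`, `g ≥ 2`).  `D_a = (16 Kc D/θ) m_a` (`200 D_a ≤ m_a` as `C D ≤ θ`).
`{x ∈ K : m_a ≤ n x}` is contained in the union of the two sets of DRM (`S j = Er j`, `D₁ = 25 D` by DRB, `c = 16 Kc D/θ`): `∑_a m_a vol(..) ≤ 2·(50 D/c) ∑ vol(Er j) ≤ (100·35/(16 Kc)) T ≤ T/16`, and of the set `R_a` of RDS (`nst = 1`, `m = m_a`, `D = D_a`): RDS: `N L ≤ 3·2^g 2^(a-7-3g) ≤ α² L₂`,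
`100·2^p ≤ α L`, `10 L₂ ≤ 2^a` (DRI, shift), `#{j' : |s j - s j'| ≤ α} ≤ 1`: `m_a vol(R_a) ≤ C₀ D_a/m_a² (35/θ) T ≤ C₀·16 Kc·35 D/(θ² m_a) T`, sum over `a`: `≤ 2 C₀·16 Kc·35 D/(θ² m₀) T ≤ T/16` for `C` large.  So `S ≤ m₀ vol K + 2 (T/8) ≤ m₀ vol K + S/4`.
Hypotheses: hPT, hRDS, hDRI, hDRB, hDRM. -/
def StDRS : Prop :=
  ∃ C : ℝ, 1 ≤ C ∧ ∀ (N g : ℕ) (s : ℕ → ℝ) (K : Set Pl) (a b : ℤ) (D θ : ℝ), (∀ j < N, |s j| ≤ 1) →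
    BM K → 0 < D → C * D ≤ θ → θ ≤ 1 → 2 ≤ g → b + 18 * g ≤ a → Dn K D b → (N : ℝ) ≤ 3 * 2 ^ g →
    (∀ j < N, ∀ j' < N, j ≠ j' → (2 : ℝ) ^ (-(g : ℤ)) < |s j - s j'|) →
    ∑ j ∈ Finset.range N, volume (K ∩ Ri K (s j) a b θ ((2 : ℝ) ^ a)) ≤
      ENNReal.ofReal (C * (1 + D / θ ^ 2)) * volume K

/-- DRT (about 200 lines), the dual ridge theorem.  `n₀ = ⌈nst⌉₊ ≤ 2 nst`.  Enumerate `J` as `j_0, .., j_(M-1)` with `s j_0 ≤ s j_1 ≤ ..` (e.g. sort by the pair `(s j, j)`), and let `J_c = {j_r : r ≡ c mod n₀}`, `c < n₀`.  For `r < r'` in the same class `s j_r' - s j_r > 2^(-g)`: otherwise the `n₀ + 1` elements `j_r, .., j_(r+n₀)`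
are all within `2^(-g)` of `s j_r`, a contradiction to the bound `nst ≤ n₀`.  As `|s| ≤ 1`, `J_c` has at most `2·2^g + 1 ≤ 3·2^g` elements.  DRS for every `J_c` (numbered), sum over `c`.  Hypotheses: hDRS. -/
def StDRT : Prop :=
  ∃ C : ℝ, 1 ≤ C ∧ ∀ (J : Finset ℕ) (g : ℕ) (s : ℕ → ℝ) (K : Set Pl) (a b : ℤ) (D θ nst : ℝ),
    (∀ j ∈ J, |s j| ≤ 1) → BM K → 0 < D → C * D ≤ θ → θ ≤ 1 → 2 ≤ g → b + 18 * g ≤ a → Dn K D b → 1 ≤ nst →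
    (∀ j ∈ J, ({j' : ℕ | j' ∈ J ∧ |s j' - s j| ≤ (2 : ℝ) ^ (-(g : ℤ))}.ncard : ℝ) ≤ nst) →
    ∑ j ∈ J, volume (K ∩ Ri K (s j) a b θ ((2 : ℝ) ^ a)) ≤
      ENNReal.ofReal (C * nst * (1 + D / θ ^ 2)) * volume K

/-- DRC (about 80 lines), cells of one scale.  DRT with `a = k - u`.  If `F` has density `≥ θ` in the cell `RQ (s j) (k-u) (k - fl j) z` then `k - fl j < b` (DRB, third clause: `4 D < θ`, `b ≤ k - u`), so `z ∈ Wd F (s j) (k-u) b θ ⊆ Ri F (s j) (k-u) b θ (2^(k-u))` (DRI).  Hypotheses: hDRI, hDRB, hDRT. -/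
def StDRC : Prop :=
  ∃ C : ℝ, 1 ≤ C ∧ ∀ (J : Finset ℕ) (g u : ℕ) (s : ℕ → ℝ) (fl : ℕ → ℕ) (F : Set Pl) (k b : ℤ) (D θ nst : ℝ),
    (∀ j ∈ J, |s j| ≤ 1) → BM F → 0 < D → C * D ≤ θ → θ ≤ 1 → 2 ≤ g → b + 18 * g ≤ k - (u : ℤ) → Dn F D b →
    1 ≤ nst →
    (∀ j ∈ J, ({j' : ℕ | j' ∈ J ∧ |s j' - s j| ≤ (2 : ℝ) ^ (-(g : ℤ))}.ncard : ℝ) ≤ nst) →
    ∑ j ∈ J, volume {z | z ∈ F ∧ Rich F (s j) (k - (u : ℤ)) (k - (fl j : ℤ)) θ z} ≤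
      ENNReal.ofReal (C * nst * (1 + D / θ ^ 2)) * volume F

end Pool.Agent.Helper68.ES
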