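import Pool.Agent.Helper68.ES.St1

/-!
# Project ES (MP_cb927e_an): interface statements, part 2 (charges, ages, the process lemma, one class)
-/

set_option autoImplicit false

open MeasureTheory Set Filter Topology
open scoped ENNReal RealInnerProductSpace

namespace Pool.Agent.Helper68.ES

open Pool.Agent.Helper68.LM (Pl BB Bd Av HL ft fm DQ)
open Pool.Agent.Helper20.RG
open Pool.Agent.Helper20.RL (RQ Rich BM Fml Hit)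
open Pool.Agent.Helper68.EP

/-- the points which are hit by at least `3m/4` and fewer than `2m` directions of `J` at the scale `k` -/
def Xk (E : Set Pl) (u q : ℕ) (J : Finset ℕ) (sl : ℕ → ℝ) (fl : ℕ → ℕ) (cc : ℕ → Pl) (D θ m : ℝ) (k : ℤ) : Set Pl :=
  {x | 3 / 4 * m ≤ ({j : ℕ | j ∈ J ∧ Hit (sl j) (cc j) (fl j) u k
      {y | Rich (Eg E D q k) (sl j) (k - (u : ℤ)) (k - (fl j : ℤ)) θ y} x}.ncard : ℝ) ∧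
    ({j : ℕ | j ∈ J ∧ Hit (sl j) (cc j) (fl j) u k
      {y | Rich (Eg E D q k) (sl j) (k - (u : ℤ)) (k - (fl j : ℤ)) θ y} x}.ncard : ℝ) < 2 * m}

/-- CHX (about 350 lines), charges from hits.  `G_k = Eg E D q k` (bounded, measurable: EFB).  `Xk k ≠ ∅` implies `θ 2^(2k - u - fl j) ≤ vol E` for some `j ∈ J`, so `Xk k = ∅` for large `k`; `Xd k = Xk k \ ⋃_{k'>k} Xk k'`, disjoint, same union.  For `j ∈ J` and `z` let `Q = RQ (sl j) (k-u) (k - fl j) z` and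
`N z = {x | ∃ y ∈ Q, |(x - 2^k cc j) 0 - y 0| ≤ 3·2^(k-u), |pr (x - 2^k cc j) - pr y| ≤ 2·2^(k - fl j)}`; `vol (N z) ≤ 35 vol Q` (LGE).  `ω k j z = vol(Xd k ∩ N z)/(m vol(G_k ∩ Q))` if `j ∈ J`, `z ∈ G_k` and `Rich G_k .. θ z`, and `0` otherwise: `supp`, `cell` clear, `le`: `vol(G_k ∩ Q) ≥ θ vol Q`; `meas`: `ω k j` is constant on the
intersections of `G_k` with the countably many cells (measurable).  For a rich cell `Q`: `∫_Q ω k j = vol(Xd k ∩ N)/m`.  If `j` is hit at `x` then `x ∈ N(Q)` for at least one and (`|α - β| ≤ 3` implies that the floors differ by at most `3`) at most `7·5 = 35` rich cells `Q` of direction `j`.  So `∑_j ∫ ω k j ≥ (1/m) ∫_{Xd k} #hits ≥ (3/4) vol(Xd k)`; sum over `k`.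
`hl`: let `k ≤ b`, `Q` meet `DQ b y` in `z`, `x ∈ N(Q)`: `|x 0 - z 0| ≤ Cf 2^k + 4·2^(k-u)`, `|x 1 - z 1| ≤ 3·2^(k - fl j) + Cf 2^k + (Cf + 4) 2^k ≤ (2 Cf + 10) 2^k` (`fl j + 1 ≥ u`), so `x ∈ Sq y r`, `r = (2 Cf + 11) 2^b`, and `∑_j ∫_{DQ b y} ω k j ≤ (1/m) ∑_j ∑_Q vol(Xd k ∩ N(Q)) ≤ (35/m) ∫_{Xd k ∩ Sq y r} #hits ≤ 70 vol(Xd k ∩ Sq y r)`;
the `Xd k` are disjoint: `CH = 70·4 (2 Cf + 11)²`.  (The hit sets are measurable: countable unions over the rich cells of measurable sets.)  Hypotheses: hPT, hLGR, hLFM, hLGE, hEFB. -/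
def StCHX : Prop :=
  ∀ Cf : ℝ, 1 ≤ Cf → ∃ CH : ℝ, 1 ≤ CH ∧ ∀ (p : ℝ) (E : Set Pl) (u q : ℕ) (J : Finset ℕ) (sl : ℕ → ℝ) (fl : ℕ → ℕ)
    (cc : ℕ → Pl) (D θ m : ℝ), BM E → (∀ j ∈ J, |sl j| ≤ 1 ∧ ‖cc j‖ ≤ Cf ∧ u ≤ fl j + 1) → 0 < D → 0 < θ →
    0 < m → ∃ ω : ℤ → ℕ → Pl → ℝ≥0∞, Chg CH E u q J sl fl D θ m ω ∧
      ENNReal.ofReal (3 / 4 * (2 : ℝ) ^ (-(p * u))) * volume (⋃ k : ℤ, Xk E u q J sl fl cc D θ m k) ≤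
        ∫⁻ z, cg p u J ω z

/-- KPF (about 120 lines), the exit scale.  `S_z = {b | z ∈ Fb H D' b ∧ z ∈ Fb E D b}` is an up-set (EFB), nonempty (`D' 4^b, D 4^b ≥ vol E` for large `b`) and bounded below (if `z ∉ Fb E D b` then `z ∉ Fb E D b'` for `b' ≤ b`), so `kp = sInf S_z ∈ S_z` and `b ∈ S_z ↔ kp ≤ b`.  `{z ∈ H | kp z ≤ b} = H ∩ Fb H D' b ∩ Fb E D b` is measurable (EFB).  Hypotheses: hEFB. -/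
def StKPF : Prop :=
  ∀ (H E : Set Pl) (D' D : ℝ), BM H → BM E → H ⊆ E → 0 < D' → 0 < D → (∀ z ∈ H, ∃ b : ℤ, z ∉ Fb E D b) →
    Kap H D' (kp H E D' D) ∧ ∀ z ∈ H, ∀ b : ℤ, kp H E D' D z ≤ b ↔ z ∈ Fb H D' b ∧ z ∈ Fb E D b

/-- SUP (about 120 lines).  Last clause of `Chg`: `ω k j z ≤ 35/(mθ)`, and `ω k j z ≠ 0` implies `z ∈ Eg E D q k`, i.e. (`q ≥ 1`) `z ∈ Fb E D (k - 2^q)`, `z ∉ Fb E D (k - 2^(q+1))`.  The `b` with `z ∈ Fb E D b` form an up-set with least element `κ` (if there is such a `k` at all), so `κ + 2^q ≤ k < κ + 2^(q+1)`: `2^q` values of `k`.  Second part: `z ∈ E`, `z ∉ Fb E D b` for `b = k - 2^(q+1)`.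
Third: `cg` is measurable; `cg ≠ 0` only on `E` (bounded), so the integral is at most `(bound) vol E < ∞`.  Hypotheses: hEFB. -/
def StSUP : Prop :=
  ∀ (p CH : ℝ) (E : Set Pl) (u q : ℕ) (J : Finset ℕ) (sl : ℕ → ℝ) (fl : ℕ → ℕ) (D θ m : ℝ)
    (ω : ℤ → ℕ → Pl → ℝ≥0∞), Chg CH E u q J sl fl D θ m ω → BM E → 1 ≤ q → 0 < D → 0 < θ → 0 < m →
    (∀ z : Pl, cg p u J ω z ≤ ENNReal.ofReal ((2 : ℝ) ^ (-(p * u)) * (2 ^ q * J.card * (35 / (m * θ))))) ∧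
    (∀ z : Pl, cg p u J ω z ≠ 0 → z ∈ E ∧ ∃ b : ℤ, z ∉ Fb E D b) ∧
    Measurable (cg p u J ω) ∧ ∫⁻ z, cg p u J ω z ≠ ∞

/-- SUR (about 220 lines), the surplus.  `Ω = {z | ∃ b', D' 4^b' < vol(H ∩ DQ3 b' z)}`; for `z ∈ Ω` let `B z` be the largest such `b'` (`vol H < ∞`).  For `z' ∈ DQ (B z) z` the squares `DQ3 b' z'`, `DQ3 b' z`, `b' ≥ B z`, coincide (EQ), so `z' ∈ Ω`, `B z' = B z`: `Ω` is a countable disjoint union of such squares `S = DQ (B z) z` (`Fml` with `s = 0`).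
`vol Ω ≤ (C/D') vol H` as in EAT: `DQ3 b' z ⊆ Sq z (2·2^b') ⊆ closedBall z (4·2^b')`, so `HL 4 1_H z > D'` on `Ω` (`Helper68.LM.StHLW`, proved, see `Pool.Agent.Helper68.LM.Asm`; see also the proof of `Pool.Agent.Helper68.EP.StEAT`, name in `Pool.Agent.Helper68.EP.Asm`).  If `z ∈ H \ Fb H D' k` then there is `b' ≥ k` with `D' 4^b' < vol(..)`, so `z ∈ Ω` and
`k ≤ B z`.  So for every square `S`, `B = B z`: `∑'_k ∑_j ∫_{S ∩ (H \ Fb H D' k)} ω k j ≤ ∑'_{k ≤ B} ∑_j ∫_S ω k j ≤ CH 4^B = CH vol S` (`hl`).  Sum over `S`.  Hypotheses: hPT, hLGR, hEQ, hEFB. -/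
def StSUR : Prop :=
  ∃ C : ℝ, 1 ≤ C ∧ ∀ (p CH : ℝ) (E H : Set Pl) (u q : ℕ) (J : Finset ℕ) (sl : ℕ → ℝ) (fl : ℕ → ℕ) (D θ m D' : ℝ)
    (ω : ℤ → ℕ → Pl → ℝ≥0∞), Chg CH E u q J sl fl D θ m ω → BM H → 0 < D' → 0 ≤ CH →
    ch p u J ω (fun k _ => H \ Fb H D' k) ≤
      ENNReal.ofReal ((2 : ℝ) ^ (-(p * u)) * (C * CH / D')) * volume H

/-- AGE (about 150 lines), young charges.  Let `z ∈ H₁`, `k < kp z + G`, `ω k j z ≠ 0`.  Either `z ∉ Fb H D' k`: SUR.  Or `z ∈ Fb H D' k`, and `z ∈ Eg E D q k ⊆ Fb E D (k - 2^q) ⊆ Fb E D k` (`supp`, EFB), so `kp z ≤ k` (KPF): at most `G` values of `k`, `ω ≤ 35/(mθ)`.  Integrate over `H₁` (Tonelli).  (The sets are measurable: KPF.)  Hypotheses: hEFB, hKPF, hSUR. -/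
def StAGE : Prop :=
  ∃ C : ℝ, 1 ≤ C ∧ ∀ (p CH : ℝ) (E H H₁ : Set Pl) (u q G : ℕ) (J : Finset ℕ) (sl : ℕ → ℝ) (fl : ℕ → ℕ)
    (D θ m D' : ℝ) (ω : ℤ → ℕ → Pl → ℝ≥0∞), Chg CH E u q J sl fl D θ m ω → BM E → BM H → H ⊆ E →
    MeasurableSet H₁ → H₁ ⊆ H → 0 < D' → 0 < D → 0 ≤ CH → 0 < θ → 0 < m → (∀ z ∈ H, ∃ b : ℤ, z ∉ Fb E D b) →
    ch p u J ω (fun k _ => {z | z ∈ H₁ ∧ k < kp H E D' D z + G}) ≤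
      ENNReal.ofReal ((2 : ℝ) ^ (-(p * u)) * (C * CH / D')) * volume H +
      ENNReal.ofReal ((2 : ℝ) ^ (-(p * u)) * (G * J.card * (35 / (m * θ)))) * volume H₁

/-- PLM (about 350 lines), the process lemma.  `θ' = lam θ/(2 (L₀+2) Lam)`, `L_l = Ly H κ g l` (disjoint, measurable, `H = ⋃_l L_l`).  For `z ∈ R k j ∩ L_l`: `l g ≤ κ z < (l+1) g` and `64 g ≤ k - κ z ≤ L₀ g`, so for given `k` there are at most `L₀ + 2` values of `l`, and for given `l` at most `(L₀+2) g` values of `k`.  Call a cell `Q = RQ (sl j) (k-u) (k - fl j) z` poor for `(k,j,l)` if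
`vol(R k j ∩ L_l ∩ Q) < θ' vol Q`.  Charge in poor cells: `ω k j` is a constant `ω(Q)` on `Q ∩ Eg E D q k` and vanishes elsewhere on `Q` and in cells which are not rich (`supp`, `cell`), so `∫_{R k j ∩ L_l ∩ Q} ω k j ≤ ω(Q) θ' vol Q ≤ (θ'/θ) ω(Q) vol(Eg ∩ Q) = (θ'/θ) ∫_Q ω k j`; sum over `Q`, `l`, `j`, `k`:
at most `(L₀+2)(θ'/θ) ∑'_k ∑_j ∫ ω k j = (L₀+2)(θ'/θ) 2^(pu) ∫ cg ≤ (lam/2) 2^(pu) vol H`.  So with `R'_{kjl} = {z ∈ R k j ∩ L_l : Rich (R k j ∩ L_l) .. θ' z}`: `∑_l 2^(-pu) ∑'_k ∑_j ∫_{R'_{kjl}} ω k j ≥ (lam/2) ∑_l vol L_l`.  So there is `l` with `vol L_l > 0` and `2^(-pu) ∑'_k ∑_j ∫_{R'_{kjl}} ω k j ≥ (lam/2) vol L_l`,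
then `k` with `2^(-pu) ∑_j ∫_{R'_{kjl}} ω k j ≥ (lam/2) vol L_l/((L₀+2) g)`, and `ω ≤ 35/(mθ)` gives the bound.  As it is positive some `R'_{kjl}` is nonempty.  (All measures are finite: `H` bounded.)  Hypotheses: hLGR, hLFM, hEFB. -/
def StPLM : Prop :=
  ∀ (p CH : ℝ) (E H : Set Pl) (u q g L₀ : ℕ) (J : Finset ℕ) (sl : ℕ → ℝ) (fl : ℕ → ℕ) (D θ m lam Lam : ℝ)
    (ω : ℤ → ℕ → Pl → ℝ≥0∞) (κ : Pl → ℤ) (R : ℤ → ℕ → Set Pl), Chg CH E u q J sl fl D θ m ω → BM E → BM H →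
    (∀ b : ℤ, MeasurableSet {z | z ∈ H ∧ κ z ≤ b}) → 1 ≤ g → 1 ≤ L₀ →
    (∀ (k : ℤ) (j : ℕ), MeasurableSet (R k j) ∧ R k j ⊆ H ∧ ∀ z ∈ R k j, κ z + 64 * g ≤ k ∧ k ≤ κ z + L₀ * g) →
    0 < m → 0 < θ → 0 < lam → 0 < Lam → 0 < volume H → ENNReal.ofReal lam * volume H ≤ ch p u J ω R →
    ∫⁻ z, cg p u J ω z ≤ ENNReal.ofReal Lam * volume H →
    ∃ l k : ℤ, 0 < volume (Ly H κ g l) ∧ (∃ z ∈ Ly H κ g l, κ z + 64 * g ≤ k) ∧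
      ENNReal.ofReal (lam * (m * θ) * (2 : ℝ) ^ (p * u) / (70 * ((L₀ + 2) * g))) * volume (Ly H κ g l) ≤
      ∑ j ∈ J, volume {z | z ∈ R k j ∩ Ly H κ g l ∧ Rich (R k j ∩ Ly H κ g l) (sl j) (k - (u : ℤ))
        (k - (fl j : ℤ)) (lam * θ / (2 * (L₀ + 2) * Lam)) z}

/-- TAA (about 350 lines), one class, the main inequality.  `C₀` the maximum of the constants of AGE and DRC, `D' = 8 C₀ CH 2^(-pu)/lam`, `κ = kp H E D' D` (SUP: `cg z ≠ 0` on `H`, so `∃ b, z ∉ Fb E D b`; KPF).  `∫_H cg ≥ lam vol H`.  AGE with `H₁ = H`, `G = 2^(q-r)`: the charge with `k < κ z + 2^(q-r)` is at most `(lam/8 + lam/8) vol H` (`C ≥ 280`).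
If `ω k j z ≠ 0`, `z ∈ H`, then `z ∉ Fb E D (k - 2^(q+1))`, so `k < κ z + 2^(q+1)`.  So with `R^ρ k j = {z ∈ H | 2^(q-ρ) ≤ k - κ z < 2^(q-ρ+1)}`: `∑_{ρ ≤ r} ch (R^ρ) ≥ ½ lam vol H`, and as `∑_ρ (1 - 2^(-ε)) 2^(-ερ) ≤ 1` there is `ρ ≤ r` with `ch (R^ρ) ≥ lam' vol H`, `lam' = (1 - 2^(-ε)) 2^(-ερ) lam/2`.
PLM with `g = 2^(q-ρ-6)`, `L₀ = 128`, `Lam = Λ₁ lam`: `l`, `k`, `F = Ly H κ g l`, `θ' = lam' θ/(260 Λ₁ lam) = (1 - 2^(-ε)) 2^(-ερ) θ/(520 Λ₁) ≤ 1`; `{z ∈ R ∩ F : Rich (R ∩ F) .. θ' z} ⊆ {z ∈ F : Rich F .. θ' z}`.  For `z ∈ F`: `κ z < (l+1) g`, so `Dn F D' ((l+1) g)` (Kap).  DRC with `b = (l+1) g`: `k ≥ (l+64) g`, `b + 18 g ≤ k - u` as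
`u ≤ 45·2^(q-r-6) ≤ 45 g`; `C₀ D' ≤ θ'` by the last numerical hypothesis; `nst = 1 + 2^u (al 2^(2(ρ+6)-q))^(1/p)` by `Cls.near` with `κ = ρ + 6 < q` (`2^g`, `g = 2^(q-(ρ+6))`).  `0 < vol F < ∞`: divide.  `D'/θ'² = C 2^(-pu) Λ₁² 2^(2ερ)/(lam θ²)`.  Hypotheses: hEFB, hKPF, hSUP, hAGE, hPLM, hDRC. -/
def StTAA : Prop :=
  ∀ p A CH ε : ℝ, 1 < p → p < 2 → 1 ≤ CH → 0 < ε → ε ≤ 1 → ∃ C : ℝ, 1 ≤ C ∧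
    ∀ (E H : Set Pl) (u q r : ℕ) (J : Finset ℕ) (sl : ℕ → ℝ) (fl : ℕ → ℕ) (D θ m al lam Λ₁ : ℝ)
    (ω : ℤ → ℕ → Pl → ℝ≥0∞), Cls p A al u q J sl → Chg CH E u q J sl fl D θ m ω → 0 < D → BM E → BM H →
    H ⊆ E → 0 < volume H → 0 < lam → 1 ≤ Λ₁ → 0 < θ → θ ≤ 1 → 0 < m → 0 ≤ al →
    (∀ z ∈ H, ENNReal.ofReal lam ≤ cg p u J ω z) →
    ∫⁻ z, cg p u J ω z ≤ ENNReal.ofReal (Λ₁ * lam) * volume H → r + 11 ≤ q → u ≤ 45 * 2 ^ (q - r - 6) →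
    C * (2 : ℝ) ^ (-(p * u)) * (2 ^ (q - r) * J.card) ≤ lam * (m * θ) →
    C * (2 : ℝ) ^ (-(p * u)) * (2 : ℝ) ^ (ε * r) * Λ₁ ≤ lam * θ →
    ∃ ρ : ℕ, ρ ≤ r ∧ lam * (2 : ℝ) ^ (-(ε * ρ)) * (m * θ) * (2 : ℝ) ^ (p * u) * 2 ^ ρ / 2 ^ q ≤
      C * (1 + (2 : ℝ) ^ u * (al * (2 : ℝ) ^ (2 * ((ρ : ℤ) + 6) - q)) ^ (1 / p)) *
        (1 + (2 : ℝ) ^ (-(p * u)) * Λ₁ ^ 2 * (2 : ℝ) ^ (2 * ε * ρ) / (lam * θ ^ 2))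

/-- TNU (about 350 lines), the numbers.  All logarithms to base 2; `L = log lam`, `ν = log n'`, `T = sz R Y β`, `x = log Λ₁ ≥ 0`, `O(1)` depends on `C₁`, `c`, `p`.  `mθ = 2^β/36`, `q = (p-1)u + R + O(1)`, `i = u/p + Y + O(1)`.  Let `a = 2^u (al 2^(2(ρ+6)-q))^(1/p)`, `b = 2^(-pu) Λ₁² 2^(2ερ)/(lam θ²)`.
`log(left side) = L + β - R + (1-ε)ρ + u + O(1)`, `log a ≤ u/p - R/p + 2ρ/p - ν/p + O(1)`, `log b = (2/p - p)u + 2x + 2ερ - L + 2Y + O(1)`; `3/p - p = 1`.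
(A) If `a ≥ 1`, `b ≥ 1`: `2L ≤ (2/p - 1 + 3ε)ρ + R(1 - 1/p) - β + 2Y - ν/p + 2x + O(1)`; with `ρ ≤ R - β - L + C₁` (and `2/p - 1 > 0`) this gives `(a) (1 + 2/p) L ≤ R/p - 2β/p + 2Y - ν/p + 2x + 3ε(R - β - L)⁺ + O(1)`, and `3ε(R - β - L)⁺ ≤ 9εT + O(1)` (`L ≥ -T`).
(B) If `a < 1` or `b < 1` then (as `left ≤ 4 C₁ max(1,a) max(1,b)`) `u (1 - max(1/p, 2/p - p)) ≤ K (T + x) + O(1)`, `K = K(p)`, and `T ≤ e u` with `e` small gives `T ≤ e' (x + O(1))`, `e' ≤ 1/8`; `L ≤ R - β + C₁ ≤ T + O(1)`, so `L ≤ -c₂T + 2T + O(1) ≤ -c₂ T + x + O(1)` and `ν ≥ 0`.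
In case (A) let `β⁺ = max(β,0)`, `ν' = max(-β,0)`, `h = ν - L`; `|ν - ν'| ≤ δT + O(1)` (definition of `nn`, `c ≤ 1`).  `(b) L ≤ R - β + C₁`: `R ≥ -h + β⁺ - δT - O(1)`.  (a) + 2·(c), `(c) R/p + Y + β ≤ -ν/p + O(1)`: `(1 + 2/p) L ≤ -R/p - (2 + 2/p)β - 3ν/p + err`, i.e. `R/p + (2 + 2/p)β⁺ + (3/p - 1)ν' ≤ (1 + 2/p) h + err`,
`err = 2x + (10ε + 10δ)T + O(1)`.  So `|R|, β⁺, ν' ≤ K (|h| + err)` (`3/p > 1`), then (a): `-2Y ≤ K(|h| + err)` and (c): `pY ≤ K (|h| + err)`.  So `T ≤ K (|h| + err)`; with `ε`, `δ₀` small (`K (10ε + 10δ) ≤ 1/2`): `T ≤ 2K(|h| + 2x + O(1))`.  And `h ≥ -K(..)`: from `R ≥ -h + ..` inserted in the second inequality: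
`0 ≤ (1 + 3/p) h + err'`, so `h ≥ -(err')`; hence `T ≤ K' (h + x + O(1) + (ε+δ)T)` and `h ≥ c₂ T - K'' x - O(1)`.  Hypotheses: none. -/
def StTNU : Prop :=
  ∀ p : ℝ, 1 < p → p < 2 → p ^ 2 + p = 3 → ∃ ε δ₀ c₂ e : ℝ, 0 < ε ∧ ε ≤ 1 ∧ 0 < δ₀ ∧ 0 < c₂ ∧ c₂ ≤ 1 ∧ 0 < e ∧
    ∀ C₁ c δ : ℝ, 1 ≤ C₁ → 0 < c → c ≤ 1 → 0 < δ → δ ≤ δ₀ → ∃ C : ℝ, 1 ≤ C ∧
    ∀ (R Y β : ℤ) (u q i ρ : ℕ) (al lam Λ₁ : ℝ), Cfg p e R Y β u q i → 0 ≤ al → al ≤ C₁ / nn c δ R Y β →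
    (R : ℝ) + p * Y + p * β ≤ C₁ - Real.logb 2 (nn c δ R Y β) → 0 < lam → lam ≤ C₁ * (2 : ℝ) ^ (R - β) →
    (2 : ℝ) ^ (-sz R Y β) ≤ lam → 1 ≤ Λ₁ → (ρ : ℝ) ≤ R - β - Real.logb 2 lam + C₁ →
    lam * (2 : ℝ) ^ (-(ε * ρ)) * (mb i β * th i) * (2 : ℝ) ^ (p * u) * 2 ^ ρ / 2 ^ q ≤
      C₁ * (1 + (2 : ℝ) ^ u * (al * (2 : ℝ) ^ (2 * ((ρ : ℤ) + 6) - q)) ^ (1 / p)) *
        (1 + (2 : ℝ) ^ (-(p * u)) * Λ₁ ^ 2 * (2 : ℝ) ^ (2 * ε * ρ) / (lam * (th i) ^ 2)) →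
    lam ≤ C * nn c δ R Y β * (2 : ℝ) ^ (-(c₂ * sz R Y β)) * Λ₁ ^ C

/-- TON (about 250 lines), one class.  `ε`, `c₂` from TNU; `e` at most that of TNU and small.  `T = sz R Y β ≤ e u`.  SUP at a point of `H` (nonempty): `lam ≤ 2^(-pu) 2^q J.card·35/(mb i β th i) ≤ 1260·2^(R-β)` (`J.card ≤ 2^u`, `mb th = 2^β/36`, `q ≤ (p-1)u + R`).  If `lam < 2^(-T)`: done (`nn ≥ 1`, `Λ₁ ≥ 1`, `c₂ ≤ 1`).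
If `Λ₁ > 2^T`: `lam ≤ 1260·2^(2T) ≤ 1260·2^(-c₂T) Λ₁^3`.  Otherwise let `r` be the least natural number with `C₀ 2^(-pu) 2^(q-r) J.card ≤ lam (mb th)` (`C₀` the constant of TAA; `2^(q-r)` for `r ≤ q`): `2^r ≤ 2·36 C₀ 2^(R-β)/lam + 1`, so `r ≤ R - β - log lam + C₁ ≤ 3T + C₁` (use `lam ≤ 1260·2^(R-β)`).  As `q ≥ (p-1)u - 1 - T ≥ (p-1-e)u - 1` the conditions
`r + 11 ≤ q` and `u ≤ 45·2^(q-r-6)` hold for `u ≥ u₀` (`e ≤ (p-1)/10`), and `C₀ 2^(-pu) 2^(εr) Λ₁ ≤ lam th i` since `i ≤ u/p + T`, `p - 1/p > 6e`, `u ≥ u₀`.  TAA, TNU (`C₁` large).  Hypotheses: hSUP, hTAA, hTNU. -/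
def StTON : Prop :=
  ∀ p : ℝ, 1 < p → p < 2 → p ^ 2 + p = 3 → ∃ δ₀ c₂ e : ℝ, 0 < δ₀ ∧ 0 < c₂ ∧ c₂ ≤ 1 ∧ 0 < e ∧
    ∀ A CH C₁ c δ : ℝ, 0 ≤ A → 1 ≤ CH → 1 ≤ C₁ → 0 < c → c ≤ 1 → 0 < δ → δ ≤ δ₀ → ∃ (u₀ : ℕ) (C : ℝ), 1 ≤ C ∧
    ∀ (R Y β : ℤ) (u q i : ℕ) (J : Finset ℕ) (sl : ℕ → ℝ) (fl : ℕ → ℕ) (D al lam Λ₁ : ℝ) (E H : Set Pl)
    (ω : ℤ → ℕ → Pl → ℝ≥0∞), u₀ ≤ u → Cfg p e R Y β u q i → Cls p A al u q J sl →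
    Chg CH E u q J sl fl D (th i) (mb i β) ω → 0 < D → BM E → 0 ≤ al → al ≤ C₁ / nn c δ R Y β →
    (R : ℝ) + p * Y + p * β ≤ C₁ - Real.logb 2 (nn c δ R Y β) → BM H → H ⊆ E → 0 < volume H → 0 < lam →
    1 ≤ Λ₁ → (∀ z ∈ H, ENNReal.ofReal lam ≤ cg p u J ω z) →
    ∫⁻ z, cg p u J ω z ≤ ENNReal.ofReal (Λ₁ * lam) * volume H →
    lam ≤ C * nn c δ R Y β * (2 : ℝ) ^ (-(c₂ * sz R Y β)) * Λ₁ ^ C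

/-- TRU (about 150 lines), truncation.  `N₀ = C₀ nn 2^(-c₂ sz)` with the constant `C₀` of TON, `I = ∫ cg < ∞` (SUP; if `I = 0` nothing to prove), `ρ₀ = K N₀`.  For `a ≥ 0` let `H_a = {z | 2^a ρ₀ < cg z ≤ 2^(a+1) ρ₀}` (measurable, contained in `E`: SUP).  If `vol H_a > 0` put `lam = 2^a ρ₀`, `Λ₁ = I/(lam vol H_a) ≥ 1`; TON: `lam ≤ N₀ Λ₁^(C₀)`, so
`Λ₁ ≥ (2^a K)^(1/C₀)` and `∫_{H_a} cg ≤ 2 lam vol H_a = 2 I/Λ₁ ≤ 2 I (2^a K)^(-1/C₀)`.  Sum over `a` (`cg < ∞`): `≤ 2 I K^(-1/C₀)/(1 - 2^(-1/C₀)) ≤ I/2` for large `K`.  Hypotheses: hSUP, hTON. -/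
def StTRU : Prop :=
  ∀ p : ℝ, 1 < p → p < 2 → p ^ 2 + p = 3 → ∃ δ₀ c₂ e : ℝ, 0 < δ₀ ∧ 0 < c₂ ∧ c₂ ≤ 1 ∧ 0 < e ∧
    ∀ A CH C₁ c δ : ℝ, 0 ≤ A → 1 ≤ CH → 1 ≤ C₁ → 0 < c → c ≤ 1 → 0 < δ → δ ≤ δ₀ → ∃ (u₀ : ℕ) (C : ℝ), 1 ≤ C ∧
    ∀ (R Y β : ℤ) (u q i : ℕ) (J : Finset ℕ) (sl : ℕ → ℝ) (fl : ℕ → ℕ) (D al : ℝ) (E : Set Pl)
    (ω : ℤ → ℕ → Pl → ℝ≥0∞), u₀ ≤ u → Cfg p e R Y β u q i → Cls p A al u q J sl →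
    Chg CH E u q J sl fl D (th i) (mb i β) ω → 0 < D → BM E → 0 ≤ al → al ≤ C₁ / nn c δ R Y β →
    (R : ℝ) + p * Y + p * β ≤ C₁ - Real.logb 2 (nn c δ R Y β) →
    ∫⁻ z, cg p u J ω z ≤ 2 * ∫⁻ z in {z | cg p u J ω z ≤
      ENNReal.ofReal (C * nn c δ R Y β * (2 : ℝ) ^ (-(c₂ * sz R Y β)))}, cg p u J ω z

end Pool.Agent.Helper68.ES
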