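import Pool.Agent.Helper68.ES.St2

/-!
# Project ES (MP_cb927e_an): interface statements, part 3 (two classes `w < u`, the same set)
-/

set_option autoImplicit false

open MeasureTheory Set Filter Topology
open scoped ENNReal RealInnerProductSpace

namespace Pool.Agent.Helper68.ES

open Pool.Agent.Helper68.LM (Pl BB Bd Av HL ft fm DQ)
open Pool.Agent.Helper20.RG
open Pool.Agent.Helper20.RL (RQ Rich BM Fml Hit)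
open Pool.Agent.Helper68.EP

/-- LAY (about 250 lines), layered sets.  `H' = Ns H κ g d₀`, `R = Rz κ g`.  `Ly H κ g l = {z ∈ H | l g ≤ κ z < (l+1) g}` is measurable; `z ↦ vol(Ly H κ g l ∩ DQ b z)` is measurable (EQ), so `H'` is measurable (union over `l`).  (2) Let `z ∈ H'`, `l = κ z/g`, `z' ∈ Ly H κ g l ∩ DQ (R z) z`: `R z' = R z`, `DQ (R z') z' = DQ (R z) z`, so `z' ∈ H'`; hence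
`Ly H κ g l ∩ DQ (R z) z = Ly H' κ g l ∩ DQ (R z) z`.  (3) `Dn`: `z' ∈ Gl`, `κ z' < (l+1) g`, `Kap`, `Gl ⊆ H`.  Measure: `Gl` is contained in the union, over the different squares `S = DQ ((l+3)g) z`, `z ∈ H'`, `κ z/g = l`, of the 25 squares of side `2^((l+3)g)` around `S`; each of these squares `S'` which contains a point `z'` of `Gl` satisfies `vol(H ∩ S') ≤ D' 4^((l+3)g)` (`Kap`,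
`κ z' ≤ (l+3) g`, `S' ⊆ DQ3 z'`), and `4^((l+3)g) < (1/d₀) vol(Ly H' κ g l ∩ S)`; the `S` are disjoint.  `Gl` is measurable: `{z' ∈ H | κ z' < (l+1) g}` intersected with a union of dyadic squares.  Hypotheses: hLGR, hEQ. -/
def StLAY : Prop :=
  ∀ (H : Set Pl) (κ : Pl → ℤ) (g : ℕ) (D' d₀ : ℝ), BM H → Kap H D' κ → 1 ≤ g → 0 < D' → 0 < d₀ →
    (BM (Ns H κ g d₀) ∧ Ns H κ g d₀ ⊆ H ∧ (∀ b : ℤ, MeasurableSet {z | z ∈ Ns H κ g d₀ ∧ κ z ≤ b})) ∧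
    (∀ z ∈ Ns H κ g d₀, Ly H κ g (κ z / (g : ℤ)) ∩ DQ (Rz κ g z) z ⊆ Ns H κ g d₀ ∧
      ENNReal.ofReal (d₀ * (4 : ℝ) ^ (Rz κ g z)) <
        volume (Ly (Ns H κ g d₀) κ g (κ z / (g : ℤ)) ∩ DQ (Rz κ g z) z)) ∧
    ∀ l : ℤ, BM (Gl H (Ns H κ g d₀) κ g l) ∧ Dn (Gl H (Ns H κ g d₀) κ g l) D' ((l + 1) * g) ∧
      volume (Gl H (Ns H κ g d₀) κ g l) ≤
        ENNReal.ofReal (25 * D' / d₀) * volume (Ly (Ns H κ g d₀) κ g l)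

/-- SPA (about 300 lines), the sparse part.  `D' = M 2^(-pu)`, `κ = kp H E D' D` (`H ⊆ {cg ≠ 0}`: SUP, KPF), `H₁ = H \ Ns H κ g d₀`.  Suppose `vol H < 4 vol H₁`.  AGE (`G = 64 g`): the charge over `{z ∈ H₁, k < κ z + 64 g}` is at most `(C₀ CH/M) vol H + (lam/16) vol H₁ ≤ (lam/8) vol H₁`; `∫_{H₁} cg ≥ lam vol H₁`; `ω k j z ≠ 0` implies
`k < κ z + 2^(q+1) ≤ κ z + L₀ g` (`z ∉ Fb E D (k - 2^(q+1))`).  So `R k j = {z ∈ H₁ | κ z + 64 g ≤ k ≤ κ z + L₀ g}` carries at least `(lam/2) vol H₁`.  PLM for `H₁` (`lam/2`, `Lam = 4/lam`): `l`, `k`, `F = Ly H₁ κ g l`, `θ' = lam² θ/(16 (L₀+2))`.  `Dn F (9 d₀) ((l+3) g)`: let `z ∈ F`, `b ≥ (l+3) g`; `DQ3 b z` is a union of `9·4^(b - (l+3)g)` squares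
`S` of side `2^((l+3)g)`; if `S` contains `z' ∈ F` then `z' ∉ Ns`, `κ z'/g = l`, so `vol(F ∩ S) ≤ vol(Ly H κ g l ∩ S) ≤ d₀ 4^((l+3)g)`.  DRC with `b = (l+3) g`: `k ≥ (l+64) g`, `b + 18 g ≤ k - u` as `u ≤ 43 g`; `nst = 1 + 2^u (A/g)^(1/p)` (`Cls.sep`, `n = g`).  So
`(lam/2)(mθ) 2^(pu)/(70 (L₀+2) g) ≤ C₀ nst (1 + 9 d₀/θ'²)`.  Hypotheses: hLGR, hEQ, hEFB, hKPF, hSUP, hAGE, hPLM, hDRC, hLAY. -/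
def StSPA : Prop :=
  ∃ C : ℝ, 1 ≤ C ∧ ∀ (p A CH : ℝ) (E H : Set Pl) (u q g L₀ : ℕ) (J : Finset ℕ) (sl : ℕ → ℝ) (fl : ℕ → ℕ)
    (D θ m al lam M d₀ : ℝ) (ω : ℤ → ℕ → Pl → ℝ≥0∞), 1 < p → p < 2 → 0 ≤ A → 1 ≤ CH → Cls p A al u q J sl →
    Chg CH E u q J sl fl D θ m ω → 0 < D → BM E → BM H → H ⊆ E → 0 < volume H → 0 < lam → lam ≤ 1 → 0 < θ →
    θ ≤ 1 → 0 < m → 1 ≤ q → (∀ z ∈ H, ENNReal.ofReal lam ≤ cg p u J ω z) →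
    ∫⁻ z, cg p u J ω z ≤ ENNReal.ofReal (1 / lam) * volume H → 0 < M → C * CH / M ≤ lam →
    (2 : ℝ) ^ (-(p * u)) * (64 * g * J.card * (35 / (m * θ))) ≤ lam / 16 → 2 ^ (q + 1) ≤ L₀ * g → 2 ≤ g →
    u ≤ 43 * g → 1 ≤ L₀ → 0 < d₀ → C * d₀ ≤ lam ^ 2 * θ / (L₀ + 2) →
    volume H < 4 * volume (H \ Ns H (kp H E (M * (2 : ℝ) ^ (-(p * u))) D) g d₀) →
    lam * (m * θ) * (2 : ℝ) ^ (p * u) / ((L₀ + 2) * g) ≤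
      C * (1 + (2 : ℝ) ^ u * (A / g) ^ (1 / p)) * (1 + d₀ * (L₀ + 2) ^ 2 / (lam ^ 4 * θ ^ 2))

/-- INR (about 150 lines), few inner rich directions.  `H' = Ns H κ g d₀`, `G_l = Gl H H' κ g l`.  If `z ∈ In .. s`, `κ z/g = l`, then `z ∈ G_l` (`z ∈ DQ5 (..) z`) and `z ∈ Wd G_l s ((l+3)g) ((l+1)g) κ₀ ⊆ Ri G_l s ((l+3)g) ((l+1)g) κ₀ (2^((l+3)g))` (DRI).  DRT with `K = G_l`, `a = (l+3) g`, `b = (l+1) g`, `g ↦ g'`, `D = D'` (LAY):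
`∑_j vol(In .. (sl j) ∩ {κ/g = l}) ≤ C₀ nst (1 + D'/κ₀²) vol G_l ≤ C₀ nst (1 + D'/κ₀²)(25 D'/d₀) vol(Ly H' κ g l)`.  Sum over `l`.  Hypotheses: hDRI, hDRT, hLAY. -/
def StINR : Prop :=
  ∃ C : ℝ, 1 ≤ C ∧ ∀ (H : Set Pl) (κ : Pl → ℤ) (g g' : ℕ) (D' d₀ κ₀ nst : ℝ) (J : Finset ℕ) (sl : ℕ → ℝ),
    BM H → Kap H D' κ → 1 ≤ g → 0 < D' → 0 < d₀ → C * D' ≤ κ₀ → κ₀ ≤ 1 → 2 ≤ g' → 18 * g' ≤ 2 * g →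
    (∀ j ∈ J, |sl j| ≤ 1) → 1 ≤ nst →
    (∀ j ∈ J, ({j' : ℕ | j' ∈ J ∧ |sl j' - sl j| ≤ (2 : ℝ) ^ (-(g' : ℤ))}.ncard : ℝ) ≤ nst) →
    ∑ j ∈ J, volume (In H (Ns H κ g d₀) κ g κ₀ (sl j)) ≤
      ENNReal.ofReal (C * nst * (1 + D' / κ₀ ^ 2) * (D' / d₀)) * volume (Ns H κ g d₀)

/-- FAT (about 350 lines), fat cells.  `Q = RQ s a B y`, `K = Ft F R`, `vol(P ∩ Q) ≥ θ' 2^(a+B)`, finite.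
Case A: `P_A = {z ∈ P ∩ Q | R z ≤ B}` has measure at least half of `P ∩ Q`; put `B' = B`.  For `z ∈ P_A` let `T z = RQ s (R z) (R z) z ⊆ Q` (`R z ≤ B ≤ a`).  These cells are nested or disjoint (LGR), the exponents are bounded above; let `T = T z*` be a maximal one: for `z' ∈ P_A ∩ T`, `R z' ≤ R z* =: r`.  `T` is covered by at most three dyadic squares of side `2^r` (`x 1 = pr s x + s x 0`),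
each of those which contains such a `z'` has `vol(P ∩ S') ≤ dD 4^r` (third hypothesis on `P`): `vol(P_A ∩ T) ≤ 3 dD vol T`.  `T ⊆ DQ5 r z* ⊆ K`.  So `vol(K ∩ Q) ≥ ∑ vol T ≥ vol P_A/(3 dD) ≥ θ' 2^(a+B)/(6 κ₀)`.
Case B: `P_B = {z ∈ P ∩ Q | B < R z}` has measure at least half.  `T z = RQ s (R z) B z ⊆ Q` (`R z ≤ a`), nested or disjoint; let `T_i = T z_i`, `r_i = R z_i`, be the maximal ones (countably many, disjoint, covering `P_B`), `μ_i = vol(P_B ∩ T_i) ≤ κ₀ 2^(r_i + B)` (last hypothesis at `z_i`; all `z' ∈ P_B ∩ T_i` have `R z' ≤ r_i`).  The `r_i` take finitely many values (`B < r_i ≤ a`); let `B'` be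
the least value with `∑_{r_i ≤ B'} μ_i ≥ ½ vol P_B`; then `∑_{r_i ≥ B'} μ_i ≥ ½ vol P_B` too.  `{z ∈ P ∩ Q | R z ≤ B'}` contains `⋃_{r_i ≤ B'} (P_B ∩ T_i)`, measure at least `¼ vol(P ∩ Q)`.  For `r_i ≥ B'` the set `{x | ⌊x 0/2^(r_i)⌋ = ⌊z_i 0/2^(r_i)⌋, ⌊pr s x/2^B'⌋ = ⌊pr s y/2^B'⌋}` (area `2^(r_i + B')`) is contained in
`RQ s a B' y` (`r_i ≤ a`) and in `DQ5 r_i z_i ⊆ K`: `pr s z_i` is in the same interval of length `2^B'`, so `|x 1 - z_i 1| < 2^B' + 2^(r_i) ≤ 2·2^(r_i)`.  They are disjoint for different `i` (the `T_i` have the full width of `Q`).  So `vol(K ∩ RQ s a B' y) ≥ 2^B' ∑_{r_i ≥ B'} 2^(r_i) ≥ 2^(B'-B) ∑_{r_i ≥ B'} μ_i/κ₀ ≥ θ' 2^(a+B')/(4 κ₀)`.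
Hypotheses: hPT, hLGR, hEQ. -/
def StFAT : Prop :=
  ∀ (s : ℝ) (a B : ℤ) (P F : Set Pl) (R : Pl → ℤ) (θ' κ₀ dD : ℝ) (y : Pl), |s| ≤ 1 → B ≤ a → BM P → P ⊆ F →
    (∀ b : ℤ, MeasurableSet {z | z ∈ P ∧ R z ≤ b}) → (∀ z ∈ P, R z ≤ a) → 0 < θ' → 0 < dD → dD ≤ κ₀ →
    (∀ z ∈ P, ∀ b : ℤ, R z ≤ b → volume (P ∩ DQ b z) ≤ ENNReal.ofReal (dD * (4 : ℝ) ^ b)) →
    (∀ z ∈ P, B < R z → volume ({z' | z' ∈ P ∧ R z' ≤ R z} ∩ RQ s (R z) B z) ≤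
      ENNReal.ofReal (κ₀ * (2 : ℝ) ^ (R z + B))) → Rich P s a B θ' y →
    ∃ B' : ℤ, B ≤ B' ∧ B' ≤ a ∧
      volume (P ∩ RQ s a B y) ≤ 4 * volume ({z | z ∈ P ∧ R z ≤ B'} ∩ RQ s a B y) ∧
      Rich (Ft F R) s a B' (θ' / (10 * κ₀)) y

/-- OUT (about 300 lines), the fattened set.  `K = Ft F R`.  For `z ∈ F` let `S z = DQ (R z) z`; these squares are nested or disjoint and `R z ≤ b₁ - 2`, so every one is contained in a maximal one.  If `S z ⊆ S z'`, `R z ≤ R z'`, then `DQ5 (R z) z ⊆ DQ5 (R z') z'` (integers which differ by at most `2` have quotients `⌊·/2^d⌋` which differ by at most `2`).  So `K` is the union of the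
`DQ5 (R z) z` of the maximal squares, `vol(DQ5 (R z) z) = 25·4^(R z) < (25/d₀) vol(F ∩ S z)`, the maximal squares are disjoint: first clause.  `K` is a countable union of squares, bounded (`F` bounded, `R z ≤ b₁`).  Second: let `x ∈ K`, `b ≥ b₁`.  If `DQ5 (R z) z` (maximal) meets `DQ3 b x` in `y`: `|z i - y i| < 3·2^(R z) ≤ (3/4) 2^b`, so the floors of
`z i/2^b`, `y i/2^b` differ by at most `1`, `z ∈ DQ5 b x` and `S z ⊆ DQ b z ⊆ DQ5 b x`.  So `vol(K ∩ DQ3 b x) ≤ (25/d₀) ∑ vol(F ∩ S z) ≤ (25/d₀) vol(F ∩ DQ5 b x) ≤ (25/d₀)·25·D₂ 4^b` (each of the 25 squares which meets `F` in a point `z'` is `DQ b z'`).  Hypotheses: hEQ, hLGR. -/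
def StOUT : Prop :=
  ∀ (F : Set Pl) (R : Pl → ℤ) (b₁ : ℤ) (d₀ D₂ : ℝ), BM F → (∀ b : ℤ, MeasurableSet {z | z ∈ F ∧ R z ≤ b}) →
    0 < d₀ → 0 < D₂ → (∀ z ∈ F, R z + 2 ≤ b₁) →
    (∀ z ∈ F, ENNReal.ofReal (d₀ * (4 : ℝ) ^ (R z)) < volume (F ∩ DQ (R z) z)) →
    (∀ z ∈ F, ∀ b : ℤ, b₁ ≤ b → volume (F ∩ DQ b z) ≤ ENNReal.ofReal (D₂ * (4 : ℝ) ^ b)) →
    BM (Ft F R) ∧ F ⊆ Ft F R ∧ volume (Ft F R) ≤ ENNReal.ofReal (25 / d₀) * volume F ∧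
    Dn (Ft F R) (625 * D₂ / d₀) b₁

/-- LOW (about 250 lines), from points to ridges of the fattened set.  `K = Ft F R`, `θ₁ = θ'/(10 κ₀)`, `V = {z ∈ P | Rich P s a B θ' z}` is the union of the sets `P ∩ Q` over the different rich cells `Q = RQ s a B y`.  FAT for each of them: `B'`; `Rich K s a B' θ₁ y` and DRB (third clause, for `K`; `b₁ ≤ a`, `4 e' < θ₁`) give `B' < b₁`.  Let `P⁻` be the union over `Q` of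
`{z ∈ P ∩ Q | R z ≤ B'}`: `vol V ≤ 4 vol P⁻` (sum over the countably many disjoint cells).  For `z ∈ P⁻` the square `S z = DQ (R z) z` is contained in `K` and in `Ri K s a b₁ θ₁ (2^a)`: for `x ∈ S z`, `|x 0 - z 0| < 2^(R z) ≤ 2^a`, `|pr s x - pr s z| < 2·2^(R z) < 3·2^B'`, and `Rich K s a B' θ₁ z` (the cell of `z` is the cell of `y`, LGR).  The maximal squares `S z`,
`z ∈ P⁻`, are disjoint and `vol(P ∩ S z) ≤ dD 4^(R z) = dD vol(S z)`; so `vol P⁻ ≤ dD vol(K ∩ Ri ..)`.  Hypotheses: hLGR, hEQ, hDRB, hFAT. -/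
def StLOW : Prop :=
  ∀ (s : ℝ) (a B b₁ : ℤ) (P F : Set Pl) (R : Pl → ℤ) (θ' κ₀ dD e' : ℝ), |s| ≤ 1 → B ≤ a → b₁ ≤ a → BM P → P ⊆ F →
    (∀ b : ℤ, MeasurableSet {z | z ∈ P ∧ R z ≤ b}) → (∀ z ∈ F, R z + 2 ≤ b₁) → 0 < θ' → 0 < dD → dD ≤ κ₀ →
    (∀ z ∈ P, ∀ b : ℤ, R z ≤ b → volume (P ∩ DQ b z) ≤ ENNReal.ofReal (dD * (4 : ℝ) ^ b)) →
    (∀ z ∈ P, B < R z → volume ({z' | z' ∈ P ∧ R z' ≤ R z} ∩ RQ s (R z) B z) ≤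
      ENNReal.ofReal (κ₀ * (2 : ℝ) ^ (R z + B))) →
    0 ≤ e' → Dn (Ft F R) e' b₁ → 4 * e' < θ' / (10 * κ₀) →
    volume {z | z ∈ P ∧ Rich P s a B θ' z} ≤
      ENNReal.ofReal (4 * dD) * volume (Ft F R ∩ Ri (Ft F R) s a b₁ (θ' / (10 * κ₀)) ((2 : ℝ) ^ a))

/-! ## Two classes -/

/-- all the numbers for a pair of classes `w < u` (index `1` for `w`, `2` for `u`): `g₁ = 2^(q₁-6-r)`, `g₂ = 2^(q₂-6-r)`, `L₀ = 2^(r+7)`, densities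
`M 2^(-pw)`, `M 2^(-pu)`, `d₀`, inner density `κ₀` -/
structure Nu (p A CH C₀ : ℝ) (w u q₁ q₂ r : ℕ) (θ₁ m₁ θ₂ m₂ lam M d₀ κ₀ : ℝ) : Prop where
  r1 : r + 11 ≤ q₁ ∧ r + 11 ≤ q₂
  th1 : 0 < θ₁ ∧ θ₁ ≤ 1 ∧ 0 < θ₂ ∧ θ₂ ≤ 1 ∧ 0 < m₁ ∧ 0 < m₂
  pos : 0 < lam ∧ lam ≤ 1 ∧ 0 < M ∧ 0 < d₀ ∧ 0 < κ₀ ∧ κ₀ ≤ 1 ∧ 0 ≤ A ∧ 1 ≤ CH
  sur : 64 * C₀ * CH / M ≤ lam
  you : (2 : ℝ) ^ (-(p * w)) * (2 ^ (q₁ - r) * 2 ^ w * (35 / (m₁ * θ₁))) ≤ lam / 16 ∧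
    (2 : ℝ) ^ (-(p * u)) * (2 ^ (q₂ - r) * 2 ^ u * (35 / (m₂ * θ₂))) ≤ lam / 16
  siz : w ≤ 43 * 2 ^ (q₁ - 6 - r) ∧ u ≤ 43 * 2 ^ (q₂ - 6 - r)
  spd : C₀ * d₀ ≤ lam ^ 2 * θ₁ / (2 ^ (r + 7) + 2)
  spa : C₀ * (1 + (2 : ℝ) ^ w * (A / 2 ^ (q₁ - 6 - r)) ^ (1 / p)) *
      (1 + d₀ * (2 ^ (r + 7) + 2) ^ 2 / (lam ^ 4 * θ₁ ^ 2)) <
    lam * (m₁ * θ₁) * (2 : ℝ) ^ (p * w) / ((2 ^ (r + 7) + 2) * 2 ^ (q₁ - 6 - r))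
  sep : 16 * (M * (2 : ℝ) ^ (-(p * u))) < d₀
  kap : (4 + C₀) * (M * (2 : ℝ) ^ (-(p * w))) < κ₀
  inn : (2 : ℝ) ^ (-(p * u)) * (2 ^ q₂ * (35 / (m₂ * θ₂))) *
      (C₀ * (1 + (2 : ℝ) ^ u * (A / 2 ^ (q₁ - 10 - r)) ^ (1 / p)) * (1 + M * (2 : ℝ) ^ (-(p * w)) / κ₀ ^ 2) *
        (M * (2 : ℝ) ^ (-(p * w)) / d₀)) ≤ lam / 8
  out : (4 + C₀) * (625 * (M * (2 : ℝ) ^ (-(p * u))) / d₀) < lam ^ 2 * θ₂ / (80 * (2 ^ (r + 7) + 2) * κ₀) ∧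
    lam ^ 2 * θ₂ / (80 * (2 ^ (r + 7) + 2) * κ₀) ≤ 1
  fin : 100 * (M * (2 : ℝ) ^ (-(p * w)) / d₀) * (C₀ * (1 + (2 : ℝ) ^ u * (A / 2 ^ (q₂ - 6 - r)) ^ (1 / p)) *
      (1 + 625 * (M * (2 : ℝ) ^ (-(p * u))) / d₀ / (lam ^ 2 * θ₂ / (80 * (2 ^ (r + 7) + 2) * κ₀)) ^ 2)) <
    lam * (m₂ * θ₂) * (2 : ℝ) ^ (p * u) / (140 * ((2 ^ (r + 7) + 2) * 2 ^ (q₂ - 6 - r)))

/-- TWA (about 150 lines), most points are not sparse.  SPA with `u ↦ w`, `g = 2^(q-6-r)`, `L₀ = 2^(r+7)` (`L₀ g = 2^(q+1)`, `64 g = 2^(q-r)`, `J.card ≤ 2^w`): its conclusion contradicts `Nu.spa`, so `4 vol(H \ H') ≤ vol H`.  Hypotheses: hSPA. -/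
def StTWA : Prop :=
  ∃ C : ℝ, 1 ≤ C ∧ ∀ (C₀ p A CH : ℝ) (E H : Set Pl) (w u q₁ q₂ r : ℕ) (J : Finset ℕ) (sl : ℕ → ℝ) (fl : ℕ → ℕ)
    (D θ₁ m₁ θ₂ m₂ al lam M d₀ κ₀ : ℝ) (ω : ℤ → ℕ → Pl → ℝ≥0∞), C ≤ C₀ → 1 < p → p < 2 →
    Nu p A CH C₀ w u q₁ q₂ r θ₁ m₁ θ₂ m₂ lam M d₀ κ₀ → Cls p A al w q₁ J sl →
    Chg CH E w q₁ J sl fl D θ₁ m₁ ω → 0 < D → BM E → BM H → H ⊆ E → 0 < volume H →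
    (∀ z ∈ H, ENNReal.ofReal lam ≤ cg p w J ω z) →
    ∫⁻ z, cg p w J ω z ≤ ENNReal.ofReal (1 / lam) * volume H →
    4 * volume (H \ Ns H (kp H E (M * (2 : ℝ) ^ (-(p * w))) D) (2 ^ (q₁ - 6 - r)) d₀) ≤ volume H

/-- TWB (about 150 lines), the exit scale for the class `u` is above the squares of the class `w` and constant on them.  `κ₁`, `g`, `H' = Ns H κ₁ g d₀`, `R = Rz κ₁ g`; `κ₂ = kp H E D₂ D` with `16 D₂ < d₀`.  Let `z ∈ H'`, `b = R z + 2`: `vol(H ∩ DQ3 b z) ≥ vol(Ly H κ₁ g _ ∩ DQ (R z) z) > d₀ 4^(R z) = (d₀/16) 4^b ≥ D₂ 4^b`, so `z ∉ Fb H D₂ b` and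
`b < κ₂ z` (KPF).  Let `z' ∈ H ∩ DQ (R z) z`.  For `b ≥ R z`: `z ∈ Fb H D₂ b ↔ z' ∈ Fb H D₂ b`, and the same for `Fb E D b` (EFB, fourth clause, in both directions), so by KPF `κ₂ z ≤ b ↔ κ₂ z' ≤ b` for all `b ≥ R z`; as `κ₂ z > R z`, also `κ₂ z' > R z` and `κ₂ z' = κ₂ z`.  Hypotheses: hEQ, hEFB, hKPF. -/
def StTWB : Prop :=
  ∀ (E H : Set Pl) (κ₁ : Pl → ℤ) (g : ℕ) (d₀ D₂ D : ℝ), BM E → BM H → H ⊆ E → 1 ≤ g → 0 < D₂ → 0 < D →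
    16 * D₂ < d₀ → (∀ z ∈ H, ∃ b : ℤ, z ∉ Fb E D b) →
    ∀ z ∈ Ns H κ₁ g d₀, Rz κ₁ g z + 2 < kp H E D₂ D z ∧
      ∀ z' ∈ H ∩ DQ (Rz κ₁ g z) z, kp H E D₂ D z' = kp H E D₂ D z

/-- TWC (about 200 lines), the charges of the class `u` at inner rich points.  `D' = M 2^(-pw)`, `g = 2^(q₁-6-r)`, `g' = 2^(q₁-10-r) ≥ 2` (`18 g' ≤ 2 g`), `H' = Ns H κ₁ g d₀`.  For given `z` at most `2^q₂` values of `k` have `ω k j z ≠ 0` for some `j` (see SUP), and `ω ≤ 35/(m₂ θ₂)`: the charge is at most `2^(-pu) 2^q₂ (35/(m₂ θ₂)) ∑_j vol(In H H' κ₁ g κ₀ (sl j))`.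
INR with `nst = 1 + 2^u (A/g')^(1/p)` (`Cls.sep` of the class `u`), `Nu.inn`.  Hypotheses: hEFB, hSUP, hINR, hLAY. -/
def StTWC : Prop :=
  ∃ C : ℝ, 1 ≤ C ∧ ∀ (C₀ p A CH : ℝ) (E H : Set Pl) (κ₁ : Pl → ℤ) (w u q₁ q₂ r : ℕ) (J : Finset ℕ) (sl : ℕ → ℝ)
    (fl : ℕ → ℕ) (D θ₁ m₁ θ₂ m₂ al lam M d₀ κ₀ : ℝ) (ω : ℤ → ℕ → Pl → ℝ≥0∞), C ≤ C₀ → 1 < p → p < 2 →
    Nu p A CH C₀ w u q₁ q₂ r θ₁ m₁ θ₂ m₂ lam M d₀ κ₀ → Cls p A al u q₂ J sl →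
    Chg CH E u q₂ J sl fl D θ₂ m₂ ω → 0 < D → BM E → BM H → H ⊆ E → Kap H (M * (2 : ℝ) ^ (-(p * w))) κ₁ →
    (∀ j : ℕ, MeasurableSet (In H (Ns H κ₁ (2 ^ (q₁ - 6 - r)) d₀) κ₁ (2 ^ (q₁ - 6 - r)) κ₀ (sl j))) ∧
    ch p u J ω (fun _ j => In H (Ns H κ₁ (2 ^ (q₁ - 6 - r)) d₀) κ₁ (2 ^ (q₁ - 6 - r)) κ₀ (sl j)) ≤
      ENNReal.ofReal (lam / 8) * volume (Ns H κ₁ (2 ^ (q₁ - 6 - r)) d₀)

/-- TWE (about 150 lines), poor points.  `H' = Ns H κ g d₀`, `R = Rz κ g`, `l = κ z/g`.  Let `z ∈ H'`, `z ∉ In .. s`, `B < R z`.  `{z' ∈ H' | R z' ≤ R z} ∩ RQ s (R z) B z ⊆ Gl H H' κ g l`: `κ z'/g ≤ l` (`g ≥ 1`), and `z' ∈ DQ5 (R z) z` since `⌊z' 0/2^(R z)⌋ = ⌊z 0/2^(R z)⌋`, `|z' 1 - z 1| < 2^(R z) + 2^B < 2·2^(R z)` (LGR).  If `B ≤ (l+1) g`: `z ∉ In` gives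
`vol(Gl ∩ RQ s (R z) B z) < κ₀ 2^(R z + B)`.  If `(l+1) g < B`: LAY (`Dn Gl D' ((l+1)g)`) and DRB (third clause; `(l+1) g ≤ R z`, `4 D' < κ₀`) show that `Rich Gl s (R z) B κ₀ z` is false.  Second part: `κ z < (l+1) g ≤ R z ≤ b`, `Kap`.  Hypotheses: hLGR, hEQ, hLAY, hDRB. -/
def StTWE : Prop :=
  ∀ (H : Set Pl) (κ : Pl → ℤ) (g : ℕ) (D' d₀ κ₀ s : ℝ) (z : Pl), BM H → Kap H D' κ → 1 ≤ g → 0 < D' → 0 < d₀ →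
    4 * D' < κ₀ → |s| ≤ 1 → z ∈ Ns H κ g d₀ →
    (z ∉ In H (Ns H κ g d₀) κ g κ₀ s → ∀ B : ℤ, B < Rz κ g z →
      volume ({z' | z' ∈ Ns H κ g d₀ ∧ Rz κ g z' ≤ Rz κ g z} ∩ RQ s (Rz κ g z) B z) ≤
        ENNReal.ofReal (κ₀ * (2 : ℝ) ^ (Rz κ g z + B))) ∧
    ∀ b : ℤ, Rz κ g z ≤ b → volume (H ∩ DQ b z) ≤ ENNReal.ofReal (D' * (4 : ℝ) ^ b)

/-- TWD (about 400 lines), the contradiction.  `D₁' = M 2^(-pw)`, `D₂' = M 2^(-pu)`, `κ₁ = kp H E D₁' D₁`, `κ₂ = kp H E D₂' D₂` (KPF, SUP), `g₁ = 2^(q₁-6-r)`, `g₂ = 2^(q₂-6-r)`, `L₀ = 2^(r+7)`, `H' = Ns H κ₁ g₁ d₀`, `R = Rz κ₁ g₁`.  TWA: `vol H ≤ (4/3) vol H'` (so `vol H' > 0`).  For the class `u`: `∫_{H'} cg ≥ lam vol H'`; AGE (`H₁ = H'`, `G = 64 g₂ = 2^(q₂-r)`):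
the charge with `k < κ₂ z + 64 g₂` is at most `(lam/64) vol H + (lam/16) vol H' ≤ (lam/8) vol H'`; TWC: the charge at inner rich points is at most `(lam/8) vol H'`; `ω k j z ≠ 0` implies `k < κ₂ z + 2^(q₂+1) = κ₂ z + L₀ g₂`.  So `Rs k j = {z ∈ H' | z ∉ In .. (sl j), κ₂ z + 64 g₂ ≤ k ≤ κ₂ z + L₀ g₂}` carries at least `(lam/2) vol H'`.
PLM for `H'` (`κ₂`, `lam/2`, `Lam = 2/lam`): `l`, `k`, `F = Ly H' κ₂ g₂ l`, `P_j = Rs k j ∩ F`, `θ' = lam² θ₂/(8 (L₀+2))`.  `b₁ = (l+1) g₂`, `a = k - u`: `k ≥ (l+64) g₂`, so `b₁ + 18 g₂ ≤ a` (`u ≤ 43 g₂`).  TWB: for `z ∈ F`: `R z + 2 < κ₂ z < b₁`, and the points of the `κ₁`-layer of `z` in `H' ∩ DQ (R z) z` are in `F`, so by LAY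
`d₀ 4^(R z) < vol(F ∩ DQ (R z) z)`; `vol(F ∩ DQ b z) ≤ D₂' 4^b` for `b ≥ b₁` (Kap for `κ₂`, EQ).  OUT: `K = Ft F R`, `vol K ≤ (25/d₀) vol F`, `Dn K e' b₁`, `e' = 625 D₂'/d₀`.  For each `j ∈ J₂` with `{z ∈ P_j | Rich P_j .. θ' z} ≠ ∅`: `B = k - fl j < b₁ ≤ a` (DRB for `F`, `Dn F D₂' b₁`, `4 D₂' < θ'` by `Nu.out`, `Nu.kap`: `D₂' ≤ e' < θ'/(10κ₀)·..`, use `d₀ ≤ D₁'`, see below);
LOW with `dD = D₁'` (its hypotheses on `P_j`: TWE), `θ₁ = θ'/(10 κ₀) = lam² θ₂/(80 (L₀+2) κ₀)`, `4 e' < θ₁` (`Nu.out`).  So `∑_j vol{z ∈ P_j | Rich ..} ≤ 4 D₁' ∑_j vol(K ∩ Ri K (sl j) a b₁ θ₁ (2^a)) ≤ 4 D₁' C₀ nst (1 + e'/θ₁²) vol K` (DRT, `g = g₂`, `nst = 1 + 2^u (A/g₂)^(1/p)`, `C₀ e' ≤ θ₁ ≤ 1`), and PLM gives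
`(lam/2)(m₂ θ₂) 2^(pu)/(70 (L₀+2) g₂) vol F ≤ 4 D₁' C₀ nst (1 + e'/θ₁²)(25/d₀) vol F`: contradiction to `Nu.fin` (`0 < vol F < ∞`).  (`4 D₂' < θ'`: LAY and Kap give `d₀ 4^(R z) < vol(H ∩ DQ (R z) z) ≤ D₁' 4^(R z)`, so `d₀ < D₁' < κ₀ ≤ 1`; `4 D₂' ≤ 4 e' d₀ < θ₁ κ₀ ≤ θ'`.)
Hypotheses: hEQ, hEFB, hKPF, hSUP, hAGE, hPLM, hDRB, hDRT, hLAY, hOUT, hLOW, hTWA, hTWB, hTWC, hTWE. -/
def StTWD : Prop :=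
  ∃ C : ℝ, 1 ≤ C ∧ ∀ (C₀ p A CH : ℝ) (E H : Set Pl) (w u q₁ q₂ r : ℕ) (J₁ J₂ : Finset ℕ) (sl₁ sl₂ : ℕ → ℝ)
    (fl₁ fl₂ : ℕ → ℕ) (D₁ D₂ θ₁ m₁ θ₂ m₂ al lam M d₀ κ₀ : ℝ) (ω₁ ω₂ : ℤ → ℕ → Pl → ℝ≥0∞), C ≤ C₀ → 1 < p →
    p < 2 → Nu p A CH C₀ w u q₁ q₂ r θ₁ m₁ θ₂ m₂ lam M d₀ κ₀ → Cls p A al w q₁ J₁ sl₁ →
    Chg CH E w q₁ J₁ sl₁ fl₁ D₁ θ₁ m₁ ω₁ → Cls p A al u q₂ J₂ sl₂ → Chg CH E u q₂ J₂ sl₂ fl₂ D₂ θ₂ m₂ ω₂ →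
    0 < D₁ → 0 < D₂ → BM E → BM H → H ⊆ E → 0 < volume H →
    (∀ z ∈ H, ENNReal.ofReal lam ≤ cg p w J₁ ω₁ z ∧ ENNReal.ofReal lam ≤ cg p u J₂ ω₂ z) →
    ∫⁻ z, cg p w J₁ ω₁ z ≤ ENNReal.ofReal (1 / lam) * volume H →
    ∫⁻ z, cg p u J₂ ω₂ z ≤ ENNReal.ofReal (1 / lam) * volume H → False

/-- TWN (about 400 lines), the numbers.  `T = sz R Y β`, `X = 2^T/lam ≥ 1`; `K₁ < K₂ < K₃ < C` suitable (in this order), depending on `p`; `c` denotes constants which depend on `p`, `A`, `CH`, `C₀`.  Put `r = ⌈log₂(20160 X)⌉₊`, `M = 64 C₀ CH/lam`, `d₀ = 2^(-pw) X^(-K₂)/c₂`, `κ₀ = c₃ X^(K₃) 2^(-w/p)`.  For `v = w, u`: `q = (p-1)v + R + O(1)`, `i = v/p + Y + O(1)`,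
`mb i β th i = 2^β/36`, `th i ∈ [c X^(-1) 2^(-v/p), C X 2^(-v/p)]`, `2^(r+7) + 2 ≤ c X`, `2^(q-6-r) ≥ c X^(-2) 2^((p-1)v)`, so `2^v (A/2^(q-6-r))^(1/p) ≤ c X^2 2^(v/p)` (`1/p ≤ 1`; `1 - (p-1)/p = 1/p`).  `you`: `2^(-pv) 2^(q-r) 2^v 35·36·2^(-β) ≤ 1260·2^(R-β)/(20160 X) ≤ lam/16`.
`spa`: the right side is `≥ c X^(-K₁) 2^w`, the left side `≤ c X^(K₁)(2^(w/p) + X^(-K₂) 2^(w/p + 2w/p - pw))`, `3/p - p = 1`.  `inn`: `2^(-pu) 2^q₂·36·35·2^(-β) ≤ c X 2^(-u)`; the product is `≤ c X^(K₁) 2^(-u) 2^u 2^(-(p-1)w/p)(1 + X^(-2K₃) 2^(2w/p - pw)) X^(K₂)`, `-(p-1)/p + 2/p - p = 0`.  `out`: `e' ≤ c X^(K₂+1) 2^(-p(u-w))`,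
`θ₁' := lam² θ₂/(80 (..) κ₀) ∈ [c X^(-K₁-K₃) 2^(-(u-w)/p), c X^(K₁) 2^(-(u-w)/p)]`, `p > 1/p`.  `fin`: left `≤ c X^(K₁+K₂) 2^(u/p)(1 + X^(2K₁+2K₃+K₂) 2^(-p(u-w) + 2(u-w)/p))`, `u/p + (2/p - p)(u-w) = u - (2/p-p) w`, right `≥ c X^(-K₁) 2^u`.  All other conditions are clear; everything holds if `2^w ≥ c X^C`, `2^(u-w) ≥ c X^C`
with `C` large (`(1 - 1/p)`, `(2/p - p)`, `(p - 1/p) > 0`); `T ≤ e w` is used only for `q`, `i` to be given by the formulas.  `siz`, `r1`: `2^(q-6-r) ≥ c X^(-2) 2^((p-1)v) ≥ v`.  Hypotheses: none. -/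
def StTWN : Prop :=
  ∀ p : ℝ, 1 < p → p < 2 → p ^ 2 + p = 3 → ∀ A CH C₀ : ℝ, 0 ≤ A → 1 ≤ CH → 1 ≤ C₀ → ∃ C : ℝ, 1 ≤ C ∧
    ∀ (e : ℝ) (R Y β : ℤ) (w u q₁ q₂ i₁ i₂ : ℕ) (lam : ℝ), Cfg p e R Y β w q₁ i₁ → Cfg p e R Y β u q₂ i₂ →
    w < u → 0 < lam → lam ≤ 1 → C * ((2 : ℝ) ^ (sz R Y β) / lam) ^ C < (2 : ℝ) ^ w →
    C * ((2 : ℝ) ^ (sz R Y β) / lam) ^ C < (2 : ℝ) ^ (u - w) →
    ∃ (r : ℕ) (M d₀ κ₀ : ℝ),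
      Nu p A CH C₀ w u q₁ q₂ r (th i₁) (mb i₁ β) (th i₂) (mb i₂ β) lam M d₀ κ₀

/-- PAI (about 200 lines), the pair bound.  `c_w = cg p w J₁ ω₁`, `c_u = cg p u J₂ ω₂`, `C₀` the constant of TWD, `C₁` that of TWN.  Let `0 < lam ≤ 1` satisfy the two inequalities of TWN.  `H = {z | lam ≤ c_w z, lam ≤ c_u z}` (measurable, `⊆ E`: SUP).  By TWD (with TWN) one of its hypotheses fails: `vol H = 0` or `vol H ≤ lam ∫ c_w` or `vol H ≤ lam ∫ c_u`; so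
`vol H ≤ lam (∫ c_w + ∫ c_u)`.  With `ρ ≥ 1` an upper bound of the truncated functions: `∫ min(c_w, ρ)·min(c_u, ρ) ≤ lam ∫ c_u + lam ∫ c_w + ρ² vol H ≤ 2 ρ² lam (∫ c_w + ∫ c_u)`.  `η = 1/C₁`, `lam = 2 C₁ 2^T (2^(-ηw) + 2^(-η(u-w)))` satisfies both inequalities of TWN (`C₁ (2^T/lam)^C₁ < 2^w`, `2^(u-w)`) if `lam ≤ 1`; if `lam > 1` the bound is trivial
(`∫ min(c_w,ρ) min(c_u,ρ) ≤ ρ ∫ c_w`).  Hypotheses: hSUP, hTWD, hTWN. -/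
def StPAI : Prop :=
  ∀ p : ℝ, 1 < p → p < 2 → p ^ 2 + p = 3 → ∀ A CH : ℝ, 0 ≤ A → 1 ≤ CH → ∃ C η : ℝ, 1 ≤ C ∧ 0 < η ∧ η ≤ 1 ∧
    ∀ (e : ℝ) (R Y β : ℤ) (w u q₁ q₂ i₁ i₂ : ℕ) (J₁ J₂ : Finset ℕ) (sl₁ sl₂ : ℕ → ℝ) (fl₁ fl₂ : ℕ → ℕ)
    (D₁ D₂ al ρ : ℝ) (E : Set Pl) (ω₁ ω₂ : ℤ → ℕ → Pl → ℝ≥0∞), Cfg p e R Y β w q₁ i₁ → Cfg p e R Y β u q₂ i₂ →
    w < u → 1 ≤ q₁ → 1 ≤ q₂ → Cls p A al w q₁ J₁ sl₁ → Chg CH E w q₁ J₁ sl₁ fl₁ D₁ (th i₁) (mb i₁ β) ω₁ →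
    Cls p A al u q₂ J₂ sl₂ → Chg CH E u q₂ J₂ sl₂ fl₂ D₂ (th i₂) (mb i₂ β) ω₂ → 0 < D₁ → 0 < D₂ → BM E → 1 ≤ ρ →
    ∫⁻ z, min (cg p w J₁ ω₁ z) (ENNReal.ofReal ρ) * min (cg p u J₂ ω₂ z) (ENNReal.ofReal ρ) ≤
      ENNReal.ofReal (C * ρ ^ 2 * (2 : ℝ) ^ (C * sz R Y β) *
        ((2 : ℝ) ^ (-(η * w)) + (2 : ℝ) ^ (-(η * ((u : ℝ) - w))))) *
        ((∫⁻ z, cg p w J₁ ω₁ z) + ∫⁻ z, cg p u J₂ ω₂ z)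

end Pool.Agent.Helper68.ES
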