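import Pool.Agent.Helper68.ES.St3

/-!
# Project ES (MP_cb927e_an): interface statements, part 4 (the directions which are used, sums over the classes, one set `E`)
-/

set_option autoImplicit false

open MeasureTheory Set Filter Topology
open scoped ENNReal RealInnerProductSpace

namespace Pool.Agent.Helper68.ES

open Pool.Agent.Helper68.LM (Pl BB Bd Av HL ft fm DQ)
open Pool.Agent.Helper20.RG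
open Pool.Agent.Helper20.RL (RQ Rich BM Fml Hit)
open Pool.Agent.Helper68.EP

open Classical in
/-- the directions of class `u` which are used, as a finite set -/
noncomputable def Jf (p : ℝ) (Δ : Dat) (al : ℝ) (β : ℤ) (u q i : ℕ) : Finset ℕ :=
  (Finset.range (2 ^ u)).filter (fun j => j ∈ Jc p Δ al β u q i)

/-- JCL (about 100 lines).  `j ∈ Jf ↔ j ∈ Jc` (`Jc` contains `j < 2^u`).  `card`, `slope`: `Sy.slope`.  `near`: `Sy.sep` with `θ = sl u j`, `i = 2^(q-κ)`: the number is at most `1 + 2^u ell (sl u j) (2^(q-κ))`, and the last clause of `Jc` gives `ell^p ≤ al 2^(2κ-q)`.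
`sep`: `Sy.sep` with `i = n`; `ell` is nonincreasing (`Sy.mono`), so `n ell(θ,n)^p ≤ ∑_{i < n} ell θ (i+1)^p ≤ A` (`Sy.sum`).  Hypotheses: none. -/
def StJCL : Prop :=
  ∀ (P : Par) (Δ : Dat) (al : ℝ) (β : ℤ) (u q i : ℕ), Sy P Δ → 1 ≤ u → 0 ≤ al →
    (∀ j : ℕ, j ∈ Jf P.p Δ al β u q i ↔ j ∈ Jc P.p Δ al β u q i) ∧
    Cls P.p P.A al u q (Jf P.p Δ al β u q i) (Δ.sl u)

/-- JCN (about 80 lines).  `j ∈ Jc`, `ell = ell (sl u j) (2^(q-5)) ≥ ell (sl u j) (2^(q-2)) ≥ 2^(i+β-1-u) > 0` (`Sy.mono`); the last clause with `κ = 5` gives `2^(q-10) 2^(p(i+β-1-u)) ≤ al`.  By `Cfg`: `q > (p-1)u - 1 + R`, `i > u/p - 1 + Y`, so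
`q - 10 + p(i+β-1-u) ≥ R + pY + pβ - 11 - 2p ≥ R + pY + pβ - 15`.  Hypotheses: none. -/
def StJCN : Prop :=
  ∀ (P : Par) (Δ : Dat) (e al : ℝ) (R Y β : ℤ) (u q i j : ℕ), Sy P Δ → 1 ≤ u → 6 ≤ q →
    Cfg P.p e R Y β u q i → j ∈ Jc P.p Δ al β u q i →
    0 < al ∧ (R : ℝ) + P.p * Y + P.p * β ≤ 15 + Real.logb 2 al

/-- DYS (about 120 lines), dyadic sums.  At most `K₀ = ⌈1/(p-1)⌉ + 1` numbers `w` have the same value `⌊(p-1)w⌋ + R = q w`.  So the sum is at most `K₀ ∑_{v ≤ V} 2^v ell(θ,2^v)^p`, and `2^v ell(θ,2^v)^p ≤ 2 ∑_{2^(v-1) < i ≤ 2^v} ell(θ,i)^p` for `v ≥ 1` (`Sy.mono`), `ell(θ,1)^p` for `v = 0`: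
total at most `2 K₀ ∑_{i < 2^V} ell θ (i+1)^p ≤ 2 K₀ A`.  Hypotheses: none. -/
def StDYS : Prop :=
  ∀ p : ℝ, 1 < p → ∃ K : ℝ, 1 ≤ K ∧ ∀ (P : Par) (Δ : Dat) (e : ℝ) (R Y β : ℤ) (W : Finset ℕ) (q i : ℕ → ℕ)
    (θ : ℝ) (κ : ℕ), P.p = p → Sy P Δ → (∀ w ∈ W, κ ≤ q w ∧ Cfg p e R Y β w (q w) (i w)) →
    ∑ w ∈ W, (2 : ℝ) ^ (q w - κ) * Δ.ell θ (2 ^ (q w - κ)) ^ p ≤ K * P.A

/-- FUS (about 200 lines), the directions which are used are few.  Let `j ∈ Jf ..` for `w ∈ W`, `s_j = τ (tm w j)`: `2^(q w) ≤ mm τ w j`, so `trn τ w j ≤ 2^w/2^mm ≤ 2^(w - 2^q) ≤ 2^(-2^(q-2))` (MM; `w ≤ 2^(q-3)`), and for `t ∈ [j/2^w,(j+1)/2^w)` (contained in the tripled interval and in `[0,1]`; `τ` monotone) `|τ t - s_j| ≤ 2^(-2^(q-2))`.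
By `shift` and `mono`: `ell (τ t) (2^(q-3)) ≥ ell (τ t) (2^(q-2) - 1) ≥ ell s_j (2^(q-2)) ≥ 2^(i+β-1-w)`, so `2^(q-3) ell (τ t) (2^(q-3))^p ≥ 2^(R + pY + pβ - 4 - 2p) ≥ δ := 2^(-2 sz - 8)` (`Cfg`: `q > (p-1)w - 1 + R`, `i > w/p - 1 + Y`).
`B_w = ⋃_{j ∈ Jf} [j/2^w,(j+1)/2^w)` has measure `(Jf ..).card 2^(-w)`.  By DYS (`κ = 3`) every `t ∈ [0,1)` is in at most `K A/δ` of the `B_w`.  So `∑_w |B_w| ≤ K A/δ`.  Hypotheses: hMM, hGPG, hDYS. -/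
def StFUS : Prop :=
  ∀ A p : ℝ, 0 < A → 1 < p → p < 2 → ∃ C : ℝ, 1 ≤ C ∧ ∀ (φ τ : ℝ → ℝ) (P : Par) (e al : ℝ) (R Y β : ℤ)
    (W : Finset ℕ) (q i : ℕ → ℕ), Graph φ τ → GapP A p τ → P.p = p → P.A = A → Sy P (dat τ) →
    (∀ w ∈ W, 1 ≤ w ∧ 3 ≤ q w ∧ w ≤ 2 ^ (q w - 3) ∧ Cfg p e R Y β w (q w) (i w)) →
    ∑ w ∈ W, ((Jf p (dat τ) al β w (q w) (i w)).card : ℝ) * (2 : ℝ) ^ (-(w : ℤ)) ≤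
      C * (2 : ℝ) ^ (C * sz R Y β)

/-- LVA (about 200 lines), classes of the same size.  If `vol E = 0` all integrals vanish.  `I = ∑_{w ∈ G} ∫ c_w ≥ N h vol E`, `N = G.card`, `I < ∞`.  Cauchy-Schwarz: `I² ≤ vol E ∫ (∑ c_w)²`.  `∫ c_w² ≤ ρ ∫ c_w`; for `w < u`: `∫ c_w c_u ≤ ρ·2h vol E` and `≤ δ_{wu}·4h vol E`, `δ_{wu} = Φ (2^(-ηw) + 2^(-η(u-w)))`, so
`∫ c_w c_u ≤ 2h vol E (min(ρ, 2Φ 2^(-ηw)) + min(ρ, 2Φ 2^(-η(u-w))))`.  `∑_{v ≥ 0} min(ρ, 2Φ 2^(-ηv)) ≤ S := ρ ((1 + log₂(Φ/ρ))/η + 1) + ρ/(1 - 2^(-η))`.  So `2 ∑_{w<u} ∫ c_w c_u ≤ 2·N·2h vol E·2S ≤ 8 S I` and `I² ≤ vol E (ρ + 8S) I`.  Hypotheses: none. -/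
def StLVA : Prop :=
  ∀ η : ℝ, 0 < η → η ≤ 1 → ∃ C : ℝ, 1 ≤ C ∧ ∀ (G : Finset ℕ) (E : Set Pl) (c : ℕ → Pl → ℝ≥0∞) (Φ ρ h : ℝ),
    BM E → 1 ≤ Φ → 0 < ρ → ρ ≤ Φ → 0 < h →
    (∀ w ∈ G, Measurable (c w) ∧ (∀ z : Pl, c w z ≠ 0 → z ∈ E) ∧ (∀ z : Pl, c w z ≤ ENNReal.ofReal ρ) ∧
      ENNReal.ofReal h * volume E ≤ ∫⁻ z, c w z ∧ ∫⁻ z, c w z ≤ ENNReal.ofReal (2 * h) * volume E) →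
    (∀ w ∈ G, ∀ u ∈ G, w < u → ∫⁻ z, c w z * c u z ≤
      ENNReal.ofReal (Φ * ((2 : ℝ) ^ (-(η * w)) + (2 : ℝ) ^ (-(η * ((u : ℝ) - w))))) *
        ((∫⁻ z, c w z) + ∫⁻ z, c u z)) →
    ∑ w ∈ G, ∫⁻ z, c w z ≤ ENNReal.ofReal (C * ρ * (1 + Real.logb 2 (Φ / ρ))) * volume E

/-- LVB (about 250 lines), numbers.  `lam = log₂(Φ/ρ₀) ≥ 0`, `Λ = 1 + lam + log₂ Φ ≥ 1`.  If `a w > 0` then `f w > 0`.  For `n, m : ℕ` let `ρ_n = min(ρ₀, Φ 2^(-n))` and `G_{n,m} = {w ∈ W | 2^(-n-1) < f w ≤ 2^(-n), 2^(-m-1) ρ_n < a w ≤ 2^(-m) ρ_n}`; every `w` with `a w > 0` is in one of these sets (`a w ≤ ρ_n`).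
`∑_{G_{n,m}} a w ≤ T_n := K ρ_n (1 + log₂(Φ/ρ_n))` (last hypothesis with `ρ' = Φ 2^(-n)`, `h = 2^(-m-1) ρ_n`), and `G_{n,m}` has at most `2^(n+1) Φ` elements (`∑ f ≤ Φ`), so the sum is at most `2^(n+1-m) Φ ρ_n`.  Sum over `m`: use the first bound for `m < m_n = n + 2 + ⌈log₂ Φ⌉`, the second for the others (total `≤ ρ_n`):
`≤ (m_n + 1) T_n ≤ K ρ_n (1 + max(lam,n)) (n + 4 + log₂ Φ)` (`Φ/ρ_n = max(Φ/ρ₀, 2^n)`).  Sum over `n`: for `n ≤ lam` each is at most `K ρ₀ Λ·4Λ`, and there are at most `Λ` of them; for `n = ⌊lam⌋ + 1 + v`: `ρ_n ≤ ρ₀ 2^(-v)`, `1 + n ≤ 2Λ(1+v)`, `n + 4 + log₂ Φ ≤ 5Λ(1+v)`, `∑_v (1+v)² 2^(-v) ≤ 12`.  Hypotheses: none. -/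
def StLVB : Prop :=
  ∃ C : ℝ, 1 ≤ C ∧ ∀ (W : Finset ℕ) (a f : ℕ → ℝ) (Φ ρ₀ K : ℝ), 1 ≤ Φ → 0 < ρ₀ → ρ₀ ≤ Φ → 1 ≤ K →
    (∀ w ∈ W, 0 ≤ a w ∧ a w ≤ ρ₀ ∧ a w ≤ Φ * f w ∧ 0 ≤ f w ∧ f w ≤ 1) → ∑ w ∈ W, f w ≤ Φ →
    (∀ ρ' h : ℝ, 0 < ρ' → ρ' ≤ Φ → 0 < h →
      ∑ w ∈ W.filter (fun w => Φ * f w ≤ ρ' ∧ h ≤ a w ∧ a w ≤ 2 * h), a w ≤
        K * (min ρ₀ ρ') * (1 + Real.logb 2 (Φ / min ρ₀ ρ'))) →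
    ∑ w ∈ W, a w ≤ C * K * ρ₀ * (1 + Real.logb 2 (Φ / ρ₀) + Real.logb 2 Φ) ^ 3

/-- LVL (about 120 lines).  If `vol E = 0` trivial.  `a w = (∫ c_w)/vol E ≤ min(ρ₀, Φ f w)`.  LVB; its last hypothesis is LVA with `G` the filtered set, `ρ = min ρ₀ ρ'` (`c_w ≤ min(ρ₀, Φ f w) ≤ ρ`).  Hypotheses: hLVA, hLVB. -/
def StLVL : Prop :=
  ∀ η : ℝ, 0 < η → η ≤ 1 → ∃ C : ℝ, 1 ≤ C ∧ ∀ (W : Finset ℕ) (E : Set Pl) (c : ℕ → Pl → ℝ≥0∞) (f : ℕ → ℝ)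
    (Φ ρ₀ : ℝ), BM E → 1 ≤ Φ → 0 < ρ₀ → ρ₀ ≤ Φ →
    (∀ w ∈ W, Measurable (c w) ∧ (∀ z : Pl, c w z ≠ 0 → z ∈ E) ∧ (∀ z : Pl, c w z ≤ ENNReal.ofReal ρ₀) ∧
      (∀ z : Pl, c w z ≤ ENNReal.ofReal (Φ * f w)) ∧ 0 ≤ f w ∧ f w ≤ 1) → ∑ w ∈ W, f w ≤ Φ →
    (∀ w ∈ W, ∀ u ∈ W, w < u → ∫⁻ z, c w z * c u z ≤
      ENNReal.ofReal (Φ * ((2 : ℝ) ^ (-(η * w)) + (2 : ℝ) ^ (-(η * ((u : ℝ) - w))))) *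
        ((∫⁻ z, c w z) + ∫⁻ z, c u z)) →
    ∑ w ∈ W, ∫⁻ z, c w z ≤
      ENNReal.ofReal (C * ρ₀ * (1 + Real.logb 2 (Φ / ρ₀) + Real.logb 2 Φ) ^ 3) * volume E

/-- MAI (about 250 lines), one set, all classes of a type.  `e`, `δ₀`, `c₂` from TRU (`e` also `≤ (p-1)/2`), `T = sz R Y β`, `n' = nn c δ R Y β`, `1 ≤ n' ≤ 2^T` (`c 2^(-β - δT) ≤ 2^|β|`).  For `w ∈ W` let `ω_w` be the charges of CHX (`CH` from CHX), `c_w = cg p w (J w) ω_w`, so `(3/4) 2^(-pw) vol(⋃_k Xk ..) ≤ ∫ c_w`.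
TRU: `∫ c_w ≤ 2 ∫ c'_w`, `c'_w z = c_w z` if `c_w z ≤ ρ₀ := C₀ n' 2^(-c₂T)`, and `0` otherwise.  SUP: `c_w ≤ 2^(-pw) 2^q |J w| 35·36·2^(-β) ≤ 1260·2^(R-β) f_w`, `f_w = |J w| 2^(-w) ≤ 1` (`mb th = 2^β/36`, `q ≤ (p-1)w + R`); measurable and `0` outside `E`.
PAI with `ρ = max(1, ρ₀) ≤ C₀ 2^T` (`c'_w ≤ min(c_w, ρ)`) and TRU: `∫ c'_w c'_u ≤ C ρ² 2^(CT)(2^(-ηw) + 2^(-η(u-w)))·2 (∫ c'_w + ∫ c'_u)`.  LVL with `Φ = C' 2^(C'T)` (`C'` large, so that all conditions hold, also `ρ₀ ≤ Φ`): `log₂(Φ/ρ₀) + log₂ Φ ≤ C''(1 + T)` as `n' ≥ 1`, so `∑ ∫ c'_w ≤ C n' 2^(-c₂T)(1 + T)³ vol E`;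
`c₃ = c₂/2`.  (`q w ≥ 1` for `w ≥ u₀`.)  Hypotheses: hCHX, hTRU, hSUP, hPAI, hLVL. -/
def StMAI : Prop :=
  ∀ p : ℝ, 1 < p → p < 2 → p ^ 2 + p = 3 → ∃ δ₀ c₃ e : ℝ, 0 < δ₀ ∧ 0 < c₃ ∧ 0 < e ∧
    ∀ A Cf C₁ c δ : ℝ, 0 ≤ A → 1 ≤ Cf → 1 ≤ C₁ → 0 < c → c ≤ 1 → 0 < δ → δ ≤ δ₀ → ∃ (u₀ : ℕ) (C : ℝ), 1 ≤ C ∧
    ∀ (R Y β : ℤ) (W : Finset ℕ) (q i : ℕ → ℕ) (J : ℕ → Finset ℕ) (sl : ℕ → ℕ → ℝ) (fl : ℕ → ℕ → ℕ)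
    (cc : ℕ → ℕ → Pl) (D : ℕ → ℝ) (al : ℝ) (E : Set Pl), BM E → 0 ≤ al → al ≤ C₁ / nn c δ R Y β →
    (R : ℝ) + p * Y + p * β ≤ C₁ - Real.logb 2 (nn c δ R Y β) →
    (∀ w ∈ W, u₀ ≤ w ∧ Cfg p e R Y β w (q w) (i w) ∧ Cls p A al w (q w) (J w) (sl w) ∧ 0 < D w ∧
      ∀ j ∈ J w, ‖cc w j‖ ≤ Cf ∧ w ≤ fl w j + 1) →
    ∑ w ∈ W, ((J w).card : ℝ) * (2 : ℝ) ^ (-(w : ℤ)) ≤ C₁ * (2 : ℝ) ^ (C₁ * sz R Y β) →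
    ∑ w ∈ W, ENNReal.ofReal ((2 : ℝ) ^ (-(p * w))) *
      volume (⋃ k : ℤ, Xk E w (q w) (J w) (sl w) (fl w) (cc w) (D w) (th (i w)) (mb (i w) β) k) ≤
      ENNReal.ofReal (C * nn c δ R Y β * (2 : ℝ) ^ (-(c₃ * sz R Y β))) * volume E

end Pool.Agent.Helper68.ES
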