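import Pool.Agent.Helper68.ES.St4

/-!
# Project ES (MP_cb927e_an): interface statements, part 5 (the hits at a point, all sets; output `StOII` of part II)
-/

set_option autoImplicit false

open MeasureTheory Set Filter Topology
open scoped ENNReal RealInnerProductSpace

namespace Pool.Agent.Helper68.ES

open Pool.Agent.Helper68.LM (Pl BB Bd Av HL ft fm DQ)
open Pool.Agent.Helper20.RG
open Pool.Agent.Helper20.RL (RQ Rich BM Fml Hit)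
open Pool.Agent.Helper68.EP

/-- pairs of hits (class `w` for `E₁`, class `u` for `E₂`) of different directions -/
def Fp (P : Par) (Δ : Dat) (ct : ℕ → ℕ → Pl) (w u q₁ q₂ i₁ i₂ : ℕ) (k : ℤ) (E₁ E₂ : Set Pl) (x : Pl) :
    Set (ℕ × ℕ) :=
  {h | h.1 ∈ Hs Δ ct w k (th i₁) (Eg E₁ (DD P w) q₁ k) x ∧ h.2 ∈ Hs Δ ct u k (th i₂) (Eg E₂ (DD P u) q₂ k) x ∧
    (2 : ℝ) ^ ((u : ℤ) - 2 ^ q₂) < |Δ.sl w h.1 - Δ.sl u h.2|}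

/-- class `w` is active for the type `(R, Y, β)` at the point `x`, scale `k` -/
structure Ac (P : Par) (Δ : Dat) (ct : ℕ → ℕ → Pl) (e : ℝ) (R Y β : ℤ) (w q i : ℕ) (k : ℤ) (E : Set Pl)
    (x : Pl) : Prop where
  cfg : Cfg P.p e R Y β w q i
  lo : mb i β ≤ hn P Δ ct w q i k E x
  hi : hn P Δ ct w q i k E x < 2 * mb i β

/-- MKV (about 80 lines), Markov for outer measures.  Let `B' i ⊇ B i` be measurable of the same measure (`toMeasurable`) and `N x = ∑' i, 1_{B' i} x ∈ [0,∞]` (measurable: `ι` is countable).  If `V` is as in the set then `N x ≥ V.card ≥ n`.  Markov: `volume {x | n ≤ N x} ≤ (1/n) ∫ N = (1/n) ∑' i, volume (B' i)`.  Hypotheses: none. -/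
def StMKV : Prop :=
  ∀ (ι : Type) [Countable ι] (B : ι → Set Pl) (n : ℝ), 0 < n →
    volume {x : Pl | ∃ V : Finset ι, (∀ i ∈ V, x ∈ B i) ∧ n ≤ (V.card : ℝ)} ≤
      ENNReal.ofReal (1 / n) * ∑' i : ι, volume (B i)

/-- EGS (about 80 lines).  `q ≥ 1`: `ag q = 2^q`, `Eg E D q k = Fb E D (k - 2^q) \ Fb E D (k - 2^(q+1))`, measurable and bounded (EFB).  For fixed `z` the `b` with `z ∈ Fb E D b` form an up-set (EFB); if `z ∈ Eg E D q k` for some `k` then it has a least element `κ` and `κ + 2^q ≤ k < κ + 2^(q+1)`: at most `2^q` values of `k`.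
Integrate over `E` (Tonelli).  (See the proof of `Pool.Agent.Helper68.ES.StSUP`.)  Hypotheses: hEFB. -/
def StEGS : Prop :=
  ∀ (E : Set Pl) (D : ℝ) (q : ℕ), BM E → 0 < D → 1 ≤ q →
    (∀ k : ℤ, BM (Eg E D q k) ∧ Eg E D q k ⊆ Fb E D (k - 2 ^ q)) ∧
    ∑' k : ℤ, volume (Eg E D q k) ≤ ENNReal.ofReal (2 ^ q) * volume E

/-- PXH (about 60 lines).  `V = Rc Δ u j k θ F` is a union of cells `RQ s (k-u) (k-m) y`, `m = fl u j` (`LFM`, first part), so it is measurable, `vol V ≤ (1/θ) vol(F ∩ V)` (LFM with constant `A`, `B`).  `{x | Hit ..}` is the translate by `2^k ct` of the set of LGE with `a = k - u`, `b = k - m`, `p = 3`, `q = 2`: measure `≤ 35 vol V`.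
Hypotheses: hLGR, hLFM, hLGE. -/
def StPXH : Prop :=
  ∀ (Δ : Dat) (ct : ℕ → ℕ → Pl) (u j : ℕ) (k : ℤ) (θ : ℝ) (F : Set Pl), BM F → 0 < θ →
    (∀ y ∈ Rc Δ u j k θ F, RQ (Δ.sl u j) (k - (u : ℤ)) (k - (Δ.fl u j : ℤ)) y ⊆ Rc Δ u j k θ F) ∧
    MeasurableSet (Rc Δ u j k θ F) ∧
    volume (Rc Δ u j k θ F) ≤ ENNReal.ofReal (1 / θ) * volume F ∧
    volume {x | j ∈ Hs Δ ct u k θ F x} ≤ ENNReal.ofReal (35 / θ) * volume F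

/-- PX1 (about 300 lines), crossing hits (compare the proof of `Pool.Agent.Helper68.EP.StXB1`, file `Pool/Agent/Helper76/EP/M_XB1.lean`).  `s₁ = sl w j`, `s₂ = sl u j'`, `a₁ = k - w`, `a₂ = k - u ≤ a₁`, `B₁ = k - fl w j`, `B₂ = k - fl u j'`, `b = k - 2^q₂ ≤ a₂`, `F₂ = Eg E₂ (DD P u) q₂ k ⊆ Fb E₂ (DD P u) b` (`q₂ ≥ 1`), so
`vol(F₂ ∩ DQ b' y') ≤ DD 4^b'` for `b' ≥ b` (EFB).  Fix a cell `Q₁ = RQ s₁ a₁ B₁ y₁ ⊆ V₁ = Rc Δ w j k θ₁ (Eg E₁ ..)`.  Let `x` be in the set, near a point of `Q₁` and near `y₂`, `Rich F₂ s₂ a₂ B₂ θ₂ y₂`.  XW (`θ₂ > 4 DD`): `B₂ < b`.  With `x'' = x - 2^k ct u j'` there is an integer `|i| ≤ 3` such that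
`x''' = x'' + i 2^a₂ E(s₂)` satisfies `⌊x''' 0/2^a₂⌋ = ⌊y₂ 0/2^a₂⌋` (`|x'' 0 - y₂ 0| ≤ 3·2^a₂`), `pr s₂ x''' = pr s₂ x''`: `x''' ∈ Rs F₂ s₂ a₂ b θ₂`.  On the other hand `x ∈ {|(x - 2^k ct w j) 0 - y₁ 0| ≤ 4·2^a₁, |pr s₁ (x - 2^k ct w j) - pr s₁ y₁| ≤ 3·2^B₁}` (LGR), so `x'''` is in a translate of it, which is covered by
`8·2^(a₁-a₂) + 1 ≤ 9·2^(a₁-a₂)` sets `{g ≤ x 0 ≤ g + 2^a₂, |pr s₁ x - c| ≤ 3·2^B₁}`.  ECR (`F = F₂`, `(s₁,s₂) ↦ (s₂,s₁)`, `a = a₂`, `D = DD P u`, `ϑ = θ₂`, `h = 3·2^B₁`; `2^b = 2^(u - 2^q₂) 2^a₂ ≤ |s₁ - s₂| 2^a₂`): `≤ 1100 (DD/θ₂) 2^a₂ 3·2^B₁`.  Total `7·9·3300 (DD/θ₂) 2^(a₁+B₁) ≤ 10^6 (DD/θ₂) vol Q₁`.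
Sum over the (countably many, disjoint, measurable) cells of `V₁`.  Hypotheses: hPT, hLGR, hEFB, hECR, hXW. -/
def StPX1 : Prop :=
  ∀ (P : Par) (Δ : Dat) (ct : ℕ → ℕ → Pl) (w u j j' q₁ q₂ : ℕ) (k : ℤ) (θ₁ θ₂ : ℝ) (E₁ E₂ : Set Pl), Sy P Δ →
    1 ≤ w → w ≤ u → j < 2 ^ w → j' < 2 ^ u → BM E₁ → BM E₂ → 0 < θ₁ → 4 * DD P u < θ₂ → 1 ≤ q₂ → u ≤ 2 ^ q₂ →
    (2 : ℝ) ^ ((u : ℤ) - 2 ^ q₂) < |Δ.sl w j - Δ.sl u j'| →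
    volume {x | j ∈ Hs Δ ct w k θ₁ (Eg E₁ (DD P w) q₁ k) x ∧ j' ∈ Hs Δ ct u k θ₂ (Eg E₂ (DD P u) q₂ k) x} ≤
      ENNReal.ofReal (10 ^ 6 * DD P u / θ₂) * volume (Rc Δ w j k θ₁ (Eg E₁ (DD P w) q₁ k))

/-- PX2 (about 120 lines), many crossing pairs.  Fix `k`.  MKV with `ι = ℕ × ℕ`, `B h = {x | h ∈ Fp .. x}` (empty unless `h.1 < 2^w`, `h.2 < 2^u`), `V = Fp .. x` (finite), `n = m₁ m₂/16`: the measure is at most `(16/(m₁ m₂)) ∑_{j < 2^w} ∑_{j' < 2^u} 10^6 (DD P u/th i₂) vol(Rc ..)` (PX1), and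
`vol(Rc ..) ≤ (1/th i₁) vol(Eg E₁ (DD P w) q₁ k)` (PXH).  Sum over `k`: EGS.  Hypotheses: hMKV, hEGS, hPXH, hPX1. -/
def StPX2 : Prop :=
  ∀ (P : Par) (Δ : Dat) (ct : ℕ → ℕ → Pl) (w u q₁ q₂ i₁ i₂ : ℕ) (m₁ m₂ : ℝ) (E₁ E₂ : Set Pl), Sy P Δ → 1 ≤ w →
    w ≤ u → BM E₁ → BM E₂ → 4 * DD P u < th i₂ → 1 ≤ q₁ → 1 ≤ q₂ → u ≤ 2 ^ q₂ → 0 < m₁ → 0 < m₂ →
    ∑' k : ℤ, volume {x | m₁ * m₂ / 16 ≤ ((Fp P Δ ct w u q₁ q₂ i₁ i₂ k E₁ E₂ x).ncard : ℝ)} ≤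
      ENNReal.ofReal (16 * 10 ^ 6 * 2 ^ w * 2 ^ u * 2 ^ q₁ * DD P u / (m₁ * th i₁ * (m₂ * th i₂))) * volume E₁

/-- PX3 (about 250 lines), the exceptional set of the crossing pairs.  `p = P.p`, `s = P.s`, `e ≤ (s-1)/8 < (p-1)/8`.  For given `w ≤ u` and type `(R,Y,β)` with `Cfg .. w q₁ i₁` (so `sz ≤ e w`) the numbers `q₁, i₁, q₂, i₂` are determined.  For `u ≥ w ≥ u₀`: `q₁, q₂ ≥ 1`, `u ≤ 2^q₂` (`q₂ ≥ (p-1)u - 1 - e u`),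
`4 DD P u < th i₂` (`i₂ ≤ u/p + e u`, `1/p + e < 1 < s`).  PX2 with `m = mb`: `mb i β th i = 2^β/36`, `2^q₁ ≤ 2^((p-1)w + R)`: the measure (summed over `k`) is at most `C 2^(w+u-su+(p-1)w+R-2β) vol E₁ ≤ C 2^(pw + 3ew - (s-1)u) vol(Gf f (l+w))`.  Sum over `u ≥ w` and over the at most `(2ew+1)³` types:
`≤ C' (2ew+1)³ 2^((p + 3e - (s-1))w) vol(..) ≤ C'' 2^((p - (s-1)/4)w) vol(Gf f (l+w))`.  Sum over `w`, `l`: LSQ, fourth clause.  (`Gf f m` is `BM`: `f` is `BB`.)  Hypotheses: hPX2, hLSQ. -/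
def StPX3 : Prop :=
  ∀ (P : Par) (e : ℝ), 0 < e → 8 * e ≤ P.s - 1 → ∃ (u₀ : ℕ) (C : ℝ), 1 ≤ u₀ ∧ 1 ≤ C ∧
    ∀ (Δ : Dat) (ct : ℕ → ℕ → Pl) (f : Pl → ℝ), Sy P Δ → BB f → (∀ x, 0 ≤ f x) →
    ∑' l : ℤ, ENNReal.ofReal ((2 : ℝ) ^ (P.p * l)) * volume {x | ∃ (k R Y β : ℤ) (w u q₁ q₂ i₁ i₂ : ℕ),
      u₀ ≤ w ∧ w ≤ u ∧ Cfg P.p e R Y β w q₁ i₁ ∧ Cfg P.p e R Y β u q₂ i₂ ∧
      mb i₁ β * mb i₂ β / 16 ≤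
        ((Fp P Δ ct w u q₁ q₂ i₁ i₂ k (Gf f (l + (w : ℤ))) (Gf f (l + (u : ℤ))) x).ncard : ℝ)} ≤
      ENNReal.ofReal C * ∫⁻ x, ENNReal.ofReal (f x) ^ P.p

/-- TRW (about 200 lines), too many hits.  `p = P.p`, `e' = e/6`.  Fix `u`, `q`, `i` with `Crit`, so `1 ≤ q ≤ (p-1)u + e'u`, `i ≤ u/p + e'u` (`u ≥ u₀`).  MKV with `B j = {x | j ∈ Hs ..}` (`j < 2^u`), PXH: `vol{x | n ≤ hn ..} ≤ (1/n) 2^u (35/th i) vol(Eg ..)`; `n = 2^(i + eu/2)`; sum over `k` (EGS): `≤ 1260·2^(u + q - eu/2) vol E ≤ 1260·2^(pu - eu/3) vol E`.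
There are at most `(4u+4)²` pairs `(q,i)` (`e ≤ 1`): total `≤ C 2^((p - e/4)u) vol(Gf f (l+u))`.  Sum over `u`, `l`: LSQ, fourth clause.  Hypotheses: hMKV, hEGS, hPXH, hLSQ. -/
def StTRW : Prop :=
  ∀ (P : Par) (e : ℝ), 0 < e → e ≤ P.p - 1 → ∃ (u₀ : ℕ) (C : ℝ), 1 ≤ u₀ ∧ 1 ≤ C ∧
    ∀ (Δ : Dat) (ct : ℕ → ℕ → Pl) (f : Pl → ℝ), Sy P Δ → BB f → (∀ x, 0 ≤ f x) →
    ∑' l : ℤ, ENNReal.ofReal ((2 : ℝ) ^ (P.p * l)) * volume {x | ∃ (k : ℤ) (u q i : ℕ), u₀ ≤ u ∧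
      Crit P.p (e / 6) u q i ∧ (2 : ℝ) ^ ((i : ℝ) + e / 2 * u) ≤ hn P Δ ct u q i k (Gf f (l + (u : ℤ))) x} ≤
      ENNReal.ofReal C * ∫⁻ x, ENNReal.ofReal (f x) ^ P.p

open Classical in
/-- CMB (about 100 lines), combinatorics.  `n = V.card ≥ 1`.  `∑_{j' ∈ H us} ∑_{w ∈ V} (1/m w) #{j ∈ H w | far w j j'} < m us n/16 ≤ #(H us) n/16`, so there is `j' ∈ H us` with `∑_{w ∈ V} (1/m w) #{j ∈ H w | far w j j'} ≤ n/16`.  The number of `w` with `#{..} > m w/4` is then at most `n/4`.  Hypotheses: none. -/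
def StCMB : Prop :=
  ∀ (V : Finset ℕ) (H : ℕ → Finset ℕ) (m : ℕ → ℝ) (us : ℕ) (far : ℕ → ℕ → ℕ → Prop), us ∈ V →
    (∀ w ∈ V, 0 < m w ∧ m w ≤ ((H w).card : ℝ)) →
    (∀ w ∈ V, (((H w ×ˢ H us).filter (fun h => far w h.1 h.2)).card : ℝ) < m w * m us / 16) →
    ∃ j' ∈ H us, 3 / 4 * (V.card : ℝ) ≤
      ((V.filter (fun w => (((H w).filter (fun j => far w j j')).card : ℝ) ≤ m w / 4)).card : ℝ)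

/-- ATL (about 100 lines).  `∑_w ∑_{κ ∈ [1,q w]} 2^(q-2κ) ell(θ,2^(q-κ))^p = ∑_{κ ≥ 1} 2^(-κ) ∑_{w ∈ V, κ ≤ q w} 2^(q-κ) ell(θ,2^(q-κ))^p ≤ ∑_κ 2^(-κ) K A ≤ K A` (DYS).  If at least `V.card/4` of the `w` had a sum larger than `4 K A/V.card` the total would be larger than `K A` (if `V` is nonempty).  Hypotheses: hDYS. -/
def StATL : Prop :=
  ∀ P : Par, ∃ K : ℝ, 1 ≤ K ∧ ∀ (Δ : Dat) (e : ℝ) (R Y β : ℤ) (V : Finset ℕ) (q i : ℕ → ℕ) (θ : ℝ), Sy P Δ →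
    V.Nonempty → (∀ w ∈ V, Cfg P.p e R Y β w (q w) (i w)) →
    3 / 4 * (V.card : ℝ) ≤ ((V.filter (fun w => ∑ κ ∈ Finset.Icc 1 (q w),
      (2 : ℝ) ^ ((q w : ℤ) - 2 * κ) * Δ.ell θ (2 ^ (q w - κ)) ^ P.p ≤ K / (V.card : ℝ))).card : ℝ)

/-- GDC (about 350 lines), the good classes at a point.  `H w = Hs Δ ct w k (th (i w)) (Eg (E w) (DD P w) (q w) k) x`, finite, `#H w = hn`, `m w = mb (i w) β`.  For `w ≥ u₀`: `q w ≥ 6`, `w ≤ 2^(q w - 1)`, `m w ≥ 4`, `4 DD P w < th (i w)` (`sz ≤ e w`, `e ≤ (s-1)/8 < (p-1)/8`, `1/p + e < 1 < s`).  `us = max V`.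
CMB with `far w j j' = (2^(us - 2^(q us)) < |sl w j - sl us j'|)` (the set of pairs is `Fp`): `j'`, `θ = sl us j'`; for at least `3/4` of the `w ∈ V` at least `m w - m w/4 = (3/4) m w` elements `j ∈ H w` satisfy `|sl w j - θ| ≤ 2^(us - 2^(q us)) ≤ 2^(-2^(q w - 1))` (`q w ≤ q us`).  ATL for this `θ`: for at least `3/4` of the `w ∈ V` the sum is `≤ K/V.card ≤ K/n'`.
So at least half of the `w` have both properties; let `w` be one of them, `q = q w`, `j ∈ H w` near `θ`.  `j ∈ Jc` with `al = 4K/n'`: (a) `2^q ≤ fl w j`: there is a cell `RQ s (k-w) (k - fl) y` in which `Eg ⊆ Fb (E w) (DD P w) (k - 2^q)` has density `≥ th`; if `fl < 2^q` then XW (`b = k - 2^q ≤ k - w`, EFB) gives `th ≤ 4 DD`.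
(b) `(3/4) m ≤ #{j'' < 2^w : |sl w j'' - θ| ≤ 2^(-2^(q-1))} ≤ 1 + 2^w ell θ (2^(q-1))` (`sep`), so `2^w ell θ (2^(q-1)) ≥ m/2`, and `ell θ (2^(q-1)) ≤ ell (sl w j) (2^(q-1) - 1) ≤ ell (sl w j) (2^(q-2))` (`shift`, `mono`).  (c) `5 ≤ κ < q`: `ell (sl w j) (2^(q-κ)) ≤ ell θ (2^(q-κ) - 1) ≤ ell θ (2^(q-κ-1))`
(`2^(q-κ) ≤ 2^(q-1)`), so `2^(q-2κ) ell^p ≤ 4·2^(q-2(κ+1)) ell θ (2^(q-(κ+1)))^p ≤ 4K/n'` (a term of the sum: `κ + 1 ≤ q`).  So at least `(3/4) m` and fewer than `2 m` elements of `H w` are in `Jf`: `x ∈ Xk`.  `C₁ = 4K`.  Hypotheses: hEFB, hXW, hJCL, hCMB, hATL. -/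
def StGDC : Prop :=
  ∀ (P : Par) (e : ℝ), 0 < e → 8 * e ≤ P.s - 1 → ∃ (u₀ : ℕ) (C₁ : ℝ), 1 ≤ u₀ ∧ 1 ≤ C₁ ∧
    ∀ (Δ : Dat) (ct : ℕ → ℕ → Pl) (R Y β : ℤ) (V : Finset ℕ) (q i : ℕ → ℕ) (k : ℤ) (x : Pl) (E : ℕ → Set Pl)
    (n' : ℝ), Sy P Δ → (∀ w, BM (E w)) → 0 < n' → n' ≤ (V.card : ℝ) →
    (∀ w ∈ V, u₀ ≤ w ∧ Ac P Δ ct e R Y β w (q w) (i w) k (E w) x) →
    (∀ w ∈ V, ∀ u ∈ V, w ≤ u → ((Fp P Δ ct w u (q w) (q u) (i w) (i u) k (E w) (E u) x).ncard : ℝ) <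
      mb (i w) β * mb (i u) β / 16) →
    ∃ V' ⊆ V, (V.card : ℝ) / 2 ≤ (V'.card : ℝ) ∧ ∀ w ∈ V',
      x ∈ Xk (E w) w (q w) (Jf P.p Δ (C₁ / n') β w (q w) (i w)) (Δ.sl w) (Δ.fl w) (ct w) (DD P w) (th (i w))
        (mb (i w) β) k

/-- PIG (about 300 lines), pigeonhole.  `K = ∑_{n ∈ ℤ} 2^(-δ|n|)`, `c = min(1, c₀/(16 K³))`.  Suppose the first alternative is false.  Consider `(u,q,i)`, `u ∈ [U₀,V)`, `q, i < 2u`, with `Crit` and `hn > 0` (`hn` is a natural number); put `β = ⌊log₂ hn⌋ - i`, so `mb i β = 2^(i+β) ≤ hn < 2^(i+β+1)`; `β < eu/2`.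
If `β ≥ -eu/2`: `R = q - ⌊(p-1)u⌋`, `Y = i - ⌊u/p⌋`, `|R|, |Y| ≤ eu/6 + 1`, so `sz ≤ (5/6) e u + 2 ≤ e u` (`u ≥ u₀ ≥ 12/e`): `Ac` for the type `(R,Y,β)`.  The others (`β < -eu/2`): `2^(-i) hn < 2·2^(-eu/2)`, total at most `∑_{u ≥ U₀} 4u²·2·2^(-eu/2) ≤ c₀/4` (`u₀` large).
So the sum of `2^(-i) hn ≤ 2^(β+1)` over the `(u,q,i)` of the first kind is at least `c₀/2`.  Only finitely many types occur; `(q,i)` is determined by `u` and the type; let `n_t` be the number of `u ∈ [U₀,V)` which are active for the type `t`.  If `n_t < nn c δ t` for all `t` then `n_t = 0` or `n_t < c 2^(-β-δ sz)` (as `n_t` is an integer),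
so `∑_t n_t 2^(β+1) ≤ 2c ∑_t 2^(-δ sz) ≤ 2 c K³ ≤ c₀/8`, a contradiction.  So `nn c δ t ≤ n_t` for some `t`; `W` the set of these `u`, `q u = (⌊(p-1)u⌋ + R).toNat`, `i u = (⌊u/p⌋ + Y).toNat`.  Hypotheses: none. -/
def StPIG : Prop :=
  ∀ p e c₀ δ : ℝ, 1 < p → p < 2 → 0 < e → 0 < c₀ → 0 < δ → ∃ (u₀ : ℕ) (c : ℝ), 0 < c ∧ c ≤ 1 ∧
    ∀ (P : Par) (Δ : Dat) (ct : ℕ → ℕ → Pl) (U₀ V : ℕ) (k : ℤ) (E : ℕ → Set Pl) (x : Pl), P.p = p → u₀ ≤ U₀ →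
    c₀ ≤ ∑ u ∈ Finset.Ico U₀ V, cr P Δ ct (e / 6) u k (E u) x →
    (∃ u q i : ℕ, U₀ ≤ u ∧ Crit p (e / 6) u q i ∧
      (2 : ℝ) ^ ((i : ℝ) + e / 2 * u) ≤ hn P Δ ct u q i k (E u) x) ∨
    ∃ (R Y β : ℤ) (W : Finset ℕ) (q i : ℕ → ℕ), nn c δ R Y β ≤ (W.card : ℝ) ∧
      ∀ w ∈ W, U₀ ≤ w ∧ Ac P Δ ct e R Y β w (q w) (i w) k (E w) x

/-- TYP (about 350 lines), one type.  `δ₀`, `c₃`, `e₁` from MAI; `e = min(e₁, (p-1)/16)`, `c₄ = c₃`; `8e ≤ (p-1)/2 ≤ P.s - 1`.  `n' = nn c δ R Y β`, `al = C₁/n'` (GDC), `q_w = (⌊(p-1)w⌋ + R).toNat`, `i_w = (⌊w/p⌋ + Y).toNat`, `𝒲 = {w ≥ u₀ | Cfg p e R Y β w q_w i_w}`; for `w ∈ V` we have `w ∈ 𝒲`, `q w = q_w`, `i w = i_w`.  `J_w = Jf p Δ al β w q_w i_w`,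
`B_w(E) = ⋃_k Xk E w q_w J_w ..`.  If `x` is in the set for `l` then by GDC `x ∈ B_w(Gf f (l+w))` for at least `n'/2` of the `w ∈ 𝒲`; MKV: measure at most `(2/n') ∑'_{w ∈ 𝒲} vol(B_w(Gf f (l+w)))`.  Multiply by `2^(pl)`, sum over `l`, put `h = l + w` (`2^(pl) = 2^(ph) 2^(-pw)`): `(2/n') ∑'_h 2^(ph) ∑'_{w ∈ 𝒲} 2^(-pw) vol(B_w(Gf f h))`.
For every finite `W ⊆ 𝒲`: if all `J_w` are empty then the `Xk` are empty (`mb > 0`).  Otherwise JCN: `R + pY + pβ ≤ 15 + log₂ al ≤ 15 + log₂ C₁ - log₂ n'`; JCL: `Cls`; FUS: the sum of the `|J_w| 2^(-w)` (for `w ≥ u₀`: `q_w ≥ 6`, `w ≤ 2^(q_w - 3)`); `Sy.flat`: `w ≤ fl + 1`; so MAI (with `A = P.A` and a large constant `C₁`) gives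
`∑_{w ∈ W} 2^(-pw) vol(B_w(E)) ≤ C n' 2^(-c₃ sz) vol E`, and (`ENNReal.tsum` is the supremum of the finite sums) the same for `𝒲`.  Finally `∑'_h 2^(ph) vol(Gf f h) ≤ ∫ f^p` (LSQ, third clause).  Hypotheses: hMKV, hJCL, hJCN, hFUS, hMAI, hGDC, hLSQ. -/
def StTYP : Prop :=
  ∀ p : ℝ, 1 < p → p < 2 → p ^ 2 + p = 3 → ∃ δ₀ c₄ e : ℝ, 0 < δ₀ ∧ 0 < c₄ ∧ 0 < e ∧ e ≤ (p - 1) / 16 ∧
    ∀ (P : Par) (Cf c δ : ℝ), P.p = p → (1 + p) / 2 ≤ P.s → 1 ≤ Cf → 0 < c → c ≤ 1 → 0 < δ → δ ≤ δ₀ →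
    ∃ (u₀ : ℕ) (C : ℝ), 1 ≤ C ∧ ∀ (φ τ : ℝ → ℝ) (ct : ℕ → ℕ → Pl) (R Y β : ℤ) (f : Pl → ℝ), Graph φ τ →
    0 < P.A → GapP P.A p τ → Sy P (dat τ) → (∀ u j : ℕ, 1 ≤ u → j < 2 ^ u → ‖ct u j‖ ≤ Cf) → BB f →
    (∀ x, 0 ≤ f x) →
    ∑' l : ℤ, ENNReal.ofReal ((2 : ℝ) ^ (p * l)) * volume {x | ∃ (k : ℤ) (V : Finset ℕ) (q i : ℕ → ℕ),
      nn c δ R Y β ≤ (V.card : ℝ) ∧
      (∀ w ∈ V, u₀ ≤ w ∧ Ac P (dat τ) ct e R Y β w (q w) (i w) k (Gf f (l + (w : ℤ))) x) ∧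
      ∀ w ∈ V, ∀ u ∈ V, w ≤ u → ((Fp P (dat τ) ct w u (q w) (q u) (i w) (i u) k (Gf f (l + (w : ℤ)))
        (Gf f (l + (u : ℤ))) x).ncard : ℝ) < mb (i w) β * mb (i u) β / 16} ≤
      ENNReal.ofReal (C * (2 : ℝ) ^ (-(c₄ * sz R Y β))) * ∫⁻ x, ENNReal.ofReal (f x) ^ p

/-- OII (about 200 lines), the output of part II.  `δ = δ₀`, `c₄`, `e₁` from TYP, `e = e₁/6`.  PIG with `e₁`, `c₀`, `δ`: `u₁`, `c`.  TYP: `u₂`, `C₂`.  PX3 with `e₁` (`8 e₁ ≤ (p-1)/2 ≤ P.s - 1`): `u₃`.  TRW with `e₁ ≤ p - 1`: `u₄`.  `u₀ = max`.  For `U₀ ≥ u₀` the set is contained in the union of the set of TRW, the set of PX3 and the sets of TYP for all `(R,Y,β)`: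
by PIG (with `E u = Gf f (l+u)`, `BM`) either the first alternative holds (TRW), or there are a type and `W`; if `x` is not in the set of PX3 then all pairs `w ≤ u` in `W` satisfy the last condition of TYP (`Ac.cfg`).  `∑_{(R,Y,β) ∈ ℤ³} 2^(-c₄ sz) < ∞`.  Hypotheses: hTRW, hPX3, hTYP, hPIG. -/
def StOII : Prop :=
  ∀ p : ℝ, 1 < p → p < 2 → p ^ 2 + p = 3 → ∃ e : ℝ, 0 < e ∧
    ∀ (P : Par) (Cf c₀ : ℝ), P.p = p → (1 + p) / 2 ≤ P.s → 1 ≤ Cf → 0 < c₀ → ∃ (u₀ : ℕ) (C : ℝ), 1 ≤ C ∧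
    ∀ (φ τ : ℝ → ℝ) (ct : ℕ → ℕ → Pl) (U₀ : ℕ) (f : Pl → ℝ), Graph φ τ → 0 < P.A → GapP P.A p τ →
    Sy P (dat τ) → (∀ u j : ℕ, 1 ≤ u → j < 2 ^ u → ‖ct u j‖ ≤ Cf) → u₀ ≤ U₀ → BB f → (∀ x, 0 ≤ f x) →
    ∑' l : ℤ, ENNReal.ofReal ((2 : ℝ) ^ (p * l)) * volume {x | ∃ (k : ℤ) (V : ℕ),
      c₀ ≤ ∑ u ∈ Finset.Ico U₀ V, cr P (dat τ) ct e u k (Gf f (l + (u : ℤ))) x} ≤
      ENNReal.ofReal C * ∫⁻ x, ENNReal.ofReal (f x) ^ p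

end Pool.Agent.Helper68.ES
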