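import Pool.Agent.Helper68.ES.St5

/-!
# Project ES (MP_cb927e_an): interface statements, part 6 (the theorem at `p² + p = 3`)
-/

set_option autoImplicit false

open MeasureTheory Set Filter Topology
open scoped ENNReal RealInnerProductSpace

namespace Pool.Agent.Helper68.ES

open Pool.Agent.Helper68.LM (Pl BB Bd Av HL ft fm DQ)
open Pool.Agent.Helper20.RG
open Pool.Agent.Helper20.RL (RQ Rich BM Fml Hit)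
open Pool.Agent.Helper68.EP
open Pool.Agent.Helper61.EP (trS Ex2 Yc Zc Ec am cutf)
open Pool.Agent.Helper61.Lacunary (ConditionG LpBounded)

/-- LCX (about 180 lines), combinatorics at a point (as LCB).  `∑_j v_j ≤ 2 Lw + 2 ∑_j tt_j ≤ 2·2^(-ε₃u) + 8 cr_u + 2 ∑_j tt_j`.  `u₁` with `2·2^(-ε₃u₁)/(1 - 2^(-ε₃)) ≤ 1/20`: then `8 ∑ cr ≥ 1/20` or `2 ∑∑ tt ≥ 1/8 - 1/20 - 1/20 = 1/40`.  Hypotheses: hYB, hEFB. -/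
def StLCX : Prop :=
  ∀ ε₃ : ℝ, 0 < ε₃ → ∃ u₁ : ℕ, ∀ (φ τ : ℝ → ℝ) (P : Par) (c : Pl) (e : ℝ) (U₀ V : ℕ) (k l : ℤ) (f : Pl → ℝ)
    (x : Pl), Graph φ τ → u₁ ≤ U₀ → BB f → (∀ x, 0 ≤ f x) →
    (∀ u : ℕ, U₀ ≤ u → Lw P c φ τ u k (Gf f (l + (u : ℤ))) x ≤
      (2 : ℝ) ^ (-(ε₃ * u)) + 4 * cr P (dat τ) (ce c φ) e u k (Gf f (l + (u : ℤ))) x) →
    1 / 8 ≤ ∑ u ∈ Finset.Ico U₀ V, ∑ j ∈ Finset.range (2 ^ u),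
      Yc c φ τ u k ((Gf f (l + (u : ℤ))).indicator 1) x j →
    1 / 160 ≤ ∑ u ∈ Finset.Ico U₀ V, cr P (dat τ) (ce c φ) e u k (Gf f (l + (u : ℤ))) x ∨
    1 / 200 ≤ ∑ u ∈ Finset.Icc U₀ V, ∑ j ∈ Finset.range (2 ^ u),
      tt P (dat τ) (ce c φ) (P.g / 8) u j k (Gf f (l + (u : ℤ))) x

/-- LOS (about 150 lines), the output of part L at `p² + p = 3`.  As LOA, with OI and OII in place of LXC.  Hypotheses: hGPG, hSY, hSYS, hOI, hOII, hLCX, hLGO, hLX2, hLX3, hLDM. -/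
def StLOS : Prop :=
  ∀ (φ τ : ℝ → ℝ) (A p : ℝ) (c : Pl), Graph φ τ → 0 < A → GapP A p τ → 1 < p → p < 2 → p ^ 2 + p = 3 →
    ∃ P : Par, P.p = p ∧ Sy P (dat τ) ∧ ∀ u₀ : ℕ, ∃ (U₀ : ℕ) (C K : ℝ), u₀ ≤ U₀ ∧ 1 ≤ C ∧ 1 ≤ K ∧
      ∀ f : Pl → ℝ, BB f → (∀ x, 0 ≤ f x) →
        ∑' l : ℤ, ENNReal.ofReal ((2 : ℝ) ^ (p * l)) * volume {x | ∃ k : ℤ,
          K * (2 : ℝ) ^ l < Av (arc c φ) ((2 : ℝ) ^ k) f x ∧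
          ∀ U₁ : ℕ, ∑ u ∈ Finset.Icc U₀ U₁, ∑ j ∈ Finset.range (2 ^ u),
            tt P (dat τ) (ce c φ) (P.g / 8) u j k (Gf f (l + (u : ℤ))) x < 1 / 200} ≤
          ENNReal.ofReal C * ∫⁻ x, ENNReal.ofReal (f x) ^ p

/-- FAS (about 150 lines), as FA.  Hypotheses: hYB, hXHI, hLOS. -/
def StFAS : Prop :=
  ∀ (φ τ : ℝ → ℝ) (A p : ℝ) (c : Pl), Graph φ τ → 0 < A → GapP A p τ → 1 < p → p < 2 → p ^ 2 + p = 3 →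
    ∃ C : ℝ, 0 < C ∧ ∀ g : Pl → ℝ, BB g → (∀ x, 0 ≤ g x) →
      ∫⁻ x, (⨆ k : ℤ, ENNReal.ofReal (Av (arc c φ) ((2 : ℝ) ^ k) g x)) ^ p ≤
        ENNReal.ofReal C * ∫⁻ x, ENNReal.ofReal (g x) ^ p

/-- FMS (about 120 lines), as FM.  Hypotheses: hPT, hFAS. -/
def StFMS : Prop :=
  ∀ (φ τ : ℝ → ℝ) (A p : ℝ) (c : Pl), Graph φ τ → 0 < A → GapP A p τ → 1 < p → p < 2 → p ^ 2 + p = 3 →
    MaxB (arc c φ) p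

/-- FZS (about 80 lines), as FZ.  Hypotheses: hPT, hCOV, hCPP, hFMS, hRES, hFIN. -/
def StFZS : Prop :=
  ∀ (Ω : Set Pl) (p : ℝ), IsOpen Ω → Convex ℝ Ω → Bornology.IsBounded Ω → (0 : Pl) ∈ Ω → 1 < p → p < 2 →
    p ^ 2 + p = 3 → ConditionG Ω p → LpBounded Ω p

end Pool.Agent.Helper68.ES
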